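import Mathlib

/-!
# [J2N-K1]
-/

set_option autoImplicit false

namespace J2N

/-- [K1] PROOF. `n` = the index, `Subgroup.pow_index_mem`, `Subgroup.mem_sup`, `Subgroup.mem_closure_pair`. -/
theorem idx_odd {G : Type} [CommGroup G] (T : Subgroup G) (u u' : G) (h : Odd (Subgroup.closure {u, u'} ⊔ T).index) (v : G) :
    ∃ n : ℕ, Odd n ∧ ∃ (a b : ℤ) (z : G), z ∈ T ∧ v ^ n = z * u ^ a * u' ^ b := by
  refine ⟨_, h, ?_⟩
  have h1 := Subgroup.pow_index_mem (Subgroup.closure {u, u'} ⊔ T) v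
  obtain ⟨y, hy, z, hz, hyz⟩ := Subgroup.mem_sup.1 h1
  obtain ⟨a, b, hab⟩ := Subgroup.mem_closure_pair.1 hy
  refine ⟨a, b, z, hz, ?_⟩
  rw [← hyz, ← hab]
  rw [mul_comm (u ^ a * u' ^ b) z, mul_assoc]

end J2N
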