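import Mathlib

/-!
# [J2N-K2]
-/

set_option autoImplicit false

namespace J2N

/-- [K2] `σ` an automorphism, `T` stable under `σ`, `g σg σ²g ∈ T` for all `g`, every element whose square is in `T` is in `T`, even finite index: then `u = z y²`.
PROOF. The quotient by the subgroup `H` has an element of order `2` (Cauchy): `v ∉ H`, `v² = z u^a σ(u)^b`. Not both of `a, b` are even (otherwise `v / (u^(a/2) σ(u)^(b/2))` has
its square in `T`, so `v ∈ H`). `w := v^a σ²(v)^b`; `w² = z' u^(a²) σ(u)^(ab) σ²(u)^(ab) σ³(u)^(b²)`, `σ³ = 1`, `σ(u) σ²(u) = t u⁻¹`: `w² = z'' u^(a² - a b + b²)`, and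
`a² - a b + b²` is odd. -/
theorem idx_even {G : Type} [CommGroup G] (T : Subgroup G) (σ : G ≃* G) (hσ : ∀ g, σ (σ (σ g)) = g) (hT : ∀ t ∈ T, σ t ∈ T)
    (hN : ∀ g, g * σ g * σ (σ g) ∈ T) (hsq : ∀ g, g ^ 2 ∈ T → g ∈ T) (u : G)
    (h0 : (Subgroup.closure {u, σ u} ⊔ T).index ≠ 0) (h : Even (Subgroup.closure {u, σ u} ⊔ T).index) :
    ∃ (z y : G), z ∈ T ∧ u = z * y ^ 2 := by
  set H : Subgroup G := Subgroup.closure {u, σ u} ⊔ T with hH
  have hfin : Finite (G ⧸ H) := Nat.finite_of_card_ne_zero h0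
  have hdvd : 2 ∣ Nat.card (G ⧸ H) := h.two_dvd
  have : Fact (Nat.Prime 2) := ⟨Nat.prime_two⟩
  obtain ⟨q, hq⟩ := exists_prime_orderOf_dvd_card' (G := G ⧸ H) 2 hdvd
  obtain ⟨v, rfl⟩ := QuotientGroup.mk_surjective q
  have hv1 : v ∉ H := by
    intro h1
    rw [(QuotientGroup.eq_one_iff v).2 h1, orderOf_one] at hq
    omega
  have hv2 : v ^ 2 ∈ H := by
    rw [← QuotientGroup.eq_one_iff, QuotientGroup.mk_pow, ← hq]
    exact pow_orderOf_eq_one _
  obtain ⟨x, hx, z, hz, hxz⟩ := Subgroup.mem_sup.1 (hH ▸ hv2)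
  obtain ⟨a, b, rfl⟩ := Subgroup.mem_closure_pair.1 hx
  -- not both of `a`, `b` are even
  have hodd : ¬ (Even a ∧ Even b) := by
    rintro ⟨⟨i, hi⟩, ⟨j, hj⟩⟩
    have h1 : (v * (u ^ i * σ u ^ j)⁻¹) ^ 2 ∈ T := by
      have h2 : (v * (u ^ i * σ u ^ j)⁻¹) ^ 2 = z := by
        have h3 : (u ^ i * σ u ^ j) ^ 2 = u ^ a * σ u ^ b := by
          rw [mul_pow, ← zpow_natCast, ← zpow_natCast, ← zpow_mul, ← zpow_mul, hi, hj]
          push_cast
          congr 2 <;> ring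
        rw [mul_pow, inv_pow, h3, ← hxz, mul_comm (u ^ a * σ u ^ b) z, mul_inv_cancel_right]
      rw [h2]
      exact hz
    have h2 := hsq _ h1
    apply hv1
    have h3 : v = (u ^ i * σ u ^ j) * (v * (u ^ i * σ u ^ j)⁻¹) := by
      rw [mul_comm v, mul_inv_cancel_left]
    rw [h3]
    exact Subgroup.mem_sup.2 ⟨_, Subgroup.mem_closure_pair.2 ⟨i, j, rfl⟩, _, h2, rfl⟩
  -- `w`
  obtain ⟨t, ht, hut⟩ : ∃ t ∈ T, σ u * σ (σ u) = t * u⁻¹ := ⟨u * σ u * σ (σ u), hN u, by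
    rw [mul_assoc u (σ u), mul_comm u (σ u * σ (σ u)), mul_inv_cancel_right]⟩
  have hn : ∃ k : ℤ, a ^ 2 - a * b + b ^ 2 = 2 * k + 1 := by
    have h1 : Odd (a ^ 2 - a * b + b ^ 2) := by
      rw [← Int.not_even_iff_odd]
      intro h2
      apply hodd
      rcases Int.even_or_odd a with h3 | h3 <;> rcases Int.even_or_odd b with h4 | h4
      · exact ⟨h3, h4⟩
      · exfalso
        rw [Int.even_add, Int.even_sub, Int.even_mul, Int.even_pow' two_ne_zero, Int.even_pow' two_ne_zero,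
          ← Int.not_odd_iff_even (n := b)] at h2
        tauto
      · exfalso
        rw [Int.even_add, Int.even_sub, Int.even_mul, Int.even_pow' two_ne_zero, Int.even_pow' two_ne_zero,
          ← Int.not_odd_iff_even (n := a)] at h2
        tauto
      · exfalso
        rw [Int.even_add, Int.even_sub, Int.even_mul, Int.even_pow' two_ne_zero, Int.even_pow' two_ne_zero,
          ← Int.not_odd_iff_even (n := a), ← Int.not_odd_iff_even (n := b)] at h2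
        tauto
    obtain ⟨k, hk⟩ := h1
    exact ⟨k, hk⟩
  obtain ⟨k, hk⟩ := hn
  have hv3 : v ^ 2 = u ^ a * σ u ^ b * z := hxz.symm
  have hw : (v ^ a * σ (σ v) ^ b) ^ 2 = (z ^ a * σ (σ z) ^ b * t ^ (a * b)) * u ^ (2 * k + 1) := by
    have h1 : (v ^ a * σ (σ v) ^ b) ^ 2 = (v ^ 2) ^ a * σ (σ (v ^ 2)) ^ b := by
      rw [mul_pow, map_pow, map_pow]
      congr 1
      · rw [← zpow_natCast, ← zpow_natCast, ← zpow_mul, ← zpow_mul, mul_comm]
      · rw [← zpow_natCast, ← zpow_natCast, ← zpow_mul, ← zpow_mul, mul_comm]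
    rw [h1, hv3, ← hk]
    simp only [map_mul, map_zpow, hσ]
    have h2 : (σ u) ^ (a * b) * (σ (σ u)) ^ (a * b) = t ^ (a * b) * u ^ (-(a * b)) := by
      rw [← mul_zpow, hut, mul_zpow, inv_zpow, zpow_neg]
    calc (u ^ a * σ u ^ b * z) ^ a * (σ (σ u) ^ a * u ^ b * σ (σ z)) ^ b
        = (z ^ a * σ (σ z) ^ b) * (u ^ (a * a) * u ^ (b * b)) * ((σ u) ^ (a * b) * (σ (σ u)) ^ (a * b)) := by
          simp only [mul_zpow, ← zpow_mul]
          rw [mul_comm b a]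
          ac_rfl
      _ = (z ^ a * σ (σ z) ^ b) * (u ^ (a * a) * u ^ (b * b)) * (t ^ (a * b) * u ^ (-(a * b))) := by rw [h2]
      _ = (z ^ a * σ (σ z) ^ b * t ^ (a * b)) * (u ^ (a * a) * u ^ (b * b) * u ^ (-(a * b))) := by ac_rfl
      _ = (z ^ a * σ (σ z) ^ b * t ^ (a * b)) * u ^ (a ^ 2 - a * b + b ^ 2) := by
          rw [← zpow_add, ← zpow_add]
          congr 2
          ring
  have hT1 : z ^ a * σ (σ z) ^ b * t ^ (a * b) ∈ T :=
    mul_mem (mul_mem (zpow_mem hz a) (zpow_mem (hT _ (hT _ hz)) b)) (zpow_mem ht _)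
  refine ⟨(z ^ a * σ (σ z) ^ b * t ^ (a * b))⁻¹, (v ^ a * σ (σ v) ^ b) * u ^ (-k), inv_mem hT1, ?_⟩
  rw [mul_pow, hw, ← zpow_natCast, ← zpow_mul, mul_assoc (z ^ a * σ (σ z) ^ b * t ^ (a * b)), inv_mul_cancel_left,
    ← zpow_add]
  have e1 : (2 * k + 1 + -k * ((2 : ℕ) : ℤ)) = 1 := by
    push_cast
    ring
  rw [e1, zpow_one]

end J2N
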