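import Pool.Agent.J2N.A

/-!
# [J2N-L1]
-/

set_option autoImplicit false

open NumberField IsDedekindDomain Filter Topology
open scoped Classical ComplexConjugate

namespace J2N

open CM27 JZ
open CU (eE)
open J2L (Cub LC)

variable {D : Eis}

/-- the mean value estimate -/
theorem l1_mv {x y σ : ℝ} (hy : 2 ≤ y) (hx : y / 2 ≤ x) (h1 : 1 ≤ σ) (h2 : σ ≤ 2) :
    |x ^ (-(2 * σ)) - y ^ (-(2 * σ))| ≤ 4 * |x - y| * (y / 2) ^ (-(3 : ℝ)) := by
  have h0 : (0 : ℝ) < y / 2 := by linarith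
  have key : ∀ t ∈ Set.Ici (y / 2), HasDerivWithinAt (fun t : ℝ => t ^ (-(2 * σ)))
      (-(2 * σ) * t ^ (-(2 * σ) - 1)) (Set.Ici (y / 2)) t := by
    intro t ht
    have ht0 : t ≠ 0 := (lt_of_lt_of_le h0 ht).ne'
    exact (Real.hasDerivAt_rpow_const (Or.inl ht0)).hasDerivWithinAt
  have hb : ∀ t ∈ Set.Ici (y / 2), ‖-(2 * σ) * t ^ (-(2 * σ) - 1)‖ ≤ 4 * (y / 2) ^ (-(3 : ℝ)) := by
    intro t ht
    have ht1 : y / 2 ≤ t := ht
    have ht0 : 0 < t := lt_of_lt_of_le h0 ht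
    rw [norm_mul, Real.norm_eq_abs, Real.norm_eq_abs, abs_neg, abs_of_nonneg (by linarith : (0 : ℝ) ≤ 2 * σ),
      abs_of_nonneg (Real.rpow_nonneg ht0.le _)]
    refine mul_le_mul (by linarith) ?_ (Real.rpow_nonneg ht0.le _) (by norm_num)
    calc t ^ (-(2 * σ) - 1) ≤ (y / 2) ^ (-(2 * σ) - 1) :=
          Real.rpow_le_rpow_of_nonpos h0 ht1 (by linarith)
      _ ≤ (y / 2) ^ (-(3 : ℝ)) := Real.rpow_le_rpow_of_exponent_le (by linarith) (by linarith)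
  have := Convex.norm_image_sub_le_of_norm_hasDerivWithin_le key hb (convex_Ici (y / 2))
    (show y ∈ Set.Ici (y / 2) from (by linarith : y / 2 ≤ y)) (show x ∈ Set.Ici (y / 2) from hx)
  rw [Real.norm_eq_abs, Real.norm_eq_abs] at this
  calc |x ^ (-(2 * σ)) - y ^ (-(2 * σ))| ≤ 4 * (y / 2) ^ (-(3 : ℝ)) * |x - y| := this
    _ = _ := by ring

theorem l1_crude {x σ : ℝ} (hx : 0 ≤ x) (h1 : 1 ≤ σ) (h2 : σ ≤ 2) :
    x ^ (-(2 * σ)) ≤ x ^ (-(2 : ℝ)) + x ^ (-(4 : ℝ)) := by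
  rcases hx.eq_or_lt with h | h
  · rw [← h, Real.zero_rpow (by linarith), Real.zero_rpow (by norm_num), Real.zero_rpow (by norm_num)]
    norm_num
  · have e1 := Real.rpow_nonneg hx (-(2 : ℝ))
    have e2 := Real.rpow_nonneg hx (-(4 : ℝ))
    rcases le_total x 1 with h3 | h3
    · have := Real.rpow_le_rpow_of_exponent_ge h h3 (by linarith : -(4 : ℝ) ≤ -(2 * σ))
      linarith
    · have := Real.rpow_le_rpow_of_exponent_le h3 (by linarith : -(2 * σ) ≤ -(2 : ℝ))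
      linarith

theorem l1_norm_sq (a : Eis) : ‖emb a‖ ^ 2 = (a.re : ℝ) ^ 2 - a.re * a.im + (a.im : ℝ) ^ 2 := by
  rw [norm_emb_sq, norm_eq]
  push_cast
  ring

theorem l1_finite (R : ℝ) : {a : Eis | ‖emb a‖ < R}.Finite := by
  obtain ⟨N, hN⟩ := exists_nat_gt (2 * R ^ 2)
  have hsub : {a : Eis | ‖emb a‖ < R} ⊆
      (fun p : ℤ × ℤ => (⟨p.1, p.2⟩ : Eis)) '' (((Finset.Icc (-(N : ℤ)) N) ×ˢ (Finset.Icc (-(N : ℤ)) N) : Finset (ℤ × ℤ)) : Set (ℤ × ℤ)) := by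
    intro a ha
    refine ⟨(a.re, a.im), ?_, rfl⟩
    have ha' : ‖emb a‖ < R := ha
    have h1 : ‖emb a‖ ^ 2 < R ^ 2 := by
      have := norm_nonneg (emb a)
      nlinarith
    rw [l1_norm_sq] at h1
    have h2 : 2 * (a.re ^ 2 - a.re * a.im + a.im ^ 2) < (N : ℤ) := by
      have : 2 * ((a.re : ℝ) ^ 2 - a.re * a.im + (a.im : ℝ) ^ 2) < N := by linarith
      exact_mod_cast this
    rw [Finset.mem_coe, Finset.mem_product, Finset.mem_Icc, Finset.mem_Icc]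
    have h3 : a.re ^ 2 < (N : ℤ) := by nlinarith [sq_nonneg (a.re - 2 * a.im), sq_nonneg a.re]
    have h4 : a.im ^ 2 < (N : ℤ) := by nlinarith [sq_nonneg (a.im - 2 * a.re), sq_nonneg a.im]
    refine ⟨⟨?_, ?_⟩, ⟨?_, ?_⟩⟩ <;> nlinarith
  exact (Finset.finite_toSet _).image _ |>.subset hsub

/-- the term of the regrouped series -/
noncomputable def l1_T (C : Cub D) (σ : ℝ) (β : Eis) : ℂ :=
  ∑ r ∈ CUL.rp C.g, C.kp r * (((‖emb r + emb C.g * emb β‖ ^ (-(2 * σ)) - ‖emb C.g * emb β‖ ^ (-(2 * σ)) : ℝ)) : ℂ)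

theorem l1_kp_le (C : Cub D) (x : Eis) : ‖C.kp x‖ ≤ 1 := by
  by_cases h : IsCoprime x C.g
  · obtain ⟨i, hi⟩ := C.kp_cube x h
    rw [hi, CUL.zw_norm]
  · rw [C.kp_zero x h, norm_zero]
    exact zero_le_one

theorem l1_sum_zero (C : Cub D) : ∑ r ∈ CUL.rp C.g, C.kp r = 0 := by
  obtain ⟨x, hx, hx1⟩ := C.kp_non
  have h1 := (CUL.rp_spec C.hg).sum_mul hx C.kp C.kp_per
  have h2 : C.kp x * ∑ r ∈ CUL.rp C.g, C.kp r = ∑ r ∈ CUL.rp C.g, C.kp r := by
    rw [Finset.mul_sum, ← h1]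
    exact Finset.sum_congr rfl fun r _ => (C.kp_mul x r).symm
  have h3 : (C.kp x - 1) * ∑ r ∈ CUL.rp C.g, C.kp r = 0 := by
    linear_combination h2
  exact (mul_eq_zero.1 h3).resolve_left (sub_ne_zero.2 hx1)

/-- the regrouping of the Dirichlet series -/
theorem l1_regroup (C : Cub D) {σ : ℝ} (hσ : 1 < σ) :
    ∑' b : Eis, C.kp b * (((b.norm : ℝ) ^ (-σ) : ℝ) : ℂ) = ∑' β : Eis, l1_T C σ β := by
  have e0 : ∀ b : Eis, C.kp b * (((b.norm : ℝ) ^ (-σ) : ℝ) : ℂ) = C.kp b * ((‖emb b‖ ^ (-(2 * σ)) : ℝ) : ℂ) := by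
    intro b
    rw [← norm_emb_sq, ← Real.rpow_natCast, ← Real.rpow_mul (norm_nonneg _)]
    congr 3
    push_cast
    ring
  rw [tsum_congr e0]
  have hs : Summable fun b : Eis => C.kp b * ((‖emb b‖ ^ (-(2 * σ)) : ℝ) : ℂ) := by
    have h1 := summable_norm_shift 0 (2 * σ) (by linarith)
    refine Summable.of_norm_bounded h1 fun b => ?_
    rw [zero_add, norm_mul, Complex.norm_real, Real.norm_of_nonneg (Real.rpow_nonneg (norm_nonneg _) _)]
    exact mul_le_of_le_one_left (Real.rpow_nonneg (norm_nonneg _) _) (l1_kp_le C b)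
  have hR := CUL.rp_spec C.hg
  let e : Eis × CUL.rp C.g ≃ Eis := (Equiv.prodComm _ _).trans (Equiv.ofBijective _ (CUL.IsRep.bij C.hg hR))
  have he : ∀ p : Eis × CUL.rp C.g, e p = (p.2 : Eis) + C.g * p.1 := fun p => rfl
  rw [← e.tsum_eq]
  have hs2 := (e.summable_iff).2 hs
  have h2 := Summable.tsum_prod hs2
  simp only [Function.comp_def] at h2
  rw [h2]
  refine tsum_congr fun β => ?_
  rw [tsum_fintype]
  simp only [he]
  rw [Finset.sum_coe_sort (CUL.rp C.g) (fun r => C.kp (r + C.g * β) * ((‖emb (r + C.g * β)‖ ^ (-(2 * σ)) : ℝ) : ℂ))]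
  unfold l1_T
  have e3 : ∑ r ∈ CUL.rp C.g, C.kp r * (((‖emb r + emb C.g * emb β‖ ^ (-(2 * σ)) - ‖emb C.g * emb β‖ ^ (-(2 * σ)) : ℝ)) : ℂ) =
      ∑ r ∈ CUL.rp C.g, C.kp r * (((‖emb r + emb C.g * emb β‖ ^ (-(2 * σ)) : ℝ)) : ℂ) -
      (∑ r ∈ CUL.rp C.g, C.kp r) * ((‖emb C.g * emb β‖ ^ (-(2 * σ)) : ℝ) : ℂ) := by
    rw [Finset.sum_mul, ← Finset.sum_sub_distrib]
    refine Finset.sum_congr rfl fun r _ => ?_
    push_cast
    ring
  rw [e3, l1_sum_zero, zero_mul, sub_zero]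
  refine Finset.sum_congr rfl fun r _ => ?_
  rw [C.kp_per (r + C.g * β) r ⟨β, by ring⟩, map_add, map_mul]

/-- continuity of one term -/
theorem l1_T_cont (C : Cub D) (β : Eis) : Tendsto (fun σ : ℝ => l1_T C σ β) (𝓝[>] 1) (𝓝 (l1_T C 1 β)) := by
  have h1 : ∀ x : ℝ, 0 ≤ x → Tendsto (fun σ : ℝ => x ^ (-(2 * σ))) (𝓝[>] 1) (𝓝 (x ^ (-(2 * (1 : ℝ))))) := by
    intro x hx
    have h2 : Tendsto (fun σ : ℝ => -(2 * σ)) (𝓝[>] 1) (𝓝 (-(2 * (1 : ℝ)))) := by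
      have : Continuous fun σ : ℝ => -(2 * σ) := by fun_prop
      exact (this.tendsto 1).mono_left nhdsWithin_le_nhds
    rcases hx.eq_or_lt with h | h
    · rw [← h]
      have h3 : (0 : ℝ) ^ (-(2 * (1 : ℝ))) = 0 := Real.zero_rpow (by norm_num)
      rw [h3]
      refine tendsto_const_nhds.congr' ?_
      filter_upwards [self_mem_nhdsWithin] with σ hσ
      have : (1 : ℝ) < σ := hσ
      rw [Real.zero_rpow (by linarith)]
    · exact (Real.continuousAt_const_rpow h.ne').tendsto.comp h2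
  unfold l1_T
  refine tendsto_finsetSum _ fun r _ => Tendsto.const_mul _ ?_
  exact (Complex.continuous_ofReal.tendsto _).comp
    ((h1 _ (norm_nonneg _)).sub (h1 _ (norm_nonneg _)))

/-- a bound uniform in `σ` -/
theorem l1_bound (C : Cub D) : ∃ B : Eis → ℝ, Summable B ∧ ∀ σ : ℝ, 1 ≤ σ → σ ≤ 2 → ∀ β, ‖l1_T C σ β‖ ≤ B β := by
  have hg : 0 < ‖emb C.g‖ := norm_pos_iff.2 (CUL.l2_emb_ne C.hg)
  obtain ⟨A, hA⟩ : ∃ A : ℝ, ∀ r ∈ CUL.rp C.g, ‖emb r‖ ≤ A := by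
    refine ⟨∑ r ∈ CUL.rp C.g, ‖emb r‖, fun r hr => ?_⟩
    exact Finset.single_le_sum (f := fun r => ‖emb r‖) (fun i _ => norm_nonneg _) hr
  set R : ℝ := (2 + 2 * |A|) / ‖emb C.g‖ with hR
  have hfin := l1_finite R
  set B₁ : Eis → ℝ := fun β => ∑ r ∈ CUL.rp C.g, 4 * |A| * (‖emb C.g‖ * ‖emb β‖ / 2) ^ (-(3 : ℝ)) with hB₁
  set B₂ : Eis → ℝ := fun β => ∑ r ∈ CUL.rp C.g, (‖emb r + emb C.g * emb β‖ ^ (-(2 : ℝ)) +
      ‖emb r + emb C.g * emb β‖ ^ (-(4 : ℝ)) + ‖emb C.g * emb β‖ ^ (-(2 : ℝ)) + ‖emb C.g * emb β‖ ^ (-(4 : ℝ))) with hB₂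
  have hB₁0 : ∀ β, 0 ≤ B₁ β := fun β => Finset.sum_nonneg fun r _ => by positivity
  have hB₂0 : ∀ β, 0 ≤ B₂ β := fun β => Finset.sum_nonneg fun r _ => by positivity
  refine ⟨fun β => B₁ β + (if ‖emb β‖ < R then B₂ β else 0), ?_, ?_⟩
  · refine Summable.add ?_ ?_
    · refine summable_sum fun r _ => ?_
      have h1 := (summable_norm_shift 0 3 (by norm_num)).mul_left (4 * |A| * (‖emb C.g‖ / 2) ^ (-(3 : ℝ)))
      refine h1.congr fun β => ?_
      rw [zero_add, show ‖emb C.g‖ * ‖emb β‖ / 2 = (‖emb C.g‖ / 2) * ‖emb β‖ by ring,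
        Real.mul_rpow (by positivity) (norm_nonneg _)]
      ring
    · refine summable_of_hasFiniteSupport ?_
      refine hfin.subset fun β hβ => ?_
      by_contra h
      apply hβ
      exact if_neg h
  · intro σ h1 h2 β
    by_cases hβ : ‖emb β‖ < R
    · beta_reduce
      rw [if_pos hβ]
      have : ‖l1_T C σ β‖ ≤ B₂ β := by
        refine (norm_sum_le _ _).trans (Finset.sum_le_sum fun r _ => ?_)
        rw [norm_mul, Complex.norm_real, Real.norm_eq_abs]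
        refine (mul_le_of_le_one_left (abs_nonneg _) (l1_kp_le C r)).trans ?_
        have e1 := l1_crude (norm_nonneg (emb r + emb C.g * emb β)) h1 h2
        have e2 := l1_crude (norm_nonneg (emb C.g * emb β)) h1 h2
        have e3 := Real.rpow_nonneg (norm_nonneg (emb r + emb C.g * emb β)) (-(2 * σ))
        have e4 := Real.rpow_nonneg (norm_nonneg (emb C.g * emb β)) (-(2 * σ))
        rw [abs_le]
        constructor <;>
        linarith [Real.rpow_nonneg (norm_nonneg (emb r + emb C.g * emb β)) (-(2 : ℝ)),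
          Real.rpow_nonneg (norm_nonneg (emb r + emb C.g * emb β)) (-(4 : ℝ)),
          Real.rpow_nonneg (norm_nonneg (emb C.g * emb β)) (-(2 : ℝ)),
          Real.rpow_nonneg (norm_nonneg (emb C.g * emb β)) (-(4 : ℝ))]
      linarith [hB₁0 β]
    · beta_reduce
      rw [if_neg hβ, add_zero]
      refine (norm_sum_le _ _).trans (Finset.sum_le_sum fun r hr => ?_)
      rw [norm_mul, Complex.norm_real, Real.norm_eq_abs]
      refine (mul_le_of_le_one_left (abs_nonneg _) (l1_kp_le C r)).trans ?_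
      have hy : 2 + 2 * |A| ≤ ‖emb C.g * emb β‖ := by
        rw [norm_mul]
        have h3 : R ≤ ‖emb β‖ := not_lt.1 hβ
        rw [hR, div_le_iff₀ hg] at h3
        linarith
      have hrA : ‖emb r‖ ≤ |A| := (hA r hr).trans (le_abs_self A)
      have hx1 : |‖emb r + emb C.g * emb β‖ - ‖emb C.g * emb β‖| ≤ ‖emb r‖ := by
        have := abs_norm_sub_norm_le (emb r + emb C.g * emb β) (emb C.g * emb β)
        rwa [add_sub_cancel_right] at this
      have hx2 := abs_le.1 hx1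
      have h4 := l1_mv (x := ‖emb r + emb C.g * emb β‖) (y := ‖emb C.g * emb β‖) (σ := σ)
        (by linarith [abs_nonneg A]) (by linarith [abs_nonneg A]) h1 h2
      refine h4.trans ?_
      rw [norm_mul (emb C.g) (emb β)]
      refine mul_le_mul_of_nonneg_right ?_ (Real.rpow_nonneg (by positivity) _)
      rw [← norm_mul]
      linarith

/-- [L1] `∑_{b mod g} kp b = 0` (`kp_non`), so `∑_b kp(b) N(b)^(-σ) = ∑_β (∑_r kp(r) N(g β + r)^(-σ))` (`r` representatives modulo `g`) converges absolutely and uniformly for `σ ≥ 1`: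
`|N(gβ + r)^(-σ) - N(gβ)^(-σ)| ≤ C N(gβ)^(-σ - 1/2)` for large `β`. Dominated convergence (`tendsto_tsum_of_dominated_convergence`). There may be a library result
on the continuity of the L-series of a Hecke character in NAB or JX (`Cont`). -/
theorem exists_L1 (C : Cub D) : ∃ L : ℂ, Tendsto (LC C) (𝓝[>] 1) (𝓝 L) := by
  obtain ⟨B, hB, hb⟩ := l1_bound C
  refine ⟨(1 / 6) * ∑' β : Eis, l1_T C 1 β, ?_⟩
  have h1 : Tendsto (fun σ : ℝ => ∑' β : Eis, l1_T C σ β) (𝓝[>] 1) (𝓝 (∑' β : Eis, l1_T C 1 β)) := by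
    refine tendsto_tsum_of_dominated_convergence hB (fun β => l1_T_cont C β) ?_
    have h2 : Set.Ioo (1 : ℝ) 2 ∈ 𝓝[>] (1 : ℝ) := Ioo_mem_nhdsGT (by norm_num)
    filter_upwards [h2] with σ hσ
    exact hb σ hσ.1.le hσ.2.le
  refine (h1.const_mul (1 / 6)).congr' ?_
  filter_upwards [self_mem_nhdsWithin] with σ hσ
  rw [J2L.LC, l1_regroup C hσ]

end J2N
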