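import Pool.Agent.J2N.Z1
import Pool.Agent.J2N.K1
import Pool.Agent.J2N.K2
import Pool.Agent.J2N.L1

/-!
# [J2N-Z2]
-/

set_option autoImplicit false

open NumberField IsDedekindDomain Filter Topology
open scoped Classical ComplexConjugate

namespace J2N

open CM27 JZ
open CU (eE)
open JT (KM cD)
open J2L (Cub LC IsU)

section gen

variable {D : Eis} {M : Type} [Field M] [NumberField M] [Algebra CF.KK M]

theorem z2_card (c : Cy D M) : Nat.card (M ≃ₐ[CF.KK] M) = 3 := by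
  have h1 := c.gal
  have : FiniteDimensional CF.KK M := Module.finite_of_finrank_pos (by rw [c.deg]; norm_num)
  rw [IsGalois.card_aut_eq_finrank, c.deg]

theorem z2_cube (c : Cy D M) (x : M) : c.σ (c.σ (c.σ x)) = x := by
  have h1 : c.σ ^ 3 = 1 := by
    rw [← z2_card c]
    exact pow_card_eq_one'
  have h2 := congrArg (fun f : M ≃ₐ[CF.KK] M => f x) h1
  exact h2

theorem z2_su_cube (c : Cy D M) (x : (𝓞 M)ˣ) : c.su (c.su (c.su x)) = x := by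
  apply Units.ext
  apply RingOfIntegers.coe_injective
  exact z2_cube c _

theorem z2_om_ne : (CU.om : Eis) ≠ 1 := by decide

theorem z2_ne_one (hc : ¬ ∃ x : Eis, x ^ 3 = D) (c : Cy D M) : c.σ ≠ 1 := by
  intro h
  have h1 := c.hσ
  rw [h] at h1
  have h2 : (c.s : M) = algebraMap (𝓞 M) M (algebraMap (𝓞 CF.KK) (𝓞 M) (eE CU.om)) * (c.s : M) := h1
  have hs0 : algebraMap (𝓞 M) M c.s ≠ 0 := by
    intro h3
    have h4 : c.s = 0 := by
      apply RingOfIntegers.coe_injective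
      rw [h3, map_zero]
    have h5 := c.hs
    rw [h4] at h5
    have h6 : eE D = 0 := by
      apply FaithfulSMul.algebraMap_injective (𝓞 CF.KK) (𝓞 M)
      rw [← h5, map_zero]
      exact zero_pow (by norm_num)
    have h7 : D = 0 := eE.injective (by rw [h6, map_zero])
    exact hc ⟨0, by rw [h7]; norm_num⟩
  have h3 : algebraMap (𝓞 M) M (algebraMap (𝓞 CF.KK) (𝓞 M) (eE CU.om)) = 1 := by
    apply mul_right_cancel₀ hs0
    rw [one_mul]
    exact h2.symm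
  apply z2_om_ne
  apply eE.injective
  apply FaithfulSMul.algebraMap_injective (𝓞 CF.KK) (𝓞 M)
  apply RingOfIntegers.coe_injective
  rw [h3, map_one, map_one, map_one]

theorem z2_fixed (hc : ¬ ∃ x : Eis, x ^ 3 = D) (c : Cy D M) {x : M} (h : c.σ x = x) : ∃ k : CF.KK, algebraMap CF.KK M k = x := by
  have h1 := c.gal
  have : FiniteDimensional CF.KK M := Module.finite_of_finrank_pos (by rw [c.deg]; norm_num)
  have hp : Fact (Nat.Prime 3) := ⟨Nat.prime_three⟩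
  have h2 : x ∈ (⊥ : IntermediateField CF.KK M) := by
    rw [IsGalois.mem_bot_iff_fixed]
    intro f
    obtain ⟨n, hn⟩ := Subgroup.mem_zpowers_iff.1 (mem_zpowers_of_prime_card (z2_card c) (z2_ne_one hc c) (g' := f))
    rw [← hn]
    have h3 : c.σ ∈ MulAction.stabilizer (M ≃ₐ[CF.KK] M) x := h
    exact Subgroup.zpow_mem _ h3 n
  rw [IntermediateField.mem_bot] at h2
  exact h2

theorem z2_unit6 {a b : Eis} (h : a * b = 1) : a ^ 6 = 1 := by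
  have h1 : a.norm = 1 := (eis_isUnit_iff a).1 (IsUnit.of_mul_eq_one _ h)
  obtain ⟨x, y⟩ := a
  rw [norm_eq] at h1
  have hx : x ≤ 1 := by nlinarith [sq_nonneg (x - 2 * y), sq_nonneg (y - 2 * x)]
  have hx' : -1 ≤ x := by nlinarith [sq_nonneg (x - 2 * y), sq_nonneg (y - 2 * x)]
  have hy : y ≤ 1 := by nlinarith [sq_nonneg (x - 2 * y), sq_nonneg (y - 2 * x)]
  have hy' : -1 ≤ y := by nlinarith [sq_nonneg (x - 2 * y), sq_nonneg (y - 2 * x)]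
  interval_cases x <;> interval_cases y <;> first | (exfalso; revert h1; decide) | decide

/-- the relative norm of a unit is a root of unity -/
theorem z2_norm (hc : ¬ ∃ x : Eis, x ^ 3 = D) (c : Cy D M) (g : (𝓞 M)ˣ) :
    g * c.su g * c.su (c.su g) ∈ Units.torsion M := by
  set h := g * c.su g * c.su (c.su g) with hh
  have h1 : c.su h = h := by
    rw [hh, map_mul, map_mul, z2_su_cube]
    rw [mul_comm (c.su g * c.su (c.su g)) g, mul_assoc]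
  have key : ∀ k : (𝓞 M)ˣ, c.su k = k → ∃ a : Eis, ((k : (𝓞 M)ˣ) : 𝓞 M) = algebraMap (𝓞 CF.KK) (𝓞 M) (eE a) := by
    intro k hk
    have h2 : c.σ (algebraMap (𝓞 M) M (k : 𝓞 M)) = algebraMap (𝓞 M) M (k : 𝓞 M) := by
      have h3 := c.su_coe k
      rw [hk] at h3
      exact h3.symm
    obtain ⟨a, ha⟩ := z2_fixed hc c h2
    have hint : IsIntegral ℤ a := by
      have h4 : IsIntegral ℤ (algebraMap CF.KK M a) := by
        rw [ha]; exact RingOfIntegers.isIntegral_coe _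
      exact (isIntegral_algebraMap_iff (FaithfulSMul.algebraMap_injective CF.KK M)).1 h4
    refine ⟨eE.symm ⟨a, hint⟩, ?_⟩
    rw [RingEquiv.apply_symm_apply]
    apply RingOfIntegers.coe_injective
    exact ha.symm
  obtain ⟨a, ha⟩ := key h h1
  have h2 : c.su h⁻¹ = h⁻¹ := by rw [map_inv, h1]
  obtain ⟨b, hb⟩ := key h⁻¹ h2
  have hab : a * b = 1 := by
    apply eE.injective
    apply FaithfulSMul.algebraMap_injective (𝓞 CF.KK) (𝓞 M)
    rw [map_mul, map_mul, ← ha, ← hb, map_one, map_one]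
    exact Units.mul_inv h
  rw [Units.torsion, CommGroup.mem_torsion, isOfFinOrder_iff_pow_eq_one]
  refine ⟨6, by norm_num, ?_⟩
  apply Units.ext
  rw [Units.val_pow_eq_pow_val, ha, ← map_pow, ← map_pow, z2_unit6 hab, map_one, map_one]
  rfl

end gen

variable {D : Eis}

/-- complex values of units -/
noncomputable def z2_phi (D : Eis) : (𝓞 (KM D))ˣ →* ℂˣ :=
  Units.map (((algebraMap (KM D) ℂ).comp (algebraMap (𝓞 (KM D)) (KM D))) : 𝓞 (KM D) →* ℂ)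

theorem z2_phi_coe (x : (𝓞 (KM D))ˣ) : ((z2_phi D x : ℂˣ) : ℂ) = (((x : 𝓞 (KM D)) : KM D) : ℂ) := rfl

theorem z2_exists {v : ℂ} (h : IsU D v) : ∃ V : (𝓞 (KM D))ˣ, ((z2_phi D V : ℂˣ) : ℂ) = v := by
  obtain ⟨h1, h2, h3, h4⟩ := h
  have i1 : IsIntegral ℤ (⟨v, h1⟩ : KM D) := by
    rw [← isIntegral_algebraMap_iff (B := ℂ) (FaithfulSMul.algebraMap_injective (KM D) ℂ)]
    exact h3
  have i2 : IsIntegral ℤ (⟨v, h1⟩⁻¹ : KM D) := by
    rw [← isIntegral_algebraMap_iff (B := ℂ) (FaithfulSMul.algebraMap_injective (KM D) ℂ)]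
    exact h4
  have hne : (⟨v, h1⟩ : KM D) ≠ 0 := by
    intro h5
    exact h2 (congrArg Subtype.val h5)
  refine ⟨⟨⟨⟨v, h1⟩, i1⟩, ⟨⟨v, h1⟩⁻¹, i2⟩, ?_, ?_⟩, rfl⟩
  · apply RingOfIntegers.coe_injective
    exact mul_inv_cancel₀ hne
  · apply RingOfIntegers.coe_injective
    exact inv_mul_cancel₀ hne

theorem z2_isU (V : (𝓞 (KM D))ˣ) : IsU D ((z2_phi D V : ℂˣ) : ℂ) := by
  refine ⟨((V : 𝓞 (KM D)) : KM D).2, Units.ne_zero _, ?_, ?_⟩
  · have h : IsIntegral ℤ ((V : 𝓞 (KM D)) : KM D) := RingOfIntegers.isIntegral_coe _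
    exact h.map (algebraMap (KM D) ℂ).toIntAlgHom
  · rw [← Units.val_inv_eq_inv_val, ← map_inv]
    have h : IsIntegral ℤ ((V⁻¹ : (𝓞 (KM D))ˣ) : KM D) := RingOfIntegers.isIntegral_coe _
    exact h.map (algebraMap (KM D) ℂ).toIntAlgHom

theorem z2_tor (hc : ¬ ∃ x : Eis, x ^ 3 = D) {z : (𝓞 (KM D))ˣ} (hz : z ∈ Units.torsion (KM D)) :
    ∃ m : ℕ, Odd m ∧ ((z2_phi D z : ℂˣ) : ℂ) ^ (2 * m) = 1 := by
  obtain ⟨m, hm, h⟩ := torsion_KM hc
  refine ⟨m, hm, ?_⟩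
  have h1 : z ^ (2 * m) = 1 := by
    rw [← h]
    rw [← Units.rootsOfUnity_eq_torsion, mem_rootsOfUnity] at hz
    exact hz
  rw [← Units.val_pow_eq_pow_val, ← map_pow, h1, map_one, Units.val_one]

/-- [Z2] THE RESULT. -/
theorem main (hc : ¬ ∃ x : Eis, x ^ 3 = D) (C : Cub D) {u₀ u₁ u₂ : ℂ} (h0 : u₀ ∈ CF.KK) (h1 : u₁ ∈ CF.KK) (h2 : u₂ ∈ CF.KK)
    (hU : IsU D (u₀ + u₁ * cD D + u₂ * cD D ^ 2)) {L : ℂ} (hL : Tendsto (LC C) (𝓝[>] 1) (𝓝 L)) {A : ℕ} (hA : Odd A)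
    (hK : 16 * Real.pi ^ 2 * (Real.log ‖u₀ + u₁ * cD D + u₂ * cD D ^ 2‖ ^ 2 +
        Real.log ‖u₀ + u₁ * cD D + u₂ * cD D ^ 2‖ * Real.log ‖u₀ + u₁ * (w * cD D) + u₂ * (w * cD D) ^ 2‖ +
        Real.log ‖u₀ + u₁ * (w * cD D) + u₂ * (w * cD D) ^ 2‖ ^ 2) = A * (C.g.norm : ℝ) * ‖L‖ ^ 2) :
    (Odd (classNumber (KM D)) → ∀ v : ℂ, IsU D v → ∃ (n m : ℕ) (a b : ℤ) (z : ℂ), Odd n ∧ Odd m ∧ z ^ (2 * m) = 1 ∧
      v ^ n = z * (u₀ + u₁ * cD D + u₂ * cD D ^ 2) ^ a * (u₀ + u₁ * (w * cD D) + u₂ * (w * cD D) ^ 2) ^ b) ∧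
    (¬ Odd (classNumber (KM D)) → ∃ (y z : ℂ) (m : ℕ), IsU D y ∧ Odd m ∧ z ^ (2 * m) = 1 ∧
      u₀ + u₁ * cD D + u₂ * cD D ^ 2 = z * y ^ 2) := by
  obtain ⟨c, -, hc2⟩ := exists_Cy hc
  obtain ⟨U, hUv⟩ := z2_exists hU
  have hs := hc2 u₀ u₁ u₂ h0 h1 h2 ((U : 𝓞 (KM D)) : KM D) hUv
  have hs' : ((z2_phi D (c.su U) : ℂˣ) : ℂ) = u₀ + u₁ * (w * cD D) + u₂ * (w * cD D) ^ 2 := by
    rw [← hs]
    rfl
  have l0 : lg c 0 ((U : 𝓞 (KM D)) : KM D) = Real.log ‖u₀ + u₁ * cD D + u₂ * cD D ^ 2‖ := by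
    rw [← hUv]
    rfl
  have l1 : lg c 1 ((U : 𝓞 (KM D)) : KM D) = Real.log ‖u₀ + u₁ * (w * cD D) + u₂ * (w * cD D) ^ 2‖ := by
    rw [← hs]
    unfold lg
    rw [pow_one]
  obtain ⟨hi0, hi⟩ := index_two hc C c U hL hA (by rw [l0, l1]; exact hK)
  constructor
  · intro hodd v hv
    obtain ⟨V, hV⟩ := z2_exists hv
    obtain ⟨n, hn, a, b, z, hz, hV2⟩ := idx_odd (Units.torsion (KM D)) U (c.su U) (hi.2 hodd) V
    obtain ⟨m, hm, hzm⟩ := z2_tor hc hz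
    refine ⟨n, m, a, b, ((z2_phi D z : ℂˣ) : ℂ), hn, hm, hzm, ?_⟩
    rw [← hV, ← hUv, ← hs', ← Units.val_pow_eq_pow_val, ← Units.val_zpow_eq_zpow_val, ← Units.val_zpow_eq_zpow_val,
      ← Units.val_mul, ← Units.val_mul, ← map_pow, ← map_zpow, ← map_zpow, ← map_mul, ← map_mul, hV2]
  · intro hno
    have heven : Even (Subgroup.closure {U, c.su U} ⊔ Units.torsion (KM D)).index := by
      rw [← Nat.not_odd_iff_even]
      exact fun h => hno (hi.1 h)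
    have hT : ∀ t ∈ Units.torsion (KM D), c.su t ∈ Units.torsion (KM D) := by
      intro t ht
      rw [Units.torsion, CommGroup.mem_torsion] at ht ⊢
      exact MonoidHom.isOfFinOrder (c.su : (𝓞 (KM D))ˣ →* (𝓞 (KM D))ˣ) ht
    have hsq : ∀ g : (𝓞 (KM D))ˣ, g ^ 2 ∈ Units.torsion (KM D) → g ∈ Units.torsion (KM D) := by
      intro g hg
      rw [Units.torsion, CommGroup.mem_torsion, isOfFinOrder_iff_pow_eq_one] at hg ⊢
      obtain ⟨n, hn, hn2⟩ := hg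
      exact ⟨2 * n, by omega, by rw [pow_mul, hn2]⟩
    obtain ⟨z, y, hz, hzy⟩ := idx_even (Units.torsion (KM D)) c.su (z2_su_cube c) hT (z2_norm hc c) hsq U hi0 heven
    obtain ⟨m, hm, hzm⟩ := z2_tor hc hz
    refine ⟨((z2_phi D y : ℂˣ) : ℂ), ((z2_phi D z : ℂˣ) : ℂ), m, z2_isU y, hm, hzm, ?_⟩
    rw [← hUv, hzy, map_mul, map_pow, Units.val_mul, Units.val_pow_eq_pow_val]

end J2N
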