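import Pool.Agent.J2L.Defs
import Pool.Agent.JL.N4

/-!
# [J2N-A] the cubic extension `ℚ(ω, ∛D) / ℚ(ω)`: definitions

The class number block of J2 (BSD modulo `2`). Everything here is generic: `M` is a number field over `KK = ℚ(ω)`, cyclic of degree `3`, generated by
`s`, `s³ = D`. `DSplit`, `DRam`, `DInert`: the three ways in which a prime `v` of `KK` decomposes in `M`.
-/

set_option autoImplicit false

open NumberField IsDedekindDomain
open scoped Classical ComplexConjugate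

namespace J2N

open CM27 JZ
open CU (eE)
open JT (KM cD)

theorem w_mem_KM (D : Eis) : w ∈ KM D := by
  unfold KM
  exact IntermediateField.subset_adjoin ℚ _ (by simp)

theorem cD_mem_KM (D : Eis) : cD D ∈ KM D := by
  unfold KM
  exact IntermediateField.subset_adjoin ℚ _ (by simp)

/-- `ℚ(ω) ⊆ ℚ(ω, ∛D)` -/
noncomputable instance algKM (D : Eis) : Algebra CF.KK (KM D) := CF.algK (KM D) (w_mem_KM D)

/-- `M / ℚ(ω)` is cyclic of degree `3`, generated by `s`, `s³ = D`, `σ s = ω s`. -/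
structure Cy (D : Eis) (M : Type) [Field M] [NumberField M] [Algebra CF.KK M] where
  s : 𝓞 M
  hs : s ^ 3 = algebraMap (𝓞 CF.KK) (𝓞 M) (eE D)
  deg : Module.finrank CF.KK M = 3
  gal : IsGalois CF.KK M
  σ : M ≃ₐ[CF.KK] M
  hσ : σ (s : M) = algebraMap (𝓞 CF.KK) (𝓞 M) (eE CU.om) * (s : M)

section
variable {D : Eis} {M : Type} [Field M] [NumberField M] [Algebra CF.KK M]

/-- `σ` on the integers -/
noncomputable def Cy.so (c : Cy D M) : 𝓞 M ≃+* 𝓞 M := RingOfIntegers.mapRingEquiv (c.σ : M ≃+* M)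

/-- `σ` on the units -/
noncomputable def Cy.su (c : Cy D M) : (𝓞 M)ˣ ≃* (𝓞 M)ˣ := Units.mapEquiv (c.so : 𝓞 M ≃* 𝓞 M)

theorem Cy.so_coe (c : Cy D M) (x : 𝓞 M) : ((c.so x : 𝓞 M) : M) = c.σ (x : M) := rfl

theorem Cy.su_coe (c : Cy D M) (x : (𝓞 M)ˣ) : (((c.su x : (𝓞 M)ˣ) : 𝓞 M) : M) = c.σ ((x : 𝓞 M) : M) := rfl

end

/-- `R` lies over `v` -/
def Ov {M : Type} [Field M] [NumberField M] [Algebra CF.KK M] (v : HeightOneSpectrum (𝓞 CF.KK))
    (R : HeightOneSpectrum (𝓞 M)) : Prop := R.asIdeal.comap (algebraMap (𝓞 CF.KK) (𝓞 M)) = v.asIdeal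

/-- three primes of degree one -/
def DSplit (M : Type) [Field M] [NumberField M] [Algebra CF.KK M] (v : HeightOneSpectrum (𝓞 CF.KK)) : Prop :=
  ∃ P Q T : HeightOneSpectrum (𝓞 M), P ≠ Q ∧ P ≠ T ∧ Q ≠ T ∧ (∀ R, Ov v R ↔ R = P ∨ R = Q ∨ R = T) ∧
    Ideal.absNorm P.asIdeal = Ideal.absNorm v.asIdeal ∧ Ideal.absNorm Q.asIdeal = Ideal.absNorm v.asIdeal ∧
    Ideal.absNorm T.asIdeal = Ideal.absNorm v.asIdeal

/-- one prime of degree one, `v = P³` -/
def DRam (M : Type) [Field M] [NumberField M] [Algebra CF.KK M] (v : HeightOneSpectrum (𝓞 CF.KK)) : Prop :=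
  ∃ P : HeightOneSpectrum (𝓞 M), (∀ R, Ov v R ↔ R = P) ∧ Ideal.absNorm P.asIdeal = Ideal.absNorm v.asIdeal ∧
    Ideal.map (algebraMap (𝓞 CF.KK) (𝓞 M)) v.asIdeal = P.asIdeal ^ 3

/-- one prime of degree three -/
def DInert (M : Type) [Field M] [NumberField M] [Algebra CF.KK M] (v : HeightOneSpectrum (𝓞 CF.KK)) : Prop :=
  ∃ P : HeightOneSpectrum (𝓞 M), (∀ R, Ov v R ↔ R = P) ∧ Ideal.absNorm P.asIdeal = Ideal.absNorm v.asIdeal ^ 3

end J2N
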