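import Pool.Agent.J2N.A

/-!
# [J2N-B1]
-/

set_option autoImplicit false

open NumberField IsDedekindDomain
open scoped Classical ComplexConjugate

namespace J2N

open CM27 JZ
open CU (eE)
open JT (KM cD)

variable {D : Eis}

theorem b1_int_emb (a : Eis) : IsIntegral ℤ (emb a) := JL.isIntegral_emb a

theorem b1_int_cD (D : Eis) : IsIntegral ℤ (cD D) := JT.isIntegral_cD D

theorem b1_no_root (hc : ¬ ∃ x : Eis, x ^ 3 = D) {z : ℂ} (hz : z ∈ CF.KK) (h : z ^ 3 = emb D) :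
    False := by
  have h1 : IsIntegral ℤ z := by
    refine IsIntegral.of_pow (n := 3) (by norm_num) ?_
    rw [h]
    exact b1_int_emb D
  obtain ⟨a, rfl⟩ := JL.KK_int hz h1
  refine hc ⟨a, ?_⟩
  apply emb_injective
  rw [map_pow, h]

/-- [B1] `cD D ^ 3 = emb D ∈ CF.KK` (`JT.cD_cube`), so the right side is a subfield (it is `CF.KK[s]`, integral over a field) containing `w`, `cD D`. -/
theorem mem_KM (z : ℂ) : z ∈ KM D ↔ ∃ u₀ u₁ u₂ : ℂ, u₀ ∈ CF.KK ∧ u₁ ∈ CF.KK ∧ u₂ ∈ CF.KK ∧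
    z = u₀ + u₁ * cD D + u₂ * cD D ^ 2 := by
  constructor
  · intro hz
    have halg : ∀ x ∈ ({w, cD D} : Set ℂ), IsAlgebraic ℚ x := by
      intro x hx
      rcases hx with rfl | hx
      · exact (JL.isIntegral_w.tower_top (A := ℚ)).isAlgebraic
      · rw [Set.mem_singleton_iff] at hx
        rw [hx]; exact ((b1_int_cD D).tower_top (A := ℚ)).isAlgebraic
    have h1 : z ∈ (IntermediateField.adjoin ℚ {w, cD D}).toSubalgebra := hz
    rw [IntermediateField.adjoin_toSubalgebra_of_isAlgebraic halg] at h1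
    refine Algebra.adjoin_induction (p := fun z _ => ∃ u₀ u₁ u₂ : ℂ, u₀ ∈ CF.KK ∧ u₁ ∈ CF.KK ∧
      u₂ ∈ CF.KK ∧ z = u₀ + u₁ * cD D + u₂ * cD D ^ 2) ?_ ?_ ?_ ?_ h1
    · intro x hx
      rcases hx with rfl | hx
      · exact ⟨w, 0, 0, CF.d2_w_mem, zero_mem _, zero_mem _, by ring⟩
      · rw [Set.mem_singleton_iff] at hx
        exact ⟨0, 1, 0, zero_mem _, one_mem _, zero_mem _, by rw [hx]; ring⟩
    · intro r
      exact ⟨algebraMap ℚ ℂ r, 0, 0, CF.KK.algebraMap_mem r, zero_mem _, zero_mem _, by ring⟩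
    · rintro a b - - ⟨x, y, t, hx, hy, ht, rfl⟩ ⟨x', y', t', hx', hy', ht', rfl⟩
      exact ⟨x + x', y + y', t + t', add_mem hx hx', add_mem hy hy', add_mem ht ht', by ring⟩
    · rintro a b - - ⟨x, y, t, hx, hy, ht, rfl⟩ ⟨x', y', t', hx', hy', ht', rfl⟩
      have hd := JL.F0_emb_mem D
      refine ⟨x * x' + (y * t' + t * y') * emb D, x * y' + y * x' + t * t' * emb D,
        x * t' + y * y' + t * x', ?_, ?_, ?_, ?_⟩
      · exact add_mem (mul_mem hx hx') (mul_mem (add_mem (mul_mem hy ht') (mul_mem ht hy')) hd)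
      · exact add_mem (add_mem (mul_mem hx hy') (mul_mem hy hx')) (mul_mem (mul_mem ht ht') hd)
      · exact add_mem (add_mem (mul_mem hx ht') (mul_mem hy hy')) (mul_mem ht hx')
      · linear_combination (y * t' + t * y' + t * t' * cD D) * JT.cD_cube D
  · rintro ⟨u₀, u₁, u₂, h0, h1, h2, rfl⟩
    have hle : CF.KK ≤ KM D := by
      unfold CF.KK KM
      exact IntermediateField.adjoin.mono ℚ _ _ (Set.singleton_subset_iff.mpr (Set.mem_insert _ _))
    have hs : cD D ∈ KM D := cD_mem_KM D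
    exact add_mem (add_mem (hle h0) (mul_mem (hle h1) hs)) (mul_mem (hle h2) (pow_mem hs 2))

/-- [B2] `X³ - D` is irreducible over `KK` (no root: a root `z` is integral, so `z = emb a`, `a³ = D`). -/
theorem rep_unique (hc : ¬ ∃ x : Eis, x ^ 3 = D) {u₀ u₁ u₂ : ℂ} (h0 : u₀ ∈ CF.KK) (h1 : u₁ ∈ CF.KK) (h2 : u₂ ∈ CF.KK)
    (h : u₀ + u₁ * cD D + u₂ * cD D ^ 2 = 0) : u₀ = 0 ∧ u₁ = 0 ∧ u₂ = 0 := by
  have hs3 := JT.cD_cube D
  have e1 : (u₀ * u₂ - u₁ ^ 2) * cD D + (u₂ ^ 2 * emb D - u₀ * u₁) = 0 := by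
    linear_combination (u₂ * cD D - u₁) * h - u₂ ^ 2 * hs3
  have e2 : u₀ * u₂ - u₁ ^ 2 = 0 := by
    by_contra hne
    refine b1_no_root hc (z := cD D) ?_ hs3
    have h5 : cD D = (u₀ * u₁ - u₂ ^ 2 * emb D) / (u₀ * u₂ - u₁ ^ 2) := by
      rw [eq_div_iff hne]
      linear_combination e1
    rw [h5]
    exact div_mem (sub_mem (mul_mem h0 h1) (mul_mem (pow_mem h2 2) (JL.F0_emb_mem D)))
      (sub_mem (mul_mem h0 h2) (pow_mem h1 2))
  have e3 : u₂ ^ 2 * emb D - u₀ * u₁ = 0 := by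
    rw [e2, zero_mul, zero_add] at e1
    exact e1
  have e4 : u₁ ^ 3 = u₂ ^ 3 * emb D := by
    linear_combination (-u₁) * e2 - u₂ * e3
  have e5 : u₂ = 0 := by
    by_contra hne
    refine b1_no_root hc (z := u₁ / u₂) (div_mem h1 h2) ?_
    rw [div_pow, e4, mul_comm, mul_div_assoc, div_self (pow_ne_zero 3 hne), mul_one]
  have e6 : u₁ = 0 := by
    rw [e5] at e4
    have : u₁ ^ 3 = 0 := by rw [e4]; ring
    exact pow_eq_zero_iff (by norm_num) |>.mp this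
  refine ⟨?_, e6, e5⟩
  rw [e5, e6] at h
  linear_combination h

end J2N
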