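import Pool.Agent.J2N.B1

/-!
# [J2N-B3]
-/

set_option autoImplicit false

open NumberField IsDedekindDomain
open scoped Classical ComplexConjugate

namespace J2N

open CM27 JZ
open CU (eE)
open JT (KM cD)

variable {D : Eis}

theorem b3_coe (D : Eis) (x : CF.KK) : ((algebraMap CF.KK (KM D) x : KM D) : ℂ) = (x : ℂ) := by
  have h : algebraMap CF.KK (KM D) x = IntermediateField.inclusion (CF.KK_le (KM D) (w_mem_KM D)) x := by
    with_reducible_and_instances rfl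
  rw [h]
  exact IntermediateField.coe_inclusion _ x

theorem b3_coe' (D : Eis) (a : 𝓞 CF.KK) :
    (((algebraMap (𝓞 CF.KK) (𝓞 (KM D)) a : 𝓞 (KM D)) : KM D) : ℂ) = ((a : CF.KK) : ℂ) :=
  b3_coe D (a : CF.KK)

theorem b3_ext {D : Eis} {x y : 𝓞 (KM D)} (h : ((x : KM D) : ℂ) = ((y : KM D) : ℂ)) : x = y :=
  RingOfIntegers.ext (Subtype.ext h)

theorem b3_int (D : Eis) : IsIntegral ℤ (⟨cD D, cD_mem_KM D⟩ : KM D) := by
  have h := JT.isIntegral_cD D
  have h1 : cD D = algebraMap (KM D) ℂ ⟨cD D, cD_mem_KM D⟩ := rfl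
  rw [h1] at h
  exact (isIntegral_algebraMap_iff (algebraMap (KM D) ℂ).injective).1 h

/-- the value of a triple -/
noncomputable def b3_E (u : CF.KK × CF.KK × CF.KK) (z : ℂ) : ℂ := (u.1 : ℂ) + (u.2.1 : ℂ) * z + (u.2.2 : ℂ) * z ^ 2

theorem b3_mem (u : CF.KK × CF.KK × CF.KK) : b3_E u (cD D) ∈ KM D :=
  (mem_KM _).2 ⟨_, _, _, u.1.2, u.2.1.2, u.2.2.2, rfl⟩

theorem b3_mem' (u : CF.KK × CF.KK × CF.KK) : b3_E u (w * cD D) ∈ KM D := by
  refine (mem_KM _).2 ⟨u.1, u.2.1 * w, u.2.2 * w ^ 2, u.1.2, mul_mem u.2.1.2 CF.d2_w_mem,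
    mul_mem u.2.2.2 (pow_mem CF.d2_w_mem 2), ?_⟩
  unfold b3_E
  ring

theorem b3_rep (x : KM D) : ∃ u : CF.KK × CF.KK × CF.KK, (x : ℂ) = b3_E u (cD D) := by
  obtain ⟨u₀, u₁, u₂, h0, h1, h2, h⟩ := (mem_KM (x : ℂ)).1 x.2
  exact ⟨(⟨u₀, h0⟩, ⟨u₁, h1⟩, ⟨u₂, h2⟩), h⟩

theorem b3_uniq (hc : ¬ ∃ x : Eis, x ^ 3 = D) {u v : CF.KK × CF.KK × CF.KK} (h : b3_E u (cD D) = b3_E v (cD D)) : u = v := by
  unfold b3_E at h
  obtain ⟨h0, h1, h2⟩ := rep_unique hc (sub_mem u.1.2 v.1.2) (sub_mem u.2.1.2 v.2.1.2) (sub_mem u.2.2.2 v.2.2.2)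
    (by linear_combination h)
  exact Prod.ext (Subtype.ext (sub_eq_zero.1 h0)) (Prod.ext (Subtype.ext (sub_eq_zero.1 h1)) (Subtype.ext (sub_eq_zero.1 h2)))

theorem b3_w3 : w ^ 3 = 1 := by
  have h := w_sq
  calc w ^ 3 = w * w * w := by ring
    _ = (-1 - w) * w := by rw [h]
    _ = -w - w * w := by ring
    _ = 1 := by rw [h]; ring

theorem b3_w1 : w ≠ 1 := by
  intro h
  have := congrArg Complex.re h
  rw [w_re, Complex.one_re] at this
  norm_num at this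

/-- the product of triples -/
noncomputable def b3_mul (D : Eis) (u v : CF.KK × CF.KK × CF.KK) : CF.KK × CF.KK × CF.KK :=
  (u.1 * v.1 + ⟨emb D, CF.d2_emb_mem D⟩ * (u.2.1 * v.2.2 + u.2.2 * v.2.1),
    u.1 * v.2.1 + u.2.1 * v.1 + ⟨emb D, CF.d2_emb_mem D⟩ * (u.2.2 * v.2.2),
    u.1 * v.2.2 + u.2.1 * v.2.1 + u.2.2 * v.1)

theorem b3_E_mul (D : Eis) (u v : CF.KK × CF.KK × CF.KK) {z : ℂ} (hz : z ^ 3 = emb D) :
    b3_E (b3_mul D u v) z = b3_E u z * b3_E v z := by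
  simp only [b3_E, b3_mul, IntermediateField.coe_add, IntermediateField.coe_mul]
  rw [← hz]
  ring

theorem b3_E_add (u v : CF.KK × CF.KK × CF.KK) (z : ℂ) : b3_E (u + v) z = b3_E u z + b3_E v z := by
  simp only [b3_E, Prod.fst_add, Prod.snd_add, IntermediateField.coe_add]
  ring

theorem b3_E_const (a : CF.KK) (z : ℂ) : b3_E (a, 0, 0) z = a := by
  simp only [b3_E, IntermediateField.coe_zero]
  ring

theorem b3_finrank (hc : ¬ ∃ x : Eis, x ^ 3 = D) : Module.finrank CF.KK (KM D) = 3 := by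
  let t : KM D := ⟨cD D, cD_mem_KM D⟩
  let f : (CF.KK × CF.KK × CF.KK) →ₗ[CF.KK] KM D :=
    (LinearMap.fst CF.KK CF.KK (CF.KK × CF.KK)).smulRight (1 : KM D) +
      ((LinearMap.fst CF.KK CF.KK CF.KK).comp (LinearMap.snd CF.KK CF.KK (CF.KK × CF.KK))).smulRight t +
      ((LinearMap.snd CF.KK CF.KK CF.KK).comp (LinearMap.snd CF.KK CF.KK (CF.KK × CF.KK))).smulRight (t ^ 2)
  have hf : ∀ u : CF.KK × CF.KK × CF.KK, ((f u : KM D) : ℂ) = b3_E u (cD D) := by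
    intro u
    have h1 : f u = algebraMap CF.KK (KM D) u.1 + algebraMap CF.KK (KM D) u.2.1 * t + algebraMap CF.KK (KM D) u.2.2 * t ^ 2 := by
      simp [f, Algebra.smul_def]
    rw [h1]
    simp only [IntermediateField.coe_add, IntermediateField.coe_mul, b3_coe, b3_E]
    rfl
  have hbij : Function.Bijective f := by
    constructor
    · intro u v huv
      exact b3_uniq hc (by rw [← hf, ← hf, huv])
    · intro x
      obtain ⟨u, hu⟩ := b3_rep x
      exact ⟨u, Subtype.ext (by rw [hf, hu])⟩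
  have e' := LinearEquiv.finrank_eq (LinearEquiv.ofBijective f hbij)
  rw [← e', Module.finrank_prod, Module.finrank_prod, Module.finrank_self]

/-- the homomorphism -/
theorem b3_hom (hc : ¬ ∃ x : Eis, x ^ 3 = D) : ∃ f : KM D →ₐ[CF.KK] KM D,
    ∀ (x : KM D) (u : CF.KK × CF.KK × CF.KK), (x : ℂ) = b3_E u (cD D) → ((f x : KM D) : ℂ) = b3_E u (w * cD D) := by
  obtain ⟨U, hU⟩ : ∃ U : KM D → CF.KK × CF.KK × CF.KK, ∀ x : KM D, (x : ℂ) = b3_E (U x) (cD D) :=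
    ⟨fun x => (b3_rep x).choose, fun x => (b3_rep x).choose_spec⟩
  have hUu : ∀ (x : KM D) (u : CF.KK × CF.KK × CF.KK), (x : ℂ) = b3_E u (cD D) → U x = u := fun x u h =>
    b3_uniq hc (by rw [← hU, h])
  have hc3 : (cD D) ^ 3 = emb D := JT.cD_cube D
  have hwc3 : (w * cD D) ^ 3 = emb D := by rw [mul_pow, b3_w3, one_mul, hc3]
  obtain ⟨g, hgU⟩ : ∃ g : KM D → KM D, ∀ x, ((g x : KM D) : ℂ) = b3_E (U x) (w * cD D) :=
    ⟨fun x => ⟨b3_E (U x) (w * cD D), b3_mem' (U x)⟩, fun x => rfl⟩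
  have hg : ∀ (x : KM D) (u : CF.KK × CF.KK × CF.KK), (x : ℂ) = b3_E u (cD D) → ((g x : KM D) : ℂ) = b3_E u (w * cD D) := by
    intro x u h
    rw [hgU, hUu x u h]
  have hone : ((1 : KM D) : ℂ) = b3_E (1, 0, 0) (cD D) := by
    rw [b3_E_const, IntermediateField.coe_one, IntermediateField.coe_one]
  have hzero : ((0 : KM D) : ℂ) = b3_E (0, 0, 0) (cD D) := by
    rw [b3_E_const, IntermediateField.coe_zero, IntermediateField.coe_zero]
  have h1' : g 1 = 1 := by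
    apply Subtype.ext
    rw [hg 1 _ hone, b3_E_const, IntermediateField.coe_one, IntermediateField.coe_one]
  have h0' : g 0 = 0 := by
    apply Subtype.ext
    rw [hg 0 _ hzero, b3_E_const, IntermediateField.coe_zero, IntermediateField.coe_zero]
  have hmul : ∀ x y, g (x * y) = g x * g y := by
    intro x y
    apply Subtype.ext
    have h1 : ((x * y : KM D) : ℂ) = b3_E (b3_mul D (U x) (U y)) (cD D) := by
      rw [b3_E_mul D _ _ hc3, ← hU, ← hU, IntermediateField.coe_mul]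
    rw [hg _ _ h1, b3_E_mul D _ _ hwc3, IntermediateField.coe_mul, hgU, hgU]
  have hadd : ∀ x y, g (x + y) = g x + g y := by
    intro x y
    apply Subtype.ext
    have h1 : ((x + y : KM D) : ℂ) = b3_E (U x + U y) (cD D) := by
      rw [b3_E_add, ← hU, ← hU, IntermediateField.coe_add]
    rw [hg _ _ h1, b3_E_add, IntermediateField.coe_add, hgU, hgU]
  have hcomm : ∀ r : CF.KK, g (algebraMap CF.KK (KM D) r) = algebraMap CF.KK (KM D) r := by
    intro r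
    apply Subtype.ext
    have h1 : ((algebraMap CF.KK (KM D) r : KM D) : ℂ) = b3_E (r, 0, 0) (cD D) := by
      rw [b3_E_const, b3_coe]
    rw [hg _ _ h1, b3_E_const, b3_coe]
  exact ⟨
    { toFun := g
      map_one' := h1'
      map_mul' := hmul
      map_zero' := h0'
      map_add' := hadd
      commutes' := hcomm }, hg⟩

/-- [B3] the automorphism; `IsGalois`: degree `3` and three automorphisms (or splitting field of `X³ - D`, `IsGalois.of_separable_splitting_field`, or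
`isGalois_of_isSplittingField_X_pow_sub_C`). -/
theorem exists_Cy (hc : ¬ ∃ x : Eis, x ^ 3 = D) : ∃ c : Cy D (KM D), ((c.s : KM D) : ℂ) = cD D ∧
    ∀ u₀ u₁ u₂ : ℂ, u₀ ∈ CF.KK → u₁ ∈ CF.KK → u₂ ∈ CF.KK → ∀ x : KM D, (x : ℂ) = u₀ + u₁ * cD D + u₂ * cD D ^ 2 →
      ((c.σ x : KM D) : ℂ) = u₀ + u₁ * (w * cD D) + u₂ * (w * cD D) ^ 2 := by
  have hfr := b3_finrank hc
  have hfd : FiniteDimensional CF.KK (KM D) := Module.finite_of_finrank_pos (by rw [hfr]; norm_num)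
  obtain ⟨f, hf⟩ := b3_hom hc
  let σ : KM D ≃ₐ[CF.KK] KM D := AlgEquiv.ofBijective f (AlgHom.bijective f)
  have hσ : ∀ (x : KM D) (u : CF.KK × CF.KK × CF.KK), (x : ℂ) = b3_E u (cD D) →
      ((σ x : KM D) : ℂ) = b3_E u (w * cD D) := hf
  have hcD0 : cD D ≠ 0 := by
    intro h0
    have h1 := JT.cD_cube D
    rw [h0] at h1
    refine hc ⟨0, emb_injective ?_⟩
    rw [map_pow, map_zero, ← h1]
  have hgal : IsGalois CF.KK (KM D) := by
    apply IsGalois.of_fixedField_eq_bot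
    rw [eq_bot_iff]
    intro x hx
    rw [IntermediateField.mem_fixedField_iff] at hx
    obtain ⟨u, hu⟩ := b3_rep x
    have h1 : b3_E u (w * cD D) = b3_E u (cD D) := by
      rw [← hσ x u hu, hx σ (Subgroup.mem_top σ), hu]
    have h2 : b3_E (u.1, u.2.1 * ⟨w, CF.d2_w_mem⟩, u.2.2 * ⟨w, CF.d2_w_mem⟩ ^ 2) (cD D) = b3_E u (cD D) := by
      rw [← h1]
      simp only [b3_E, IntermediateField.coe_mul, IntermediateField.coe_pow]
      ring
    have h3 := b3_uniq hc h2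
    have h4 : (u.2.1 : ℂ) * w = u.2.1 := congrArg (fun q : CF.KK × CF.KK × CF.KK => ((q.2.1 : CF.KK) : ℂ)) h3
    have h5 : (u.2.2 : ℂ) * w ^ 2 = u.2.2 := congrArg (fun q : CF.KK × CF.KK × CF.KK => ((q.2.2 : CF.KK) : ℂ)) h3
    have h6 : (u.2.1 : ℂ) = 0 := by
      have h7 : (u.2.1 : ℂ) * (w - 1) = 0 := by linear_combination h4
      exact (mul_eq_zero.1 h7).resolve_right (sub_ne_zero.2 b3_w1)
    have h8 : (u.2.2 : ℂ) = 0 := by
      have h7 : (u.2.2 : ℂ) * (w ^ 2 - 1) = 0 := by linear_combination h5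
      refine (mul_eq_zero.1 h7).resolve_right (sub_ne_zero.2 fun h9 => b3_w1 ?_)
      linear_combination b3_w3 - w * h9
    rw [IntermediateField.mem_bot]
    refine ⟨u.1, Subtype.ext ?_⟩
    rw [b3_coe, hu]
    unfold b3_E
    rw [h6, h8]
    ring
  let s : 𝓞 (KM D) := ⟨⟨cD D, cD_mem_KM D⟩, b3_int D⟩
  have hsc : ((s : KM D) : ℂ) = cD D := rfl
  have hsE : ((s : KM D) : ℂ) = b3_E (0, 1, 0) (cD D) := by
    rw [hsc]
    simp only [b3_E, IntermediateField.coe_zero, IntermediateField.coe_one]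
    ring
  refine ⟨⟨s, ?_, hfr, hgal, σ, ?_⟩, hsc, ?_⟩
  · apply b3_ext
    rw [b3_coe', CU.eE_coe]
    show (cD D) ^ 3 = emb D
    exact JT.cD_cube D
  · apply Subtype.ext
    rw [hσ _ _ hsE]
    have h1 : (((algebraMap (𝓞 CF.KK) (𝓞 (KM D)) (eE CU.om) : 𝓞 (KM D)) : KM D) : ℂ) = w := by
      rw [b3_coe', CU.eE_coe, emb_apply]
      simp [CU.om]
    show _ = (((algebraMap (𝓞 CF.KK) (𝓞 (KM D)) (eE CU.om) : 𝓞 (KM D)) : KM D) : ℂ) * cD D
    rw [h1]
    simp only [b3_E, IntermediateField.coe_zero, IntermediateField.coe_one]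
    ring
  · intro u₀ u₁ u₂ h0 h1 h2 x hx
    exact hσ x (⟨u₀, h0⟩, ⟨u₁, h1⟩, ⟨u₂, h2⟩) hx

end J2N
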