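import Pool.Agent.J2N.B3

/-!
# [J2N-B4]
-/

set_option autoImplicit false

open NumberField IsDedekindDomain
open scoped Classical ComplexConjugate

namespace J2N

open CM27 JZ
open CU (eE)
open JT (KM cD)

variable {D : Eis}

/-- [B4] -/
instance KM_complex (D : Eis) : IsTotallyComplex (KM D) := by
  exact isTotallyComplex_of_algebra CF.KK (KM D)

theorem finrank_KM (hc : ¬ ∃ x : Eis, x ^ 3 = D) : Module.finrank ℚ (KM D) = 6 := by
  obtain ⟨c, -⟩ := exists_Cy hc
  have h1 := c.deg
  have h2 := CF.d2_finrank (KM D) (w_mem_KM D)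
  change 2 * Module.finrank CF.KK (KM D) = Module.finrank ℚ (KM D) at h2
  rw [h1] at h2
  exact h2.symm

theorem rank_KM (hc : ¬ ∃ x : Eis, x ^ 3 = D) : Units.rank (KM D) = 2 := by
  have h1 := IsTotallyComplex.finrank (K := KM D)
  rw [finrank_KM hc] at h1
  have h2 := InfinitePlace.card_eq_nrRealPlaces_add_nrComplexPlaces (KM D)
  rw [IsTotallyComplex.nrRealPlaces_eq_zero] at h2
  unfold Units.rank
  omega

end J2N
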