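import Pool.Agent.J2N.B4

/-!
# [J2N-B5]
-/

set_option autoImplicit false

open NumberField IsDedekindDomain
open scoped Classical ComplexConjugate

namespace J2N

open CM27 JZ
open CU (eE)
open JT (KM cD)

variable {D : Eis}

theorem b5_eis (a : Eis) : a * a ≠ -1 := by
  intro h
  have h1 := congrArg QuadraticAlgebra.re h
  have h2 := congrArg QuadraticAlgebra.im h
  have r1 : QuadraticAlgebra.re (1 : Eis) = 1 := by decide
  have r2 : QuadraticAlgebra.im (1 : Eis) = 0 := by decide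
  simp only [QuadraticAlgebra.re_mul, QuadraticAlgebra.im_mul, QuadraticAlgebra.re_neg, QuadraticAlgebra.im_neg, r1, r2] at h1 h2
  have h3 : a.im * (2 * a.re - a.im) = 0 := by linarith
  rcases mul_eq_zero.1 h3 with h4 | h4
  · rw [h4] at h1
    nlinarith [sq_nonneg a.re]
  · have h5 : a.im = 2 * a.re := by linarith
    rw [h5] at h1
    have h6 : 3 * (a.re * a.re) = 1 := by linarith
    omega

theorem b5_KK (x : 𝓞 CF.KK) : x * x ≠ -1 := by
  intro h
  apply b5_eis (eE.symm x)
  apply eE.injective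
  rw [map_mul, RingEquiv.apply_symm_apply, h, map_neg, map_one]

/-- [B5] `w_M = 2 m`, `m` odd: `4 ∣ w_M` would give `i ∈ M`, `[ℚ(i) : ℚ] = 2`, `[KK(i) : KK] = 2` does not divide `3`. -/
theorem torsion_KM (hc : ¬ ∃ x : Eis, x ^ 3 = D) : ∃ m : ℕ, Odd m ∧ Units.torsionOrder (KM D) = 2 * m := by
  obtain ⟨c, -⟩ := exists_Cy hc
  have hfd : FiniteDimensional CF.KK (KM D) := Module.finite_of_finrank_eq_succ c.deg
  obtain ⟨m, hm⟩ := (Units.even_torsionOrder (KM D)).two_dvd
  refine ⟨m, ?_, hm⟩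
  by_contra hodd
  rw [Nat.not_odd_iff_even] at hodd
  obtain ⟨k, hk⟩ := hodd.two_dvd
  have h4 : Nat.card (Units.torsion (KM D)) = 4 * k := by
    have : Units.torsionOrder (KM D) = 4 * k := by rw [hm, hk]; ring
    exact this
  obtain ⟨g, hg⟩ := IsCyclic.exists_ofOrder_eq_natCard (α := Units.torsion (KM D))
  have hk0 : k ≠ 0 := by
    rintro rfl
    have := Units.torsionOrder_ne_zero (KM D)
    apply this
    exact h4
  have ho : orderOf (g ^ k) = 4 := by
    rw [orderOf_pow_of_dvd hk0 (by rw [hg, h4]; exact Dvd.intro_left 4 rfl), hg, h4, Nat.mul_div_cancel _ (Nat.pos_of_ne_zero hk0)]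
  -- i = g ^ k
  let x : 𝓞 (KM D) := (((g ^ k : Units.torsion (KM D)) : (𝓞 (KM D))ˣ) : 𝓞 (KM D))
  have hx4 : x ^ 4 = 1 := by
    have h1 : (g ^ k) ^ 4 = 1 := by rw [← ho]; exact pow_orderOf_eq_one _
    have h2 := congrArg (fun z : Units.torsion (KM D) => ((z : (𝓞 (KM D))ˣ) : 𝓞 (KM D))) h1
    simpa [x] using h2
  have hx2 : x ^ 2 ≠ 1 := by
    intro h
    have h1 : (g ^ k) ^ 2 = 1 := by
      apply Subtype.ext
      apply Units.ext
      simpa [x] using h
    have h2 := orderOf_dvd_of_pow_eq_one h1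
    rw [ho] at h2
    omega
  have hxm : x * x = -1 := by
    have h1 : (x ^ 2 - 1) * (x ^ 2 + 1) = 0 := by
      have : (x ^ 2 - 1) * (x ^ 2 + 1) = x ^ 4 - 1 := by ring
      rw [this, hx4, sub_self]
    rcases mul_eq_zero.1 h1 with h2 | h2
    · exact absurd (sub_eq_zero.1 h2) hx2
    · linear_combination h2
  have hxM : (x : KM D) * (x : KM D) = -1 := by
    have := congrArg (fun z : 𝓞 (KM D) => (z : KM D)) hxm
    simpa using this
  have hn : Algebra.norm CF.KK (x : KM D) * Algebra.norm CF.KK (x : KM D) = -1 := by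
    rw [← map_mul, hxM]
    have h1 : (-1 : KM D) = algebraMap CF.KK (KM D) (-1) := by rw [map_neg, map_one]
    rw [h1, Algebra.norm_algebraMap, c.deg]
    norm_num
  have hint : IsIntegral ℤ (Algebra.norm CF.KK (x : KM D)) :=
    Algebra.isIntegral_norm CF.KK (RingOfIntegers.isIntegral_coe x)
  apply b5_KK ⟨Algebra.norm CF.KK (x : KM D), hint⟩
  apply RingOfIntegers.ext
  exact hn

end J2N
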