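import Pool.Agent.J2N.C1

/-!
# [J2N-C2]
-/

set_option autoImplicit false

open NumberField IsDedekindDomain
open scoped Classical ComplexConjugate

namespace J2N

open CM27 JZ
open CU (eE)

variable {D : Eis} {M : Type} [Field M] [NumberField M] [Algebra CF.KK M]

theorem c2_norm (c : Cy D M) (v : HeightOneSpectrum (𝓞 CF.KK)) :
    Ideal.absNorm (Ideal.map (algebraMap (𝓞 CF.KK) (𝓞 M)) v.asIdeal) = Ideal.absNorm v.asIdeal ^ 3 := by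
  have h4 := Ideal.absNorm_algebraMap (R := 𝓞 CF.KK) (𝓞 M) v.asIdeal
  have h5 : Module.finrank (𝓞 CF.KK) (𝓞 M) = 3 := by
    rw [← IsFractionRing.finrank_eq (𝓞 CF.KK) CF.KK (𝓞 M) M, c.deg]
  rw [h5] at h4
  exact h4

theorem c2_eq {I J : Ideal (𝓞 M)} (h : I ≤ J) (hn : Ideal.absNorm J = Ideal.absNorm I) (h0 : Ideal.absNorm I ≠ 0) : I = J := by
  obtain ⟨K, hK⟩ := Ideal.dvd_iff_le.2 h
  have h1 : Ideal.absNorm I = Ideal.absNorm J * Ideal.absNorm K := by rw [← map_mul, ← hK]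
  rw [hn] at h1
  have h2 : Ideal.absNorm K = 1 := by
    have h3 : Ideal.absNorm I * Ideal.absNorm K = Ideal.absNorm I * 1 := by rw [mul_one]; exact h1.symm
    exact Nat.eq_of_mul_eq_mul_left (Nat.pos_of_ne_zero h0) h3
  rw [Ideal.absNorm_eq_one_iff] at h2
  rw [hK, h2, Ideal.mul_top]

theorem c2_le {v : HeightOneSpectrum (𝓞 CF.KK)} {P : HeightOneSpectrum (𝓞 M)} (h : Ov v P) :
    Ideal.map (algebraMap (𝓞 CF.KK) (𝓞 M)) v.asIdeal ≤ P.asIdeal := by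
  have h' : P.asIdeal.comap (algebraMap (𝓞 CF.KK) (𝓞 M)) = v.asIdeal := h
  exact Ideal.map_le_iff_le_comap.2 h'.ge

theorem c2_cop {P Q : HeightOneSpectrum (𝓞 M)} (h : P ≠ Q) : IsCoprime P.asIdeal Q.asIdeal := by
  rw [Ideal.isCoprime_iff_sup_eq]
  exact P.isMaximal.coprime_of_ne Q.isMaximal fun h1 => h (HeightOneSpectrum.ext h1)

/-- [C2] in an unramified prime: `x³ ∈ v 𝓞 → x ∈ v 𝓞`. From `e f g = 3`: `e = 1`, `v 𝓞` is a product of distinct primes (a radical ideal).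
(In the split case `v 𝓞 = P Q T`, in the inert case `v 𝓞 = P`, by norms: `absNorm (v 𝓞) = absNorm v ^ 3`.) -/
theorem unr (c : Cy D M) {v : HeightOneSpectrum (𝓞 CF.KK)} (h : DSplit M v ∨ DInert M v) {x : 𝓞 M}
    (hx : x ^ 3 ∈ Ideal.map (algebraMap (𝓞 CF.KK) (𝓞 M)) v.asIdeal) :
    x ∈ Ideal.map (algebraMap (𝓞 CF.KK) (𝓞 M)) v.asIdeal := by
  have hn := c2_norm c v
  have hv0 : Ideal.absNorm v.asIdeal ≠ 0 := by
    rw [Ne, Ideal.absNorm_eq_zero_iff]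
    exact v.ne_bot
  have hn0 : Ideal.absNorm (Ideal.map (algebraMap (𝓞 CF.KK) (𝓞 M)) v.asIdeal) ≠ 0 := by
    rw [hn]
    exact pow_ne_zero 3 hv0
  rcases h with ⟨P, Q, T, hPQ, hPT, hQT, hov, nP, nQ, nT⟩ | ⟨P, hov, nP⟩
  · have lP := c2_le ((hov P).2 (Or.inl rfl))
    have lQ := c2_le ((hov Q).2 (Or.inr (Or.inl rfl)))
    have lT := c2_le ((hov T).2 (Or.inr (Or.inr rfl)))
    have hcop : IsCoprime (P.asIdeal * Q.asIdeal) T.asIdeal := IsCoprime.mul_left (c2_cop hPT) (c2_cop hQT)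
    have e1 : P.asIdeal * Q.asIdeal = P.asIdeal ⊓ Q.asIdeal :=
      Ideal.mul_eq_inf_of_coprime (Ideal.isCoprime_iff_sup_eq.1 (c2_cop hPQ))
    have e2 : P.asIdeal * Q.asIdeal * T.asIdeal = P.asIdeal ⊓ Q.asIdeal ⊓ T.asIdeal := by
      rw [Ideal.mul_eq_inf_of_coprime (Ideal.isCoprime_iff_sup_eq.1 hcop), e1]
    have e3 : Ideal.map (algebraMap (𝓞 CF.KK) (𝓞 M)) v.asIdeal = P.asIdeal ⊓ Q.asIdeal ⊓ T.asIdeal := by
      refine c2_eq (le_inf (le_inf lP lQ) lT) ?_ hn0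
      rw [← e2, map_mul, map_mul, nP, nQ, nT, hn]
      ring
    rw [e3, Ideal.mem_inf, Ideal.mem_inf] at hx ⊢
    exact ⟨⟨P.isPrime.mem_of_pow_mem 3 hx.1.1, Q.isPrime.mem_of_pow_mem 3 hx.1.2⟩, T.isPrime.mem_of_pow_mem 3 hx.2⟩
  · have e3 : Ideal.map (algebraMap (𝓞 CF.KK) (𝓞 M)) v.asIdeal = P.asIdeal :=
      c2_eq (c2_le ((hov P).2 rfl)) (by rw [nP, hn]) hn0
    rw [e3] at hx ⊢
    exact P.isPrime.mem_of_pow_mem 3 hx

end J2N
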