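import Pool.Agent.J2N.A

/-!
# [J2N-C3]
-/

set_option autoImplicit false

open NumberField IsDedekindDomain
open scoped Classical ComplexConjugate

namespace J2N

open CM27 JZ
open CU (eE)

variable {D : Eis} {M : Type} [Field M] [NumberField M] [Algebra CF.KK M]

/-- [C3] `P` of degree one over `v`: every integer of `M` is congruent to an integer of `KK` modulo `P`
(the injection `𝓞 KK / v → 𝓞 M / P` is bijective by cardinality). -/
theorem deg_one {v : HeightOneSpectrum (𝓞 CF.KK)} {P : HeightOneSpectrum (𝓞 M)} (hP : Ov v P)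
    (hN : Ideal.absNorm P.asIdeal = Ideal.absNorm v.asIdeal) (x : 𝓞 M) :
    ∃ y : 𝓞 CF.KK, x - algebraMap (𝓞 CF.KK) (𝓞 M) y ∈ P.asIdeal := by
  have hP' : P.asIdeal.comap (algebraMap (𝓞 CF.KK) (𝓞 M)) = v.asIdeal := hP
  let f : (𝓞 CF.KK ⧸ v.asIdeal) →+* (𝓞 M ⧸ P.asIdeal) :=
    Ideal.quotientMap P.asIdeal (algebraMap (𝓞 CF.KK) (𝓞 M)) hP'.ge
  have hinj : Function.Injective f := Ideal.quotientMap_injective' hP'.le
  have : Finite (𝓞 CF.KK ⧸ v.asIdeal) := Ideal.finiteQuotientOfFreeOfNeBot v.asIdeal v.ne_bot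
  have : Finite (𝓞 M ⧸ P.asIdeal) := Ideal.finiteQuotientOfFreeOfNeBot P.asIdeal P.ne_bot
  have hcard : Nat.card (𝓞 CF.KK ⧸ v.asIdeal) = Nat.card (𝓞 M ⧸ P.asIdeal) := by
    rw [Ideal.absNorm_apply, Ideal.absNorm_apply, Submodule.cardQuot_apply, Submodule.cardQuot_apply] at hN
    exact hN.symm
  have hbij : Function.Bijective f := (Nat.bijective_iff_injective_and_card f).2 ⟨hinj, hcard⟩
  obtain ⟨y', hy'⟩ := hbij.2 (Ideal.Quotient.mk P.asIdeal x)
  obtain ⟨y, rfl⟩ := Ideal.Quotient.mk_surjective y'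
  refine ⟨y, ?_⟩
  rw [← Ideal.Quotient.eq, ← hy']
  exact Ideal.quotientMap_mk

end J2N
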