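import Pool.Agent.J2N.A

/-!
# [J2N-C4]
-/

set_option autoImplicit false

open NumberField IsDedekindDomain
open scoped Classical ComplexConjugate

namespace J2N

open CM27 JZ
open CU (eE)

variable {D : Eis} {M : Type} [Field M] [NumberField M] [Algebra CF.KK M]

/-- [C4] if only one prime lies over `v`, then it is stable under `σ` (`P.comap c.so` lies over `v`). -/
theorem stable (c : Cy D M) {v : HeightOneSpectrum (𝓞 CF.KK)} {P : HeightOneSpectrum (𝓞 M)}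
    (hP : ∀ R, Ov v R ↔ R = P) {x : 𝓞 M} (hx : x ∈ P.asIdeal) : c.so x ∈ P.asIdeal := by
  have hne : Ideal.comap (c.so : 𝓞 M →+* 𝓞 M) P.asIdeal ≠ ⊥ := by
    intro hbot
    obtain ⟨y, hy, hy0⟩ := Submodule.exists_mem_ne_zero_of_ne_bot P.ne_bot
    have h1 : c.so.symm y ∈ Ideal.comap (c.so : 𝓞 M →+* 𝓞 M) P.asIdeal := by
      rw [Ideal.mem_comap]
      have h2 : (c.so : 𝓞 M →+* 𝓞 M) (c.so.symm y) = y := c.so.apply_symm_apply y
      rw [h2]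
      exact hy
    rw [hbot, Submodule.mem_bot] at h1
    exact hy0 ((map_eq_zero_iff c.so.symm c.so.symm.injective).1 h1)
  let R : HeightOneSpectrum (𝓞 M) := ⟨Ideal.comap (c.so : 𝓞 M →+* 𝓞 M) P.asIdeal, Ideal.comap_isPrime _ _, hne⟩
  have hov : P.asIdeal.comap (algebraMap (𝓞 CF.KK) (𝓞 M)) = v.asIdeal := (hP P).2 rfl
  have hcm : ∀ a : 𝓞 CF.KK, c.so (algebraMap (𝓞 CF.KK) (𝓞 M) a) = algebraMap (𝓞 CF.KK) (𝓞 M) a := by
    intro a
    apply RingOfIntegers.ext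
    rw [c.so_coe]
    exact c.σ.commutes (a : CF.KK)
  have hR : Ov v R := by
    show Ideal.comap (algebraMap (𝓞 CF.KK) (𝓞 M)) (Ideal.comap (c.so : 𝓞 M →+* 𝓞 M) P.asIdeal) = v.asIdeal
    rw [← hov]
    ext a
    rw [Ideal.mem_comap, Ideal.mem_comap, Ideal.mem_comap]
    have h2 : (c.so : 𝓞 M →+* 𝓞 M) (algebraMap (𝓞 CF.KK) (𝓞 M) a) = algebraMap (𝓞 CF.KK) (𝓞 M) a := hcm a
    rw [h2]
  have h3 : R = P := (hP R).1 hR
  have h4 : x ∈ R.asIdeal := by rw [h3]; exact hx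
  exact h4

/-- [C5] the elements of `KK` in `v 𝓞` -/
theorem map_comap {v : HeightOneSpectrum (𝓞 CF.KK)} {a : 𝓞 CF.KK}
    (h : algebraMap (𝓞 CF.KK) (𝓞 M) a ∈ Ideal.map (algebraMap (𝓞 CF.KK) (𝓞 M)) v.asIdeal) : a ∈ v.asIdeal := by
  have : v.asIdeal.IsMaximal := v.isMaximal
  obtain ⟨Q, -, hQ⟩ := Ideal.exists_maximal_ideal_liesOver_of_isIntegral v.asIdeal (S := 𝓞 M)
  have h1 : v.asIdeal = Ideal.comap (algebraMap (𝓞 CF.KK) (𝓞 M)) Q := hQ.over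
  rw [h1, Ideal.mem_comap]
  refine Ideal.map_le_iff_le_comap.2 ?_ h
  exact h1.le

end J2N
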