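import Pool.Agent.J2N.A

/-!
# [J2N-C1]
-/

set_option autoImplicit false

open NumberField IsDedekindDomain
open scoped Classical ComplexConjugate

namespace J2N

open CM27 JZ
open CU (eE)

variable {D : Eis} {M : Type} [Field M] [NumberField M] [Algebra CF.KK M]

private theorem c1_mem (v : HeightOneSpectrum (𝓞 CF.KK)) (R : HeightOneSpectrum (𝓞 M)) :
    Ov v R ↔ R.asIdeal ∈ Ideal.primesOver v.asIdeal (𝓞 M) := by
  constructor
  · intro h
    exact ⟨R.isPrime, ⟨h.symm⟩⟩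
  · intro h
    exact h.2.over.symm

private theorem c1_nat {n e f : ℕ} (h : n * (e * f) = 3) :
    (n = 3 ∧ e = 1 ∧ f = 1) ∨ (n = 1 ∧ e = 3 ∧ f = 1) ∨ (n = 1 ∧ e = 1 ∧ f = 3) := by
  have h3 : Nat.Prime 3 := by norm_num
  have hn : n ∣ 3 := ⟨_, h.symm⟩
  rcases (Nat.dvd_prime h3).mp hn with h1 | h1
  · subst h1
    rw [one_mul] at h
    have he : e ∣ 3 := ⟨_, h.symm⟩
    rcases (Nat.dvd_prime h3).mp he with h2 | h2
    · subst h2
      right; right; refine ⟨rfl, rfl, by omega⟩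
    · subst h2
      right; left; refine ⟨rfl, rfl, by omega⟩
  · subst h1
    have : e * f = 1 := by omega
    have h4 := Nat.eq_one_of_mul_eq_one_right this
    have h5 := Nat.eq_one_of_mul_eq_one_left this
    left; exact ⟨rfl, h4, h5⟩

/-- [C1] `e f g = 3`. Mathlib: `Ideal.ncard_primesOver_mul_ramificationIdxIn_mul_inertiaDegIn` (Galois), `Ideal.primesOver`, `Ideal.absNorm_eq_pow_inertiaDeg`,
`Ideal.map_algebraMap_eq_finset_prod_pow` for `v 𝓞 = P ^ 3`. -/
theorem tri (c : Cy D M) (v : HeightOneSpectrum (𝓞 CF.KK)) : DSplit M v ∨ DRam M v ∨ DInert M v := by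
  have := c.gal
  have : v.asIdeal.IsMaximal := v.isMaximal
  have : FiniteDimensional CF.KK M := Module.finite_of_finrank_eq_succ c.deg
  have hcard : Nat.card (M ≃ₐ[CF.KK] M) = 3 := by
    rw [IsGalois.card_aut_eq_finrank, c.deg]
  have key := Ideal.ncard_primesOver_mul_ramificationIdxIn_mul_inertiaDegIn v.asIdeal (𝓞 M) (M ≃ₐ[CF.KK] M)
  rw [hcard] at key
  have hne : ∀ P : Ideal (𝓞 M), P ∈ Ideal.primesOver v.asIdeal (𝓞 M) → P ≠ ⊥ := by
    intro P hP
    exact Ideal.ne_bot_of_mem_primesOver v.ne_bot hP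
  have hnorm : ∀ R : HeightOneSpectrum (𝓞 M), Ov v R →
      Ideal.absNorm R.asIdeal = Ideal.absNorm v.asIdeal ^ (Ideal.inertiaDegIn v.asIdeal (𝓞 M)) := by
    intro R hR
    have := R.isPrime
    have : R.asIdeal.LiesOver v.asIdeal := ⟨hR.symm⟩
    rw [Ideal.inertiaDegIn_eq_inertiaDeg v.asIdeal R.asIdeal (M ≃ₐ[CF.KK] M), Ideal.absNorm_pow_inertiaDeg]
  let mk : ∀ P : Ideal (𝓞 M), P ∈ Ideal.primesOver v.asIdeal (𝓞 M) → HeightOneSpectrum (𝓞 M) :=
    fun P hP => ⟨P, hP.1, hne P hP⟩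
  rcases c1_nat key with ⟨h1, h2, h3⟩ | ⟨h1, h2, h3⟩ | ⟨h1, h2, h3⟩
  · left
    obtain ⟨P, Q, T, hPQ, hPT, hQT, hs⟩ := Set.ncard_eq_three.mp h1
    have hP : P ∈ Ideal.primesOver v.asIdeal (𝓞 M) := by rw [hs]; simp
    have hQ : Q ∈ Ideal.primesOver v.asIdeal (𝓞 M) := by rw [hs]; simp
    have hT : T ∈ Ideal.primesOver v.asIdeal (𝓞 M) := by rw [hs]; simp
    have hall : ∀ R, Ov v R ↔ R = mk P hP ∨ R = mk Q hQ ∨ R = mk T hT := by
      intro R
      rw [c1_mem, hs]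
      simp only [Set.mem_insert_iff, Set.mem_singleton_iff, HeightOneSpectrum.ext_iff, mk]
    refine ⟨mk P hP, mk Q hQ, mk T hT, ?_, ?_, ?_, hall, ?_, ?_, ?_⟩
    · intro h; exact hPQ (congrArg HeightOneSpectrum.asIdeal h)
    · intro h; exact hPT (congrArg HeightOneSpectrum.asIdeal h)
    · intro h; exact hQT (congrArg HeightOneSpectrum.asIdeal h)
    · rw [hnorm _ ((hall _).mpr (Or.inl rfl)), h3, pow_one]
    · rw [hnorm _ ((hall _).mpr (Or.inr (Or.inl rfl))), h3, pow_one]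
    · rw [hnorm _ ((hall _).mpr (Or.inr (Or.inr rfl))), h3, pow_one]
  · right; left
    obtain ⟨P, hs⟩ := Set.ncard_eq_one.mp h1
    have hP : P ∈ Ideal.primesOver v.asIdeal (𝓞 M) := by rw [hs]; simp
    have hall : ∀ R, Ov v R ↔ R = mk P hP := by
      intro R
      rw [c1_mem, hs]
      simp only [Set.mem_singleton_iff, HeightOneSpectrum.ext_iff, mk]
    refine ⟨mk P hP, hall, ?_, ?_⟩
    · rw [hnorm _ ((hall _).mpr rfl), h3, pow_one]
    · have := hP.1
      have := hP.2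
      rw [Ideal.map_algebraMap_eq_finsetProd_pow v.ne_bot]
      have hs' : (Ideal.primesOver v.asIdeal (𝓞 M)).toFinset = {P} := by
        ext x
        simp [hs]
      rw [hs', Finset.prod_singleton]
      rw [← Ideal.ramificationIdxIn_eq_ramificationIdx v.asIdeal P (M ≃ₐ[CF.KK] M), h2]
  · right; right
    obtain ⟨P, hs⟩ := Set.ncard_eq_one.mp h1
    have hP : P ∈ Ideal.primesOver v.asIdeal (𝓞 M) := by rw [hs]; simp
    have hall : ∀ R, Ov v R ↔ R = mk P hP := by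
      intro R
      rw [c1_mem, hs]
      simp only [Set.mem_singleton_iff, HeightOneSpectrum.ext_iff, mk]
    refine ⟨mk P hP, hall, ?_⟩
    rw [hnorm _ ((hall _).mpr rfl), h3]

end J2N
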