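import Pool.Agent.J2N.C

/-!
# [J2N-C6b]
-/

set_option autoImplicit false

open NumberField IsDedekindDomain
open scoped Classical ComplexConjugate

namespace J2N

open CM27 JZ
open CU (eE)

variable {D : Eis} {M : Type} [Field M] [NumberField M] [Algebra CF.KK M]

omit [NumberField M] in
theorem c6b_inj (x y : 𝓞 CF.KK) (h : algebraMap (𝓞 CF.KK) (𝓞 M) x = algebraMap (𝓞 CF.KK) (𝓞 M) y) : x = y := by
  have h1 : algebraMap CF.KK M (x : CF.KK) = algebraMap CF.KK M (y : CF.KK) := by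
    have := congrArg (fun z : 𝓞 M => (z : M)) h
    exact this
  have h2 := (algebraMap CF.KK M).injective h1
  exact RingOfIntegers.ext h2

omit [NumberField M] in
theorem c6b_ne {p : Eis} (hp : p ≠ 0) : algebraMap (𝓞 CF.KK) (𝓞 M) (eE p) ≠ 0 := by
  intro h
  have h1 := c6b_inj (M := M) (eE p) 0 (by rw [h, map_zero])
  have h2 : p = 0 := by
    apply eE.injective
    rw [h1, map_zero]
  exact hp h2

/-- [C6b] `s' = s / p^m` is integral: `s'³ = d`. -/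
theorem exists_root (c : Cy D M) {p d : Eis} {m : ℕ} (hp : p ≠ 0) (hD : D = p ^ (3 * m) * d) :
    ∃ s' : 𝓞 M, algebraMap (𝓞 CF.KK) (𝓞 M) (eE (p ^ m)) * s' = c.s ∧ s' ^ 3 = algebraMap (𝓞 CF.KK) (𝓞 M) (eE d) ∧
      c.so s' = algebraMap (𝓞 CF.KK) (𝓞 M) (eE CU.om) * s' := by
  set q : 𝓞 M := algebraMap (𝓞 CF.KK) (𝓞 M) (eE (p ^ m)) with hq
  have hq0 : q ≠ 0 := by
    rw [hq, map_pow, map_pow]
    exact pow_ne_zero m (c6b_ne hp)
  have hqM : (q : M) ≠ 0 := by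
    intro h
    apply hq0
    exact RingOfIntegers.ext h
  have hs : (c.s : M) ^ 3 = (q : M) ^ 3 * ((algebraMap (𝓞 CF.KK) (𝓞 M) (eE d) : 𝓞 M) : M) := by
    have h1 : c.s ^ 3 = q ^ 3 * algebraMap (𝓞 CF.KK) (𝓞 M) (eE d) := by
      rw [c.hs, hq, hD, ← map_pow, ← map_pow, ← map_mul, ← map_mul, ← pow_mul, mul_comm m 3]
    have h2 := congrArg (fun z : 𝓞 M => (z : M)) h1
    simpa using h2
  have hx3 : ((c.s : M) / (q : M)) ^ 3 = ((algebraMap (𝓞 CF.KK) (𝓞 M) (eE d) : 𝓞 M) : M) := by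
    rw [div_pow, hs, mul_div_cancel_left₀ _ (pow_ne_zero 3 hqM)]
  have hint : IsIntegral ℤ ((c.s : M) / (q : M)) := by
    apply IsIntegral.of_pow (n := 3) (by norm_num)
    rw [hx3]
    exact RingOfIntegers.isIntegral_coe _
  let s' : 𝓞 M := ⟨(c.s : M) / (q : M), hint⟩
  have hs' : (s' : M) = (c.s : M) / (q : M) := rfl
  refine ⟨s', ?_, ?_, ?_⟩
  · apply RingOfIntegers.ext
    show (q : M) * (s' : M) = (c.s : M)
    rw [hs', mul_div_cancel₀ _ hqM]
  · apply RingOfIntegers.ext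
    show (s' : M) ^ 3 = _
    rw [hs', hx3]
  · apply RingOfIntegers.ext
    show ((c.so s' : 𝓞 M) : M) = ((algebraMap (𝓞 CF.KK) (𝓞 M) (eE CU.om) : 𝓞 M) : M) * (s' : M)
    have h1 : ((c.so s' : 𝓞 M) : M) = c.σ (s' : M) := Cy.so_coe c s'
    have h2 : c.σ (q : M) = (q : M) := by
      have : (q : M) = algebraMap CF.KK M ((eE (p ^ m) : 𝓞 CF.KK) : CF.KK) := rfl
      rw [this]
      exact c.σ.commutes _
    calc ((c.so s' : 𝓞 M) : M) = c.σ ((c.s : M) / (q : M)) := by rw [h1, hs']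
      _ = c.σ (c.s : M) / c.σ (q : M) := by rw [map_div₀]
      _ = _ := by rw [c.hσ, h2, hs', mul_div_assoc]

end J2N
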