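import Pool.Agent.J2N.C
import Pool.Agent.J2N.C6b

/-!
# [J2N-C6a]
-/

set_option autoImplicit false

open NumberField IsDedekindDomain
open scoped Classical ComplexConjugate

namespace J2N

open CM27 JZ
open CU (eE)

variable {D : Eis} {M : Type} [Field M] [NumberField M] [Algebra CF.KK M]

/-- [C6a] any prime `p`, also over `3`: if `3` does not divide the exponent, then `p` is ramified.
PROOF. Otherwise `unr` (C.lean): `n = 3 m + r`, `r = 1, 2`: dividing `s` by `p` `m` times (`s³ ∈ v 𝓞 = (p)` gives `s = p s₁`, `s₁³ = p^(n-3) c`), we get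
`s' ∈ 𝓞 M`, `s'³ = p^r c`, `s' = p s''`, so `p^3 ∣ p^r c`, `p ∣ c` (`map_comap`). -/
theorem ram_of (c : Cy D M) {p d : Eis} {n : ℕ} (hp : Prime p) (hD : D = p ^ n * d) (hd : ¬ p ∣ d) (h3 : ¬ 3 ∣ n)
    {v : HeightOneSpectrum (𝓞 CF.KK)} (hv : v.asIdeal = Ideal.span {eE p}) : DRam M v := by
  by_contra hnr
  have hu : DSplit M v ∨ DInert M v := by
    rcases tri c v with h | h | h
    · exact Or.inl h
    · exact absurd h hnr
    · exact Or.inr h
  obtain ⟨m, r, hr1, hr2, hn⟩ : ∃ m r : ℕ, 1 ≤ r ∧ r ≤ 2 ∧ n = 3 * m + r :=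
    ⟨n / 3, n % 3, by omega, by omega, by omega⟩
  have hD' : D = p ^ (3 * m) * (p ^ r * d) := by rw [hD, hn, pow_add, mul_assoc]
  obtain ⟨s', -, hs, -⟩ := exists_root c hp.ne_zero hD'
  set q : 𝓞 M := algebraMap (𝓞 CF.KK) (𝓞 M) (eE p) with hq
  have hmap : Ideal.map (algebraMap (𝓞 CF.KK) (𝓞 M)) v.asIdeal = Ideal.span {q} := by
    rw [hv, Ideal.map_span, Set.image_singleton]
  have hq0 : q ≠ 0 := c6b_ne hp.ne_zero
  have hs1 : s' ^ 3 = q ^ r * algebraMap (𝓞 CF.KK) (𝓞 M) (eE d) := by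
    rw [hs, map_mul, map_mul, map_pow, map_pow]
  have h1 : s' ^ 3 ∈ Ideal.map (algebraMap (𝓞 CF.KK) (𝓞 M)) v.asIdeal := by
    rw [hmap, Ideal.mem_span_singleton, hs1]
    exact Dvd.dvd.mul_right (dvd_pow_self q (by omega)) _
  have h2 := unr c hu h1
  rw [hmap, Ideal.mem_span_singleton] at h2
  obtain ⟨t, ht⟩ := h2
  have h3' : q ^ r * (q ^ (3 - r) * t ^ 3) = q ^ r * algebraMap (𝓞 CF.KK) (𝓞 M) (eE d) := by
    rw [← hs1, ht, ← mul_assoc, ← pow_add, mul_pow]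
    congr 2
    omega
  have h4 := mul_left_cancel₀ (pow_ne_zero r hq0) h3'
  have h5 : algebraMap (𝓞 CF.KK) (𝓞 M) (eE d) ∈ Ideal.map (algebraMap (𝓞 CF.KK) (𝓞 M)) v.asIdeal := by
    rw [hmap, Ideal.mem_span_singleton, ← h4]
    exact Dvd.dvd.mul_right (dvd_pow_self q (by omega)) _
  have h6 := map_comap h5
  rw [hv, Ideal.mem_span_singleton] at h6
  exact hd ((map_dvd_iff eE).mp h6)

end J2N
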