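import Pool.Agent.J2N.C6b

/-!
# [J2N-C6c]
-/

set_option autoImplicit false

open NumberField IsDedekindDomain
open scoped Classical ComplexConjugate

namespace J2N

open CM27 JZ
open CU (eE)

variable {D : Eis} {M : Type} [Field M] [NumberField M] [Algebra CF.KK M]

theorem c6c_fix (c : Cy D M) (a : 𝓞 CF.KK) :
    c.so (algebraMap (𝓞 CF.KK) (𝓞 M) a) = algebraMap (𝓞 CF.KK) (𝓞 M) a := by
  apply RingOfIntegers.ext
  rw [Cy.so_coe]
  exact c.σ.commutes _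

theorem c6c_om : (CU.om : Eis) ^ 2 + CU.om + 1 = 0 := by decide

theorem c6c_main (c : Cy D M) {p d y : Eis} {m : ℕ} (hp : Prime p) (h3 : ¬ p ∣ 3)
    (hD : D = p ^ (3 * m) * d) (hd : ¬ p ∣ d) (hy : p ∣ y ^ 3 - d)
    {v : HeightOneSpectrum (𝓞 CF.KK)} (hv : v.asIdeal = Ideal.span {eE p})
    {P : HeightOneSpectrum (𝓞 M)} (hP : ∀ R, Ov v R ↔ R = P) : False := by
  obtain ⟨s', -, hs2, hs3⟩ := exists_root c hp.ne_zero hD
  have hov : P.asIdeal.comap (algebraMap (𝓞 CF.KK) (𝓞 M)) = v.asIdeal := (hP P).mpr rfl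
  have hmem : ∀ a : Eis, algebraMap (𝓞 CF.KK) (𝓞 M) (eE a) ∈ P.asIdeal → p ∣ a := by
    intro a ha
    have h1 : eE a ∈ v.asIdeal := by
      rw [← hov]
      exact ha
    rw [hv, Ideal.mem_span_singleton] at h1
    exact (map_dvd_iff eE).mp h1
  have hmem' : ∀ a : Eis, p ∣ a → algebraMap (𝓞 CF.KK) (𝓞 M) (eE a) ∈ P.asIdeal := by
    intro a ha
    have h1 : eE a ∈ v.asIdeal := by
      rw [hv, Ideal.mem_span_singleton]
      exact (map_dvd_iff eE).mpr ha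
    rw [← hov] at h1
    exact h1
  have hom : algebraMap (𝓞 CF.KK) (𝓞 M) (eE CU.om) ^ 2 + algebraMap (𝓞 CF.KK) (𝓞 M) (eE CU.om) + 1
      = 0 := by
    have h1 := congrArg (fun a => algebraMap (𝓞 CF.KK) (𝓞 M) (eE a)) c6c_om
    simpa using h1
  have key : ∀ i : ℕ, s' - algebraMap (𝓞 CF.KK) (𝓞 M) (eE (CU.om ^ i * y)) ∉ P.asIdeal := by
    intro i hi
    have h1 := stable c hP hi
    rw [map_sub, hs3, c6c_fix] at h1
    have h2 := Ideal.mul_mem_left P.asIdeal (algebraMap (𝓞 CF.KK) (𝓞 M) (eE CU.om)) hi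
    have h4 := Ideal.sub_mem _ h1 h2
    have h5 : algebraMap (𝓞 CF.KK) (𝓞 M) (eE (CU.om ^ i * y * (CU.om - 1))) ∈ P.asIdeal := by
      convert h4 using 1
      simp only [map_mul, map_sub, map_one]
      ring
    have h6 := hmem _ h5
    rcases hp.dvd_or_dvd h6 with h7 | h7
    · rcases hp.dvd_or_dvd h7 with h8 | h8
      · exact hp.not_isUnit (isUnit_of_dvd_unit h8 (CU.om_unit.pow i))
      · apply hd
        have h9 : p ∣ y ^ 3 := h8.trans (dvd_pow_self y (by norm_num))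
        have h10 := dvd_sub h9 hy
        rwa [sub_sub_cancel] at h10
    · apply h3
      have h8 : (3 : Eis) = (CU.om - 1) * ((CU.om - 1) * (- CU.om ^ 2)) := by decide
      rw [h8]
      exact h7.mul_right _
  have hprod : (s' - algebraMap (𝓞 CF.KK) (𝓞 M) (eE (CU.om ^ 0 * y))) *
      ((s' - algebraMap (𝓞 CF.KK) (𝓞 M) (eE (CU.om ^ 1 * y))) *
        (s' - algebraMap (𝓞 CF.KK) (𝓞 M) (eE (CU.om ^ 2 * y)))) ∈ P.asIdeal := by
    have h1 := hmem' _ ((dvd_neg.mpr hy))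
    have h2 : algebraMap (𝓞 CF.KK) (𝓞 M) (eE (-(y ^ 3 - d))) =
        s' ^ 3 - algebraMap (𝓞 CF.KK) (𝓞 M) (eE y) ^ 3 := by
      rw [hs2]
      simp only [map_neg, map_sub, map_pow]
      ring
    rw [h2] at h1
    convert h1 using 1
    simp only [map_mul, map_pow]
    generalize algebraMap (𝓞 CF.KK) (𝓞 M) (eE CU.om) = o at hom
    generalize algebraMap (𝓞 CF.KK) (𝓞 M) (eE y) = Y
    linear_combination (- s' ^ 2 * Y + o * s' * Y ^ 2 - (o - 1) * Y ^ 3) * hom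
  rcases P.isPrime.mem_or_mem hprod with h | h
  · exact key 0 h
  · rcases P.isPrime.mem_or_mem h with h | h
    · exact key 1 h
    · exact key 2 h

/-- [C6c] PROOF. Suppose that only one prime `P` lies over `v`. `s'` from `exists_root`. `(s' - y)(s' - ω y)(s' - ω² y) = d - y³ ∈ P`, so
`s' - ω^i y ∈ P` for an `i`; apply `c.so` (`stable`): `ω s' - ω^i y ∈ P`, so `(ω - 1) ω^i y ∈ P` and `y ∈ P` (`p ∤ 3`), `d ∈ P`, `p ∣ d`. So `tri` leaves `DSplit`. -/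
theorem split_of (c : Cy D M) {p d y : Eis} {m : ℕ} (hp : Prime p) (h3 : ¬ p ∣ 3) (hD : D = p ^ (3 * m) * d)
    (hd : ¬ p ∣ d) (hy : p ∣ y ^ 3 - d)
    {v : HeightOneSpectrum (𝓞 CF.KK)} (hv : v.asIdeal = Ideal.span {eE p}) : DSplit M v := by
  have main : ∀ P : HeightOneSpectrum (𝓞 M), ¬ (∀ R, Ov v R ↔ R = P) :=
    fun P hP => c6c_main c hp h3 hD hd hy hv hP
  rcases tri c v with h | ⟨P, hP, -⟩ | ⟨P, hP, -⟩
  · exact h
  · exact absurd hP (main P)
  · exact absurd hP (main P)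

end J2N
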