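import Pool.Agent.J2N.C6b

/-!
# [J2N-C6d]
-/

set_option autoImplicit false

open NumberField IsDedekindDomain
open scoped Classical ComplexConjugate

namespace J2N

open CM27 JZ
open CU (eE)

variable {D : Eis} {M : Type} [Field M] [NumberField M] [Algebra CF.KK M]

/-- a prime of degree one over `v` gives a cube root of `d` modulo `p` -/
private theorem c6d_aux (c : Cy D M) {p d : Eis} {m : ℕ} (hp : Prime p) (hD : D = p ^ (3 * m) * d)
    {v : HeightOneSpectrum (𝓞 CF.KK)} (hv : v.asIdeal = Ideal.span {eE p}) {P : HeightOneSpectrum (𝓞 M)}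
    (hP : Ov v P) (hN : Ideal.absNorm P.asIdeal = Ideal.absNorm v.asIdeal) : ∃ y : Eis, p ∣ y ^ 3 - d := by
  obtain ⟨s', -, hs', -⟩ := exists_root c hp.ne_zero hD
  obtain ⟨y, hy⟩ := deg_one hP hN s'
  refine ⟨eE.symm y, ?_⟩
  have h1 : s' ^ 3 - (algebraMap (𝓞 CF.KK) (𝓞 M) y) ^ 3 ∈ P.asIdeal := by
    have h2 : s' ^ 3 - (algebraMap (𝓞 CF.KK) (𝓞 M) y) ^ 3 =
        (s' - algebraMap (𝓞 CF.KK) (𝓞 M) y) *
          (s' ^ 2 + s' * algebraMap (𝓞 CF.KK) (𝓞 M) y + (algebraMap (𝓞 CF.KK) (𝓞 M) y) ^ 2) := by ring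
    rw [h2]
    exact P.asIdeal.mul_mem_right _ hy
  rw [hs', ← map_pow, ← map_sub] at h1
  have h3 : eE d - y ^ 3 ∈ v.asIdeal := by
    rw [← hP]
    exact h1
  rw [hv, Ideal.mem_span_singleton] at h3
  have h4 : eE p ∣ eE (d - (eE.symm y) ^ 3) := by
    rw [map_sub, map_pow, RingEquiv.apply_symm_apply]
    exact h3
  have h5 : p ∣ d - (eE.symm y) ^ 3 := (map_dvd_iff eE).mp h4
  rw [← neg_sub, dvd_neg]
  exact h5

/-- [C6d] any prime `p`, also over `3`. PROOF. Otherwise there is a `P` of degree one (`tri`), `s' ≡ y mod P` (`deg_one`), `d - y³ ∈ P`. -/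
theorem inert_of (c : Cy D M) {p d : Eis} {m : ℕ} (hp : Prime p) (hD : D = p ^ (3 * m) * d)
    (hd : ¬ p ∣ d) (hy : ¬ ∃ y : Eis, p ∣ y ^ 3 - d)
    {v : HeightOneSpectrum (𝓞 CF.KK)} (hv : v.asIdeal = Ideal.span {eE p}) : DInert M v := by
  rcases tri c v with h | h | h
  · obtain ⟨P, Q, T, -, -, -, h1, h2, -, -⟩ := h
    exact absurd (c6d_aux c hp hD hv ((h1 P).mpr (Or.inl rfl)) h2) hy
  · obtain ⟨P, h1, h2, -⟩ := h
    exact absurd (c6d_aux c hp hD hv ((h1 P).mpr rfl) h2) hy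
  · exact h

end J2N
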