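import Pool.Agent.J2N.C

/-!
# [J2N-C7a]
-/

set_option autoImplicit false

open NumberField IsDedekindDomain
open scoped Classical ComplexConjugate

namespace J2N

open CM27 JZ
open CU (la eE)

variable {D : Eis} {M : Type} [Field M] [NumberField M] [Algebra CF.KK M]

theorem c7a_mem {v : HeightOneSpectrum (𝓞 CF.KK)} {p : Eis} (hv : v.asIdeal = Ideal.span {eE p}) (x : 𝓞 M) :
    x ∈ Ideal.map (algebraMap (𝓞 CF.KK) (𝓞 M)) v.asIdeal ↔ ∃ y, x = algebraMap (𝓞 CF.KK) (𝓞 M) (eE p) * y := by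
  rw [hv, Ideal.map_span, Set.image_singleton, Ideal.mem_span_singleton]
  rfl

theorem c7a_memv {v : HeightOneSpectrum (𝓞 CF.KK)} {p : Eis} (hv : v.asIdeal = Ideal.span {eE p}) (a : Eis) :
    eE a ∈ v.asIdeal ↔ p ∣ a := by
  rw [hv, Ideal.mem_span_singleton]
  exact map_dvd_iff eE

theorem c7a_inj {a b : Eis} (h : algebraMap (𝓞 CF.KK) (𝓞 M) (eE a) = algebraMap (𝓞 CF.KK) (𝓞 M) (eE b)) : a = b :=
  eE.injective (FaithfulSMul.algebraMap_injective (𝓞 CF.KK) (𝓞 M) h)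

theorem c7a_ne {a : Eis} (h : a ≠ 0) : algebraMap (𝓞 CF.KK) (𝓞 M) (eE a) ≠ 0 := by
  intro h1
  apply h
  apply c7a_inj (M := M)
  rw [h1, map_zero, map_zero]

theorem c7a_desc {v : HeightOneSpectrum (𝓞 CF.KK)} {p : Eis} (hp : p ≠ 0) (hv : v.asIdeal = Ideal.span {eE p}) (n : ℕ) :
    ∀ (a : Eis) (x : 𝓞 M), algebraMap (𝓞 CF.KK) (𝓞 M) (eE a) = algebraMap (𝓞 CF.KK) (𝓞 M) (eE p) ^ n * x → p ^ n ∣ a := by
  induction n with
  | zero => intro a x _; simp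
  | succ n ih =>
    intro a x hx
    have h1 : algebraMap (𝓞 CF.KK) (𝓞 M) (eE a) ∈ Ideal.map (algebraMap (𝓞 CF.KK) (𝓞 M)) v.asIdeal := by
      rw [c7a_mem hv]
      exact ⟨algebraMap (𝓞 CF.KK) (𝓞 M) (eE p) ^ n * x, by rw [hx]; ring⟩
    have h2 := map_comap h1
    rw [c7a_memv hv] at h2
    obtain ⟨b, hb⟩ := h2
    have h3 : algebraMap (𝓞 CF.KK) (𝓞 M) (eE b) = algebraMap (𝓞 CF.KK) (𝓞 M) (eE p) ^ n * x := by
      apply mul_left_cancel₀ (c7a_ne (M := M) hp)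
      rw [← map_mul, ← map_mul, ← hb, hx]
      ring
    obtain ⟨c, hc⟩ := ih b x h3
    exact ⟨c, by rw [hb, hc]; ring⟩

theorem c7a_res (a : Eis) (h : ¬ la ∣ a) : ∃ η : Eis, (η = 1 ∨ η = -1) ∧ la ∣ a - η := by
  rw [CU.la_dvd_iff] at h
  have h1 : (a.re + a.im) % 3 = 1 ∨ (a.re + a.im) % 3 = 2 := by omega
  rcases h1 with h1 | h1
  · refine ⟨1, Or.inl rfl, ?_⟩
    rw [CU.la_dvd_iff]
    simp only [QuadraticAlgebra.re_sub, QuadraticAlgebra.im_sub, QuadraticAlgebra.re_one, QuadraticAlgebra.im_one]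
    omega
  · refine ⟨-1, Or.inr rfl, ?_⟩
    rw [CU.la_dvd_iff]
    simp only [QuadraticAlgebra.re_sub, QuadraticAlgebra.im_sub, QuadraticAlgebra.re_neg, QuadraticAlgebra.im_neg,
      QuadraticAlgebra.re_one, QuadraticAlgebra.im_one]
    omega

theorem c7a_main (c : Cy D M) {d : Eis} (hd : ¬ la ∣ d) (s' : 𝓞 M) (hs' : s' ^ 3 = algebraMap (𝓞 CF.KK) (𝓞 M) (eE d))
    (h : ¬ ∃ η : Eis, (η = 1 ∨ η = -1) ∧ la ^ 3 ∣ d - η)
    {v : HeightOneSpectrum (𝓞 CF.KK)} (hv : v.asIdeal = Ideal.span {eE la}) (h1 : DSplit M v ∨ DInert M v) : False := by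
  obtain ⟨η, hη, f, hf⟩ := c7a_res d hd
  apply h
  refine ⟨η, hη, ?_⟩
  have hη2 : η ^ 2 = 1 := by rcases hη with rfl | rfl <;> norm_num
  set e : Eis → 𝓞 M := fun a => algebraMap (𝓞 CF.KK) (𝓞 M) (eE a) with he
  have e_add : ∀ a b, e (a + b) = e a + e b := fun a b => by simp only [he, map_add]
  have e_mul : ∀ a b, e (a * b) = e a * e b := fun a b => by simp only [he, map_mul]
  have e_pow : ∀ a (n : ℕ), e (a ^ n) = e a ^ n := fun a n => by simp only [he, map_pow]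
  have hs1 : s' ^ 3 = e η + e la * e f := by
    rw [hs', ← e_mul, ← hf, ← e_add, add_sub_cancel]
  have h3 : (3 : 𝓞 M) = e (-CU.om ^ 2) * e la ^ 2 := by
    rw [← e_pow, ← e_mul, ← CU.three_eq]
    simp only [he, map_ofNat]
  have hη2' : e η ^ 2 = 1 := by rw [← e_pow, hη2]; simp only [he, map_one]
  have hη3 : e η ^ 3 = e η := by rw [pow_succ, hη2', one_mul]
  have h4 : (s' - e η) ^ 3 ∈ Ideal.map (algebraMap (𝓞 CF.KK) (𝓞 M)) v.asIdeal := by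
    rw [c7a_mem hv]
    refine ⟨e f + e (-CU.om ^ 2) * e la * (- (s' ^ 2 * e η) + s' * e η ^ 2), ?_⟩
    change _ = e la * _
    have : (s' - e η) ^ 3 = s' ^ 3 - e η ^ 3 + 3 * (- (s' ^ 2 * e η) + s' * e η ^ 2) := by ring
    rw [this, h3, hs1, hη3]
    ring
  have h5 := unr c h1 h4
  rw [c7a_mem hv] at h5
  obtain ⟨θ, hθ⟩ := h5
  change _ = e la * _ at hθ
  have hs2 : s' = e η + e la * θ := by rw [← hθ]; ring
  apply c7a_desc (M := M) CU.la_prime.ne_zero hv 3 (d - η) (e (-CU.om ^ 2) * (e η ^ 2 * θ + e η * e la * θ ^ 2) + θ ^ 3)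
  have h6' : e d = e (d - η) + e η := by rw [← e_add, sub_add_cancel]
  have h6 : e (d - η) = s' ^ 3 - e η := by
    rw [hs']
    change _ = e d - _
    rw [h6', add_sub_cancel_right]
  change e (d - η) = e la ^ 3 * _
  rw [h6, hs2]
  have : (e η + e la * θ) ^ 3 = e η ^ 3 + 3 * (e η ^ 2 * (e la * θ) + e η * (e la * θ) ^ 2) + e la ^ 3 * θ ^ 3 := by ring
  rw [this, h3, hη3]
  ring

/-- [C7a] PROOF. Suppose unramified (`tri`), so `unr`. `d ≡ η mod λ`, `η = ± 1`. `(s' - η)³ ≡ s'³ - η = d - η ≡ 0 mod λ` (`3 ≡ 0`), so `s' = η + λ θ` (`unr`),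
`d = s'³ = η + 3 λ θ + 3 η λ² θ² + λ³ θ³ ≡ η mod λ³`, contradiction. -/
theorem ramL_of (c : Cy D M) {d : Eis} (hd : ¬ la ∣ d) (s' : 𝓞 M) (hs' : s' ^ 3 = algebraMap (𝓞 CF.KK) (𝓞 M) (eE d))
    (h : ¬ ∃ η : Eis, (η = 1 ∨ η = -1) ∧ la ^ 3 ∣ d - η)
    {v : HeightOneSpectrum (𝓞 CF.KK)} (hv : v.asIdeal = Ideal.span {eE la}) : DRam M v := by
  rcases tri c v with h1 | h1 | h1
  · exact absurd (c7a_main c hd s' hs' h hv (Or.inl h1)) not_false
  · exact h1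
  · exact absurd (c7a_main c hd s' hs' h hv (Or.inr h1)) not_false

end J2N
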