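import Pool.Agent.J2N.C

/-!
# [J2N-C7b]
-/

set_option autoImplicit false

open NumberField IsDedekindDomain
open scoped Classical ComplexConjugate

namespace J2N

open CM27 JZ
open CU (la eE)

variable {D : Eis} {M : Type} [Field M] [NumberField M] [Algebra CF.KK M]

theorem c7b_so_alg (c : Cy D M) (x : 𝓞 CF.KK) :
    c.so (algebraMap (𝓞 CF.KK) (𝓞 M) x) = algebraMap (𝓞 CF.KK) (𝓞 M) x := by
  apply RingOfIntegers.ext
  rw [c.so_coe]
  have h : ((algebraMap (𝓞 CF.KK) (𝓞 M) x : 𝓞 M) : M) = algebraMap CF.KK M (x : CF.KK) := rfl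
  rw [h]
  exact c.σ.commutes _

/-- cubic integrality in the integral closure -/
private theorem c7b_int {O K : Type} [CommRing O] [IsDomain O] [IsIntegrallyClosed O] [Field K] [Algebra O K]
    [IsFractionRing O K] (x : K) (a b e : O)
    (h : x ^ 3 + algebraMap O K a * x ^ 2 + algebraMap O K b * x + algebraMap O K e = 0) :
    ∃ y : O, algebraMap O K y = x := by
  apply IsIntegrallyClosed.isIntegral_iff.mp
  refine ⟨Polynomial.X ^ 3 + (Polynomial.C a * Polynomial.X ^ 2 + Polynomial.C b * Polynomial.X + Polynomial.C e), ?_, ?_⟩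
  · apply Polynomial.monic_X_pow_add
    have h1 : (Polynomial.C a * Polynomial.X ^ 2 + Polynomial.C b * Polynomial.X + Polynomial.C e : Polynomial O).degree ≤ 2 :=
      Polynomial.degree_quadratic_le
    refine lt_of_le_of_lt h1 ?_
    norm_num
  · simp only [Polynomial.eval₂_add, Polynomial.eval₂_mul, Polynomial.eval₂_pow, Polynomial.eval₂_X, Polynomial.eval₂_C]
    linear_combination h

/-- [C7b] `θ = (s' - η) / λ` is integral and `θ³ - θ ≡ (d - η) / λ³ mod λ` (in `𝓞 M`). PROOF. `(η + λ θ)³ = d`: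
`θ³ + (3 η / λ) θ² + (3 / λ²) θ = (d - η) / λ³`, `λ² = -3 ω` (`CU.la`: check `la ^ 2 = -3 ω`), so `3 / λ² = - ω²`, `3 / λ = - ω² λ`, `ω² ≡ 1 mod λ`.
And `σ θ ≡ θ + k mod λ`, `k = η (ω - 1) / λ`, a unit of `ℤ[ω]` (`σ θ = (ω s' - η) / λ = ω θ + η (ω - 1) / λ`). -/
theorem exists_theta (c : Cy D M) {d η e : Eis} (s' : 𝓞 M) (hs' : s' ^ 3 = algebraMap (𝓞 CF.KK) (𝓞 M) (eE d))
    (hσ : c.so s' = algebraMap (𝓞 CF.KK) (𝓞 M) (eE CU.om) * s') (hη : η = 1 ∨ η = -1) (hd : d - η = la ^ 3 * e) :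
    ∃ (θ r r' : 𝓞 M) (k : Eis), IsUnit k ∧ θ ^ 3 - θ - algebraMap (𝓞 CF.KK) (𝓞 M) (eE e) = algebraMap (𝓞 CF.KK) (𝓞 M) (eE la) * r ∧
      c.so θ - θ - algebraMap (𝓞 CF.KK) (𝓞 M) (eE k) = algebraMap (𝓞 CF.KK) (𝓞 M) (eE la) * r' := by
  set f : Eis →+* 𝓞 M := (algebraMap (𝓞 CF.KK) (𝓞 M)).comp (eE : Eis ≃+* 𝓞 CF.KK).toRingHom with hf
  have hfx : ∀ x : Eis, algebraMap (𝓞 CF.KK) (𝓞 M) (eE x) = f x := fun x => rfl
  have hsof : ∀ x : Eis, c.so (f x) = f x := fun x => c7b_so_alg c (eE x)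
  simp only [hfx] at hs' hσ ⊢
  have hla0 : (la : Eis) ≠ 0 := by decide
  have hfinj : Function.Injective f := by
    have h1 : Function.Injective (algebraMap (𝓞 CF.KK) (𝓞 M)) := FaithfulSMul.algebraMap_injective _ _
    intro x y hxy
    exact (eE : Eis ≃+* 𝓞 CF.KK).injective (h1 hxy)
  have hfla : f la ≠ 0 := by
    intro h
    exact hla0 (hfinj (by rw [h, map_zero]))
  have hη2 : η ^ 2 = 1 := by rcases hη with h | h <;> subst h <;> decide
  have e1 : f la = 1 - f CU.om := by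
    have : (la : Eis) = 1 - CU.om := by decide
    rw [this, map_sub, map_one]
  have e2 : f CU.om ^ 2 + f CU.om + 1 = 0 := by
    have : (CU.om : Eis) ^ 2 + CU.om + 1 = 0 := by decide
    rw [← map_pow, ← map_add, ← map_one f, ← map_add, this, map_zero]
  have e3 : f η ^ 2 = 1 := by rw [← map_pow, hη2, map_one]
  have e4 : f d = f η + f la ^ 3 * f e := by
    rw [← map_pow, ← map_mul, ← map_add, ← hd]
    congr 1
    ring
  have e5 : f CU.om ^ 2 * f la ^ 2 = -3 := by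
    rw [e1]
    linear_combination (f CU.om ^ 2 - 3 * f CU.om + 3) * e2
  have key : (s' - f η) ^ 3 + (- (f CU.om ^ 2 * f la * f η)) * (s' - f η) ^ 2 * f la
      + (- f CU.om ^ 2) * (s' - f η) * f la ^ 2 + (- f e) * f la ^ 3 = 0 := by
    linear_combination hs' + e4 + (-3 * s' + 2 * f η) * e3 - (f η * (s' - f η) ^ 2 + (s' - f η)) * e5
  -- θ in M
  have hθ : ∃ θ : 𝓞 M, f la * θ = s' - f η := by
    have hne : algebraMap (𝓞 M) M (f la) ≠ 0 := by
      intro h
      apply hfla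
      exact (FaithfulSMul.algebraMap_injective (𝓞 M) M) (by rw [h, map_zero])
    obtain ⟨θ, hθ⟩ := c7b_int (O := 𝓞 M) (K := M) ((algebraMap (𝓞 M) M (s' - f η)) / algebraMap (𝓞 M) M (f la))
      (- (f CU.om ^ 2 * f la * f η)) (- f CU.om ^ 2) (- f e) (by
        have key' := congrArg (algebraMap (𝓞 M) M) key
        simp only [map_add, map_mul, map_pow, map_neg, map_zero] at key' ⊢
        field_simp
        linear_combination key')
    refine ⟨θ, ?_⟩
    apply FaithfulSMul.algebraMap_injective (𝓞 M) M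
    rw [map_mul, hθ]
    field_simp
  obtain ⟨θ, hθ⟩ := hθ
  have hs : s' = f η + f la * θ := by linear_combination -hθ
  have hcub : θ ^ 3 - f CU.om ^ 2 * f la * f η * θ ^ 2 - f CU.om ^ 2 * θ - f e = 0 := by
    have h3 : f la ^ 3 * (θ ^ 3 - f CU.om ^ 2 * f la * f η * θ ^ 2 - f CU.om ^ 2 * θ - f e) = 0 := by
      rw [← hθ] at key
      linear_combination key
    rcases mul_eq_zero.mp h3 with h | h
    · exact absurd (pow_eq_zero_iff (by norm_num) |>.mp h) hfla
    · exact h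
  have hsθ : c.so θ = f CU.om * θ - f η := by
    have h1 : f la * c.so θ = f la * (f CU.om * θ - f η) := by
      have h2 : c.so (f la * θ) = c.so (s' - f η) := by rw [hθ]
      rw [map_mul, map_sub, hsof, hsof, hσ] at h2
      rw [h2, hs, e1]
      ring
    exact mul_left_cancel₀ hfla h1
  refine ⟨θ, f CU.om ^ 2 * f η * θ ^ 2 + f CU.om ^ 2 * θ, - θ, - η, ?_, ?_, ?_⟩
  · rcases hη with h | h <;> subst h <;> simp
  · linear_combination hcub + θ * (f CU.om - 1) * e2 - f CU.om ^ 2 * θ * e1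
  · rw [hsθ, map_neg, e1]
    ring

end J2N
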