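import Pool.Agent.J2N.C7b

/-!
# [J2N-C7c]
-/

set_option autoImplicit false

open NumberField IsDedekindDomain
open scoped Classical ComplexConjugate

namespace J2N

open CM27 JZ
open CU (la eE)

variable {D : Eis} {M : Type} [Field M] [NumberField M] [Algebra CF.KK M]

/-- [C7c] PROOF. `λ ∣ e`: `θ (θ - 1)(θ + 1) ∈ P`; if `P` is the only prime over `v`, then with `θ - i` also `σ θ - i`, so `k ∈ P` (`stable`): no. -/
theorem splitL_of (c : Cy D M) {d η : Eis} (s' : 𝓞 M) (hs' : s' ^ 3 = algebraMap (𝓞 CF.KK) (𝓞 M) (eE d))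
    (hσ : c.so s' = algebraMap (𝓞 CF.KK) (𝓞 M) (eE CU.om) * s') (hη : η = 1 ∨ η = -1) (hd : la ^ 4 ∣ d - η)
    {v : HeightOneSpectrum (𝓞 CF.KK)} (hv : v.asIdeal = Ideal.span {eE la}) : DSplit M v := by
  obtain ⟨x, hx⟩ := hd
  obtain ⟨θ, r, r', k, hk, h1, h2⟩ := exists_theta c s' hs' hσ hη (e := la * x) (by rw [hx]; ring)
  have aux : ∀ P : HeightOneSpectrum (𝓞 M), ¬ (∀ R, Ov v R ↔ R = P) := by
    intro P hP
    have hOv : Ov v P := (hP P).mpr rfl
    have hla : algebraMap (𝓞 CF.KK) (𝓞 M) (eE la) ∈ P.asIdeal := by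
      have h3 : eE la ∈ v.asIdeal := by rw [hv]; exact Ideal.mem_span_singleton_self _
      rw [← hOv] at h3
      exact h3
    have hprime := P.isPrime
    have hcub : θ * ((θ - 1) * (θ + 1)) ∈ P.asIdeal := by
      have h4 : θ * ((θ - 1) * (θ + 1)) = algebraMap (𝓞 CF.KK) (𝓞 M) (eE la) * (r + algebraMap (𝓞 CF.KK) (𝓞 M) (eE x)) := by
        rw [map_mul, map_mul] at h1
        linear_combination h1
      rw [h4]
      exact P.asIdeal.mul_mem_right _ hla
    have hex : ∃ i : ℤ, θ - (i : 𝓞 M) ∈ P.asIdeal := by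
      rcases hprime.mem_or_mem hcub with h | h
      · exact ⟨0, by simpa using h⟩
      · rcases hprime.mem_or_mem h with h | h
        · exact ⟨1, by simpa using h⟩
        · exact ⟨-1, by simpa using h⟩
    obtain ⟨i, hi⟩ := hex
    have hi2 := stable c hP hi
    rw [map_sub, map_intCast] at hi2
    have hkP : algebraMap (𝓞 CF.KK) (𝓞 M) (eE k) ∈ P.asIdeal := by
      have h5 : algebraMap (𝓞 CF.KK) (𝓞 M) (eE k) = (c.so θ - (i : 𝓞 M)) - (θ - (i : 𝓞 M))
          - algebraMap (𝓞 CF.KK) (𝓞 M) (eE la) * r' := by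
        linear_combination -h2
      rw [h5]
      exact P.asIdeal.sub_mem (P.asIdeal.sub_mem hi2 hi) (P.asIdeal.mul_mem_right _ hla)
    have hu : IsUnit (algebraMap (𝓞 CF.KK) (𝓞 M) (eE k)) := (hk.map (eE : Eis ≃+* 𝓞 CF.KK)).map _
    exact hprime.ne_top (Ideal.eq_top_of_isUnit_mem _ hkP hu)
  rcases tri c v with h | h | h
  · exact h
  · obtain ⟨P, hP, _⟩ := h
    exact absurd hP (aux P)
  · obtain ⟨P, hP, _⟩ := h
    exact absurd hP (aux P)

end J2N
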