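import Pool.Agent.J2N.C7b

/-!
# [J2N-C7d]
-/

set_option autoImplicit false

open NumberField IsDedekindDomain
open scoped Classical ComplexConjugate

namespace J2N

open CM27 JZ
open CU (la eE)

variable {D : Eis} {M : Type} [Field M] [NumberField M] [Algebra CF.KK M]

/-- Fermat modulo `λ` -/
private theorem c7d_fermat (y : Eis) : la ∣ y ^ 3 - y := by
  obtain ⟨a, b⟩ := y
  have h1 : (⟨a, b⟩ : Eis) = ((a + b : ℤ) : Eis) - (b : Eis) * la := by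
    ext <;> simp [la]
  have h2 : (3 : ℤ) ∣ (a + b) ^ 3 - (a + b) := by
    have : Fact (Nat.Prime 3) := ⟨Nat.prime_three⟩
    refine (ZMod.intCast_zmod_eq_zero_iff_dvd ((a + b) ^ 3 - (a + b)) 3).mp ?_
    push_cast
    have h := ZMod.pow_card ((a : ZMod 3) + (b : ZMod 3))
    rw [h, sub_self]
  have h3 : la ∣ ((a + b : ℤ) : Eis) ^ 3 - ((a + b : ℤ) : Eis) := by
    obtain ⟨k, hk⟩ := h2
    have h4 : ((a + b : ℤ) : Eis) ^ 3 - ((a + b : ℤ) : Eis) = (3 : Eis) * (k : Eis) := by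
      have := congrArg (fun z : ℤ => (z : Eis)) hk
      push_cast at this ⊢
      exact this
    rw [h4, CU.three_eq]
    exact ⟨-CU.om ^ 2 * la * k, by ring⟩
  rw [h1]
  have h5 : (((a + b : ℤ) : Eis) - (b : Eis) * la) ^ 3 - (((a + b : ℤ) : Eis) - (b : Eis) * la) =
      (((a + b : ℤ) : Eis) ^ 3 - ((a + b : ℤ) : Eis)) + la * (- 3 * ((a + b : ℤ) : Eis) ^ 2 * b +
        3 * ((a + b : ℤ) : Eis) * b ^ 2 * la - b ^ 3 * la ^ 2 + b) := by ring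
  rw [h5]
  exact dvd_add h3 (Dvd.intro _ rfl)

private theorem c7d_aux (c : Cy D M) {d η : Eis} (s' : 𝓞 M) (hs' : s' ^ 3 = algebraMap (𝓞 CF.KK) (𝓞 M) (eE d))
    (hσ : c.so s' = algebraMap (𝓞 CF.KK) (𝓞 M) (eE CU.om) * s') (hη : η = 1 ∨ η = -1) (hd : la ^ 3 ∣ d - η) (hd4 : ¬ la ^ 4 ∣ d - η)
    {v : HeightOneSpectrum (𝓞 CF.KK)} (hv : v.asIdeal = Ideal.span {eE la}) {P : HeightOneSpectrum (𝓞 M)}
    (hP : Ov v P) (hN : Ideal.absNorm P.asIdeal = Ideal.absNorm v.asIdeal) : False := by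
  obtain ⟨e, he⟩ := hd
  obtain ⟨θ, r, r', k, -, h1, -⟩ := exists_theta c s' hs' hσ hη he
  obtain ⟨y, hy⟩ := deg_one hP hN θ
  have hla : algebraMap (𝓞 CF.KK) (𝓞 M) (eE la) ∈ P.asIdeal := by
    have h2 : eE la ∈ v.asIdeal := by
      rw [hv]
      exact Ideal.mem_span_singleton_self _
    rw [← hP] at h2
    exact h2
  have h3 : θ ^ 3 - (algebraMap (𝓞 CF.KK) (𝓞 M) y) ^ 3 ∈ P.asIdeal := by
    have h2 : θ ^ 3 - (algebraMap (𝓞 CF.KK) (𝓞 M) y) ^ 3 =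
        (θ - algebraMap (𝓞 CF.KK) (𝓞 M) y) *
          (θ ^ 2 + θ * algebraMap (𝓞 CF.KK) (𝓞 M) y + (algebraMap (𝓞 CF.KK) (𝓞 M) y) ^ 2) := by ring
    rw [h2]
    exact P.asIdeal.mul_mem_right _ hy
  have h4 : θ ^ 3 - θ - algebraMap (𝓞 CF.KK) (𝓞 M) (eE e) ∈ P.asIdeal := by
    rw [h1]
    exact P.asIdeal.mul_mem_right _ hla
  have h5 : algebraMap (𝓞 CF.KK) (𝓞 M) (y ^ 3 - y - eE e) ∈ P.asIdeal := by
    have h6 : algebraMap (𝓞 CF.KK) (𝓞 M) (y ^ 3 - y - eE e) =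
        (θ ^ 3 - θ - algebraMap (𝓞 CF.KK) (𝓞 M) (eE e)) -
          (θ ^ 3 - (algebraMap (𝓞 CF.KK) (𝓞 M) y) ^ 3) + (θ - algebraMap (𝓞 CF.KK) (𝓞 M) y) := by
      rw [map_sub, map_sub, map_pow]
      ring
    rw [h6]
    exact P.asIdeal.add_mem (P.asIdeal.sub_mem h4 h3) hy
  have h7 : y ^ 3 - y - eE e ∈ v.asIdeal := by
    rw [← hP]
    exact h5
  rw [hv, Ideal.mem_span_singleton] at h7
  have h8 : eE la ∣ eE ((eE.symm y) ^ 3 - eE.symm y - e) := by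
    rw [map_sub, map_sub, map_pow, RingEquiv.apply_symm_apply]
    exact h7
  have h9 : la ∣ (eE.symm y) ^ 3 - eE.symm y - e := (map_dvd_iff eE).mp h8
  have h10 : la ∣ e := by
    have h11 := dvd_sub (c7d_fermat (eE.symm y)) h9
    rwa [sub_sub_cancel] at h11
  apply hd4
  rw [he, pow_succ]
  exact mul_dvd_mul_left _ h10

/-- [C7d] PROOF. Otherwise (`tri`) a `P` of degree one, `θ ≡ y mod P` (`deg_one`), `y³ - y ≡ 0 mod λ` for every `y ∈ ℤ[ω]`, so `e ∈ P`, `λ ∣ e`. -/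
theorem inertL_of (c : Cy D M) {d η : Eis} (s' : 𝓞 M) (hs' : s' ^ 3 = algebraMap (𝓞 CF.KK) (𝓞 M) (eE d))
    (hσ : c.so s' = algebraMap (𝓞 CF.KK) (𝓞 M) (eE CU.om) * s') (hη : η = 1 ∨ η = -1) (hd : la ^ 3 ∣ d - η) (hd4 : ¬ la ^ 4 ∣ d - η)
    {v : HeightOneSpectrum (𝓞 CF.KK)} (hv : v.asIdeal = Ideal.span {eE la}) : DInert M v := by
  rcases tri c v with h | h | h
  · obtain ⟨P, Q, T, -, -, -, h1, h2, -, -⟩ := h
    exact (c7d_aux c s' hs' hσ hη hd hd4 hv ((h1 P).mpr (Or.inl rfl)) h2).elim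
  · obtain ⟨P, h1, h2, -⟩ := h
    exact (c7d_aux c s' hs' hσ hη hd hd4 hv ((h1 P).mpr rfl) h2).elim
  · exact h

end J2N
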