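import Pool.Agent.J2N.C6a
import Pool.Agent.J2N.C6c
import Pool.Agent.J2N.C6d
import Pool.Agent.J2N.C7a
import Pool.Agent.J2N.C7c
import Pool.Agent.J2N.C7d

/-!
# [J2N-C8a]
-/

set_option autoImplicit false

open NumberField IsDedekindDomain
open scoped Classical ComplexConjugate

namespace J2N

open CM27 JZ
open CU (la eE)
open J2L (Cub LC)

variable {D : Eis} {M : Type} [Field M] [NumberField M] [Algebra CF.KK M]

theorem c8a_split {q : Eis} (hq : Prime q) (hD : D ≠ 0) : ∃ (n : ℕ) (d : Eis), D = q ^ n * d ∧ ¬ q ∣ d := by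
  have := CM27.eis_isDomain
  have := CM27.eis_pid
  exact ⟨_, (FiniteMultiplicity.of_not_isUnit hq.not_isUnit hD).exists_eq_pow_mul_and_not_dvd⟩

theorem c8a_zero (C : Cub D) {q : Eis} (hq : Prime q) (h : q ∣ C.g) : C.kp q = 0 := by
  apply C.kp_zero
  intro h1
  exact hq.not_isUnit (h1.isUnit_of_dvd' dvd_rfl h)

theorem c8a_ne (C : Cub D) {q : Eis} (hq : Prime q) (h : ¬ q ∣ C.g) : C.kp q ≠ 0 := by
  have := CM27.eis_isDomain
  have := CM27.eis_pid
  obtain ⟨i, hi⟩ := C.kp_cube q (hq.coprime_iff_not_dvd.2 h)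
  rw [hi]
  exact CUL.zw_ne i

/-- the law at `λ` -/
theorem c8a_la (c : Cy D M) (C : Cub D) (hD : D ≠ 0)
    {v : HeightOneSpectrum (𝓞 CF.KK)} (hv : v.asIdeal = Ideal.span {eE la}) :
    (C.kp la = 0 → DRam M v) ∧ (C.kp la = 1 → DSplit M v) ∧ (C.kp la ≠ 0 → C.kp la ≠ 1 → DInert M v) := by
  obtain ⟨n, d, hDn, hd⟩ := c8a_split CU.la_prime hD
  obtain ⟨hr1, hr2⟩ := C.ramL d n hDn hd
  by_cases h3 : 3 ∣ n
  · obtain ⟨m, rfl⟩ := h3
    obtain ⟨s', -, hs', hσ⟩ := exists_root c (p := la) (d := d) (m := m) CU.la_prime.ne_zero hDn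
    by_cases he : ∃ η : Eis, (η = 1 ∨ η = -1) ∧ la ^ 3 ∣ d - η
    · have hg : ¬ la ∣ C.g := by
        rw [hr1, not_not]; exact ⟨dvd_mul_right _ _, he⟩
      have hne := c8a_ne C CU.la_prime hg
      have h4 := hr2 (dvd_mul_right _ _) he
      refine ⟨fun h => absurd h hne, fun h => ?_, fun _ h => ?_⟩
      · obtain ⟨η, hη, hη4⟩ := h4.1 h
        exact splitL_of c s' hs' hσ hη hη4 hv
      · obtain ⟨η, hη, hη3⟩ := he
        refine inertL_of c s' hs' hσ hη hη3 (fun h5 => h (h4.2 ⟨η, hη, h5⟩)) hv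
    · have hg : la ∣ C.g := by
        rw [hr1]; intro h5; exact he h5.2
      have h0 := c8a_zero C CU.la_prime hg
      refine ⟨fun _ => ramL_of c hd s' hs' he hv, fun h => ?_, fun h => absurd h0 h⟩
      rw [h0] at h; exact absurd h zero_ne_one
  · have hg : la ∣ C.g := by
      rw [hr1]; intro h5; exact h3 h5.1
    have h0 := c8a_zero C CU.la_prime hg
    refine ⟨fun _ => ram_of c CU.la_prime hDn hd h3 hv, fun h => ?_, fun h => absurd h0 h⟩
    rw [h0] at h; exact absurd h zero_ne_one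

/-- [C8] the decomposition law. PROOF. `q` not over `3`: `D = q^n d`, `q ∤ d` (`exists_eq_pow_mul_and_not_dvd` or multiplicity, `D ≠ 0`), `C.ram`:
`3 ∤ n`: `q ∣ g`, `kp q = 0` (`kp_zero`), `ram_of`; `3 ∣ n`: `q ∤ g`, so `kp q ≠ 0` (`kp_cube`; `IsCoprime`: `Q`'s are irreducible), `kp q = 1` iff `d` is a cube modulo `q`
(`split_of`, `inert_of`). `q ∣ 3`: `q = u λ`, `kp q = kp λ` (`kp_mul`, `kp_unit`), `C.ramL`, `ram_of` (any prime), `ramL_of`, `splitL_of`, `inertL_of` with `s'` from `exists_root`. -/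
theorem law (c : Cy D M) (C : Cub D) (hD : D ≠ 0) {q : Eis} (hq : Prime q)
    {v : HeightOneSpectrum (𝓞 CF.KK)} (hv : v.asIdeal = Ideal.span {eE q}) :
    (C.kp q = 0 → DRam M v) ∧ (C.kp q = 1 → DSplit M v) ∧ (C.kp q ≠ 0 → C.kp q ≠ 1 → DInert M v) := by
  have := CM27.eis_isDomain
  have := CM27.eis_pid
  by_cases hq3 : q ∣ 3
  · have hla : q ∣ la := by
      rw [CU.three_eq] at hq3
      rcases hq.dvd_or_dvd hq3 with h | h
      · exfalso
        apply hq.not_isUnit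
        apply isUnit_of_dvd_unit h
        have h1 : (-CU.om ^ 2 : Eis) * (-CU.om) = 1 := by decide
        exact IsUnit.of_mul_eq_one _ h1
      · exact hq.dvd_of_dvd_pow h
    have has : Associated q la := (hq.dvd_prime_iff_associated CU.la_prime).1 hla
    obtain ⟨u, hu⟩ := has
    have hk : C.kp la = C.kp q := by
      rw [← hu, C.kp_mul, C.kp_unit _ u.isUnit, mul_one]
    have hv' : v.asIdeal = Ideal.span {eE la} := by
      rw [hv, Ideal.span_singleton_eq_span_singleton]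
      refine ⟨Units.map (eE : Eis →* 𝓞 CF.KK) u, ?_⟩
      rw [← hu, map_mul]
      rfl
    rw [← hk]
    exact c8a_la c C hD hv'
  · obtain ⟨n, d, hDn, hd⟩ := c8a_split hq hD
    obtain ⟨hr1, hr2⟩ := C.ram q d n hq hq3 hDn hd
    by_cases h3 : 3 ∣ n
    · have hg : ¬ q ∣ C.g := by
        rw [hr1, not_not]; exact h3
      have h4 := hr2 h3
      have hne := c8a_ne C hq hg
      obtain ⟨m, rfl⟩ := h3
      refine ⟨fun h => absurd h hne, fun h => ?_, fun _ h => ?_⟩
      · obtain ⟨y, hy⟩ := h4.1 h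
        exact split_of c hq hq3 hDn hd hy hv
      · exact inert_of c hq hDn hd (fun h5 => h (h4.2 h5)) hv
    · have hg : q ∣ C.g := hr1.2 h3
      have h0 := c8a_zero C hq hg
      refine ⟨fun _ => ram_of c hq hDn hd h3 hv, fun h => ?_, fun h => absurd h0 h⟩
      rw [h0] at h; exact absurd h zero_ne_one

end J2N
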