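import Pool.Agent.J2N.A

/-!
# [J2N-C8b]
-/

set_option autoImplicit false

open NumberField IsDedekindDomain
open scoped Classical ComplexConjugate

namespace J2N

open CM27 JZ
open CU (la eE)
open J2L (Cub LC)

variable {D : Eis} {M : Type} [Field M] [NumberField M] [Algebra CF.KK M]

/-- [C8b] at `2`: `kp 2 = 0` iff `2 ∣ g` iff `3 ∤ v₂(D)`. -/
theorem two_dvd_g (C : Cub D) {n : ℕ} {d : Eis} (hD : D = 2 ^ n * d) (hd : ¬ (2 : Eis) ∣ d) : (2 : Eis) ∣ C.g ↔ ¬ 3 ∣ n := by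
  refine (C.ram 2 d n Q3.prime_two ?_ hD hd).1
  intro h
  have h1 : (2 : Eis) ∣ 1 := by
    have h2 : (1 : Eis) = 3 - 2 := by norm_num
    rw [h2]
    exact dvd_sub h (dvd_refl 2)
  exact Q3.prime_two.not_isUnit (isUnit_of_dvd_one h1)

end J2N
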