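import Pool.Agent.J2N.A

/-!
# [J2N-E0a]
-/

set_option autoImplicit false

open NumberField IsDedekindDomain
open scoped Classical ComplexConjugate

namespace J2N

open CM27 JZ
open CU (eE)
open J2L (Cub LC)

variable {D : Eis}

/-- `kp` of a generator -/
noncomputable def kI (C : Cub D) (I : Ideal (𝓞 CF.KK)) : ℂ :=
  if h : ∃ b : Eis, I = Ideal.span {eE b} then C.kp h.choose else 0

theorem e0a_one (C : Cub D) : C.kp 1 = 1 := C.kp_unit 1 isUnit_one

theorem e0a_cop0 (C : Cub D) : ¬ IsCoprime (0 : Eis) C.g := by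
  intro h
  have hu : IsUnit C.g := isCoprime_zero_left.1 h
  obtain ⟨x, -, hx⟩ := C.kp_non
  apply hx
  rw [C.kp_per x 1 (hu.dvd), e0a_one]

theorem e0a_zero (C : Cub D) : C.kp 0 = 0 := C.kp_zero 0 (e0a_cop0 C)

theorem kI_span (C : Cub D) (b : Eis) : kI C (Ideal.span {eE b}) = C.kp b := by
  have h : ∃ b' : Eis, (Ideal.span {eE b} : Ideal (𝓞 CF.KK)) = Ideal.span {eE b'} := ⟨b, rfl⟩
  have h1 : Associated (eE b) (eE h.choose) := Ideal.span_singleton_eq_span_singleton.1 h.choose_spec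
  obtain ⟨u, hu⟩ := h1
  have h2 : h.choose = b * eE.symm (u : 𝓞 CF.KK) := by
    apply eE.injective
    rw [map_mul, eE.apply_symm_apply, hu]
  have h3 : IsUnit (eE.symm (u : 𝓞 CF.KK)) := u.isUnit.map eE.symm
  unfold kI
  rw [dif_pos h, h2, C.kp_mul, C.kp_unit _ h3, mul_one]

theorem kI_mul (C : Cub D) (I J : Ideal (𝓞 CF.KK)) : kI C (I * J) = kI C I * kI C J := by
  obtain ⟨a, rfl⟩ := JL.n3b_gen I
  obtain ⟨b, rfl⟩ := JL.n3b_gen J
  rw [Ideal.span_singleton_mul_span_singleton, ← map_mul, kI_span, kI_span, kI_span, C.kp_mul]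

theorem kI_bot (C : Cub D) : kI C ⊥ = 0 := by
  have h1 : (⊥ : Ideal (𝓞 CF.KK)) = Ideal.span {eE 0} := by
    rw [map_zero, Ideal.span_singleton_eq_bot.2 rfl]
  rw [h1, kI_span, e0a_zero]

theorem kI_one (C : Cub D) : kI C 1 = 1 := by
  have h1 : (1 : Ideal (𝓞 CF.KK)) = Ideal.span {eE 1} := by
    rw [map_one, Ideal.span_singleton_one, Ideal.one_eq_top]
  rw [h1, kI_span, e0a_one]

/-- `kp` as a multiplicative map on ideals -/
noncomputable def kh (C : Cub D) : Ideal (𝓞 CF.KK) →*₀ ℂ where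
  toFun := kI C
  map_zero' := kI_bot C
  map_one' := kI_one C
  map_mul' := kI_mul C

/-- the conjugate -/
noncomputable def kc (C : Cub D) : Ideal (𝓞 CF.KK) →*₀ ℂ where
  toFun I := conj (kI C I)
  map_zero' := by
    have h := kI_bot C
    show conj (kI C ⊥) = 0
    rw [h, map_zero]
  map_one' := by rw [kI_one, map_one]
  map_mul' I J := by rw [kI_mul, map_mul]

theorem e0a_cases (C : Cub D) (x : Eis) : C.kp x = 0 ∨ ∃ i : ZMod 3, C.kp x = CUL.zw i := by
  by_cases h : IsCoprime x C.g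
  · exact Or.inr (C.kp_cube x h)
  · exact Or.inl (C.kp_zero x h)

theorem kI_le (C : Cub D) (I : Ideal (𝓞 CF.KK)) : ‖kI C I‖ ≤ (Ideal.absNorm I : ℝ) ^ (0 : ℝ) := by
  rw [Real.rpow_zero]
  obtain ⟨b, rfl⟩ := JL.n3b_gen I
  rw [kI_span]
  rcases e0a_cases C b with h | ⟨i, h⟩
  · rw [h, norm_zero]
    exact zero_le_one
  · rw [h, CUL.zw_norm]

/-- the values -/
theorem kp_cases (C : Cub D) (x : Eis) : C.kp x = 0 ∨ C.kp x ^ 3 = 1 := by
  rcases e0a_cases C x with h | ⟨i, h⟩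
  · exact Or.inl h
  · right
    rw [h, CUL.zw_pow]
    have h3 : ((3 : ℕ) : ZMod 3) = 0 := ZMod.natCast_self 3
    rw [h3, zero_mul, CUL.zw_zero]

end J2N
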