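import Pool.Agent.J2N.E0a

/-!
# [J2N-E0b]
-/

set_option autoImplicit false

open NumberField IsDedekindDomain
open scoped Classical ComplexConjugate

namespace J2N

open CM27 JZ
open CU (eE)
open J2L (Cub LC)

variable {D : Eis}

/-- `∑_I kI(I) N(I)^(-σ) = LC C σ` (model `n3_LJ_ideals`) -/
theorem LC_ideals (C : Cub D) {σ : ℝ} (hσ : 1 < σ) :
    ∑' I : Ideal (𝓞 CF.KK), kI C I * (Ideal.absNorm I : ℂ) ^ (-(σ : ℂ)) = LC C σ := by
  obtain ⟨hsum, -, -⟩ := TR.lseries_idA CF.KK (kI C) 0 le_rfl (kI_le C)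
    (s := (σ : ℂ)) (by simpa using hσ)
  have hGbot : kI C ⊥ * (Ideal.absNorm (⊥ : Ideal (𝓞 CF.KK)) : ℂ) ^ (-(σ : ℂ)) = 0 := by
    rw [kI_bot, zero_mul]
  have hmain := JL.n3b_tsum
    (fun I : Ideal (𝓞 CF.KK) => kI C I * (Ideal.absNorm I : ℂ) ^ (-(σ : ℂ))) hGbot hsum
  have hLJ : LC C σ = (1 / 6) * ∑' b : Eis,
      (kI C (Ideal.span {eE b}) * (Ideal.absNorm (Ideal.span {eE b}) : ℂ) ^ (-(σ : ℂ))) := by
    unfold J2L.LC
    congr 1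
    refine tsum_congr fun b => ?_
    rw [kI_span, CUL.l6_absNorm,
      Complex.ofReal_cpow (by exact_mod_cast CM27.norm_nonneg' b)]
    have h1 : ((b.norm.natAbs : ℕ) : ℤ) = b.norm := Int.natAbs_of_nonneg (CM27.norm_nonneg' b)
    have h2 : ((b.norm : ℤ) : ℝ) = ((b.norm.natAbs : ℕ) : ℝ) := by
      conv_lhs => rw [← h1]
      exact Int.cast_natCast _
    rw [h2, Complex.ofReal_natCast, Complex.ofReal_neg]
  rw [hLJ, hmain]
  ring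

theorem e0b_conj (I : Ideal (𝓞 CF.KK)) (σ : ℝ) :
    conj ((Ideal.absNorm I : ℂ) ^ (-(σ : ℂ))) = (Ideal.absNorm I : ℂ) ^ (-(σ : ℂ)) := by
  have h : (Ideal.absNorm I : ℂ) ^ (-(σ : ℂ)) = (((Ideal.absNorm I : ℝ) ^ (-σ) : ℝ) : ℂ) := by
    rw [Complex.ofReal_cpow (Nat.cast_nonneg _), Complex.ofReal_natCast, Complex.ofReal_neg]
  rw [h, Complex.conj_ofReal]

theorem LC_ideals_conj (C : Cub D) {σ : ℝ} (hσ : 1 < σ) :
    ∑' I : Ideal (𝓞 CF.KK), conj (kI C I) * (Ideal.absNorm I : ℂ) ^ (-(σ : ℂ)) = conj (LC C σ) := by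
  rw [← LC_ideals C hσ, Complex.conj_tsum]
  refine tsum_congr fun I => ?_
  rw [map_mul, e0b_conj]

end J2N
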