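import Pool.Agent.J2N.E0a
import Pool.Agent.J2N.C8a

/-!
# [J2N-E1]
-/

set_option autoImplicit false

open NumberField IsDedekindDomain
open scoped Classical ComplexConjugate

namespace J2N

open CM27 JZ
open CU (eE)
open J2L (Cub LC)

variable {D : Eis} {M : Type} [Field M] [NumberField M] [Algebra CF.KK M]

/-- [E1] PROOF as `n3_fiber`: `JL.n3b_prime v`, `law`, `kp q = 0`: `1 - X^k`; `kp q = 1`: `(1 - X^k)^3`; else `1 - X^(3k) = (1 - X^k)(1 - ω X^k)(1 - ω² X^k)`. -/
theorem fiber (c : Cy D M) (C : Cub D) (hD : D ≠ 0) {p : ℕ} (v : HeightOneSpectrum (𝓞 CF.KK))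
    (F : Finset (HeightOneSpectrum (𝓞 M))) (hF : ∀ P, P ∈ F ↔ TR.a7a_pi (L := CF.KK) P = v) :
    (∏ P ∈ F, (1 - PowerSeries.C (TR.oneI M P.asIdeal) *
      PowerSeries.X ^ ((Ideal.absNorm P.asIdeal).factorization p) : PowerSeries ℂ)) =
    (1 - PowerSeries.C (TR.oneI CF.KK v.asIdeal) *
        PowerSeries.X ^ ((Ideal.absNorm v.asIdeal).factorization p)) *
      ((1 - PowerSeries.C (kh C v.asIdeal) *
        PowerSeries.X ^ ((Ideal.absNorm v.asIdeal).factorization p)) *
      (1 - PowerSeries.C (kc C v.asIdeal) *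
        PowerSeries.X ^ ((Ideal.absNorm v.asIdeal).factorization p))) := by
  classical
  have hpi : ∀ P : HeightOneSpectrum (𝓞 M), TR.a7a_pi (L := CF.KK) P = v ↔ Ov v P := by
    intro P
    constructor
    · intro h
      rw [← h]
      rfl
    · intro h
      exact HeightOneSpectrum.ext h
  have hM : ∀ P : HeightOneSpectrum (𝓞 M), TR.oneI M P.asIdeal = 1 := fun P => if_neg P.ne_bot
  have hL : TR.oneI CF.KK v.asIdeal = 1 := if_neg v.ne_bot
  simp only [hM, hL, map_one, one_mul]
  set k := (Ideal.absNorm v.asIdeal).factorization p with hk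
  obtain ⟨q, hq, hqv, hqs⟩ := JL.n3b_prime v
  have hval : kh C v.asIdeal = C.kp q := by
    have h1 : kh C v.asIdeal = kI C v.asIdeal := rfl
    rw [h1, hqs, kI_span]
  have hval' : kc C v.asIdeal = conj (C.kp q) := by
    have h1 : kc C v.asIdeal = conj (kI C v.asIdeal) := rfl
    rw [h1, hqs, kI_span]
  rw [hval, hval']
  have hone : ∀ P : HeightOneSpectrum (𝓞 M), (∀ R, Ov v R ↔ R = P) → F = {P} := by
    intro P hR
    ext R
    rw [hF, hpi, hR, Finset.mem_singleton]
  obtain ⟨l1, l2, l3⟩ := law c C hD hq hqs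
  rcases e0a_cases C q with h0 | ⟨i, hi⟩
  · obtain ⟨P, hR, hP, -⟩ := l1 h0
    rw [hone P hR, Finset.prod_singleton, hP, h0, ← hk]
    simp
  · by_cases h1 : C.kp q = 1
    · obtain ⟨P, Q, T, hPQ, hPT, hQT, hR, hP, hQ, hT⟩ := l2 h1
      have hFR : F = {P, Q, T} := by
        ext R
        rw [hF, hpi, hR, Finset.mem_insert, Finset.mem_insert, Finset.mem_singleton]
      have hP' : P ∉ ({Q, T} : Finset (HeightOneSpectrum (𝓞 M))) := by
        rw [Finset.mem_insert, Finset.mem_singleton, not_or]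
        exact ⟨hPQ, hPT⟩
      rw [hFR, Finset.prod_insert hP', Finset.prod_pair hQT, hP, hQ, hT, ← hk, h1]
      simp
    · have h0 : C.kp q ≠ 0 := by
        rw [hi]
        exact CUL.zw_ne i
      obtain ⟨P, hR, hP⟩ := l3 h0 h1
      have h3 : C.kp q ^ 3 = 1 := (kp_cases C q).resolve_left h0
      have h4 : C.kp q * conj (C.kp q) = 1 := by
        rw [Complex.mul_conj, Complex.normSq_eq_norm_sq, hi, CUL.zw_norm]
        norm_num
      have h5 : conj (C.kp q) = C.kp q ^ 2 := by
        linear_combination C.kp q ^ 2 * h4 - conj (C.kp q) * h3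
      have h6 : C.kp q ^ 2 + C.kp q + 1 = 0 := by
        have h7 : (C.kp q - 1) * (C.kp q ^ 2 + C.kp q + 1) = 0 := by linear_combination h3
        exact (mul_eq_zero.1 h7).resolve_left (sub_ne_zero.2 h1)
      rw [hone P hR, Finset.prod_singleton, hP, Nat.factorization_pow, h5]
      simp only [Finsupp.smul_apply, smul_eq_mul, ← hk]
      have h8 : (PowerSeries.C (C.kp q) ^ 2 + PowerSeries.C (C.kp q) + 1 : PowerSeries ℂ) = 0 := by
        rw [← map_pow, ← map_add, ← map_one (PowerSeries.C (R := ℂ)), ← map_add, h6, map_zero]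
      have h9 : (PowerSeries.C (C.kp q) ^ 3 : PowerSeries ℂ) = 1 := by
        rw [← map_pow, h3, map_one]
      rw [map_pow]
      rw [pow_mul' (PowerSeries.X : PowerSeries ℂ) 3 k]
      generalize (PowerSeries.X ^ k : PowerSeries ℂ) = Y
      generalize (PowerSeries.C (C.kp q) : PowerSeries ℂ) = κ at h8 h9
      linear_combination (Y - Y ^ 2) * h8 + (-Y ^ 2 + Y ^ 3) * h9

end J2N
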