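import Pool.Agent.J2N.E1

/-!
# [J2N-E2]
-/

set_option autoImplicit false

open NumberField IsDedekindDomain
open scoped Classical ComplexConjugate

namespace J2N

open CM27 JZ
open CU (eE)
open J2L (Cub LC)

variable {D : Eis} {M : Type} [Field M] [NumberField M] [Algebra CF.KK M]

theorem e2_loc (c : Cy D M) (C : Cub D) (hD : D ≠ 0) {p : ℕ} (hp : p.Prime) :
    CM27.loc p (TR.idA M (TR.oneI M)) =
      CM27.loc p (TR.idA CF.KK (TR.oneI CF.KK)) *
        (CM27.loc p (TR.idA CF.KK (kh C)) * CM27.loc p (TR.idA CF.KK (kc C))) := by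
  classical
  set S : Finset (HeightOneSpectrum (𝓞 CF.KK)) := (TR.a7a_fin CF.KK hp).toFinset with hS
  set T : Finset (HeightOneSpectrum (𝓞 M)) := (TR.a7a_fin M hp).toFinset with hT
  have hS' : ∀ v : HeightOneSpectrum (𝓞 CF.KK), v ∈ S ↔ (p : 𝓞 CF.KK) ∈ v.asIdeal := by
    intro v; simp [hS]
  have hT' : ∀ v : HeightOneSpectrum (𝓞 M), v ∈ T ↔ (p : 𝓞 M) ∈ v.asIdeal := by
    intro v; simp [hT]
  have e0 := TR.loc_idA M (TR.oneI M) hp T hT' (fun v => (Ideal.absNorm v.asIdeal).factorization p)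
    (fun v hv => TR.a7a_norm M hp v ((hT' v).1 hv))
  have e1 := TR.loc_idA CF.KK (TR.oneI CF.KK) hp S hS'
    (fun v => (Ideal.absNorm v.asIdeal).factorization p)
    (fun v hv => TR.a7a_norm CF.KK hp v ((hS' v).1 hv))
  have e2 := TR.loc_idA CF.KK (kh C) hp S hS'
    (fun v => (Ideal.absNorm v.asIdeal).factorization p)
    (fun v hv => TR.a7a_norm CF.KK hp v ((hS' v).1 hv))
  have e4 := TR.loc_idA CF.KK (kc C) hp S hS'
    (fun v => (Ideal.absNorm v.asIdeal).factorization p)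
    (fun v hv => TR.a7a_norm CF.KK hp v ((hS' v).1 hv))
  have hmem : ∀ P : HeightOneSpectrum (𝓞 M), (p : 𝓞 M) ∈ P.asIdeal ↔
      (p : 𝓞 CF.KK) ∈ (TR.a7a_pi (L := CF.KK) P).asIdeal := by
    intro P
    change _ ↔ (p : 𝓞 CF.KK) ∈ P.asIdeal.comap (algebraMap (𝓞 CF.KK) (𝓞 M))
    rw [Ideal.mem_comap, map_natCast]
  have e3 : (∏ P ∈ T, (1 - PowerSeries.C (TR.oneI M P.asIdeal) *
      PowerSeries.X ^ ((Ideal.absNorm P.asIdeal).factorization p) : PowerSeries ℂ)) =
      (∏ v ∈ S, (1 - PowerSeries.C (TR.oneI CF.KK v.asIdeal) *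
        PowerSeries.X ^ ((Ideal.absNorm v.asIdeal).factorization p))) *
      ((∏ v ∈ S, (1 - PowerSeries.C (kh C v.asIdeal) *
        PowerSeries.X ^ ((Ideal.absNorm v.asIdeal).factorization p))) *
      ∏ v ∈ S, (1 - PowerSeries.C (kc C v.asIdeal) *
        PowerSeries.X ^ ((Ideal.absNorm v.asIdeal).factorization p))) := by
    rw [← Finset.prod_mul_distrib, ← Finset.prod_mul_distrib,
      ← Finset.prod_fiberwise_of_maps_to (s := T) (t := S)
      (g := fun P => TR.a7a_pi (L := CF.KK) P)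
      (fun P hP => (hS' _).2 ((hmem P).1 ((hT' P).1 hP)))]
    refine Finset.prod_congr rfl fun v hv => ?_
    refine fiber c C hD v _ fun P => ?_
    rw [Finset.mem_filter, hT']
    constructor
    · exact fun h => h.2
    · intro h
      exact ⟨(hmem P).2 (h ▸ (hS' v).1 hv), h⟩
  rw [e3] at e0
  generalize (∏ v ∈ S, (1 - PowerSeries.C (TR.oneI CF.KK v.asIdeal) *
    PowerSeries.X ^ ((Ideal.absNorm v.asIdeal).factorization p) : PowerSeries ℂ)) = P1 at e0 e1
  generalize (∏ v ∈ S, (1 - PowerSeries.C (kh C v.asIdeal) *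
    PowerSeries.X ^ ((Ideal.absNorm v.asIdeal).factorization p) : PowerSeries ℂ)) = P2 at e0 e2
  generalize (∏ v ∈ S, (1 - PowerSeries.C (kc C v.asIdeal) *
    PowerSeries.X ^ ((Ideal.absNorm v.asIdeal).factorization p) : PowerSeries ℂ)) = P3 at e0 e4
  generalize CM27.loc p (TR.idA M (TR.oneI M)) = m at e0 ⊢
  generalize CM27.loc p (TR.idA CF.KK (TR.oneI CF.KK)) = a at e1 ⊢
  generalize CM27.loc p (TR.idA CF.KK (kh C)) = b at e2 ⊢
  generalize CM27.loc p (TR.idA CF.KK (kc C)) = d at e4 ⊢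
  linear_combination (a * b * d) * e0 - (m * b * d * P2 * P3) * e1 - (m * d * P3) * e2 - m * e4

/-- [E2] as `n3_loc`, `n3_idA` -/
theorem idA_M (c : Cy D M) (C : Cub D) (hD : D ≠ 0) : TR.idA M (TR.oneI M) =
    TR.idA CF.KK (TR.oneI CF.KK) * (TR.idA CF.KK (kh C) * TR.idA CF.KK (kc C)) := by
  rw [(TR.isMultiplicative_idA M (TR.oneI M)).eq_iff_eq_on_prime_powers _ _
    ((TR.isMultiplicative_idA CF.KK (TR.oneI CF.KK)).mul
      ((TR.isMultiplicative_idA CF.KK (kh C)).mul (TR.isMultiplicative_idA CF.KK (kc C))))]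
  intro p k hp
  have h2 := e2_loc c C hD hp
  rw [← CM27.loc_mul hp, ← CM27.loc_mul hp] at h2
  have h3 := congrArg (fun f => PowerSeries.coeff k f) h2
  simp only [CM27.coeff_loc] at h3
  exact h3

end J2N
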