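import Pool.Agent.J2N.E2
import Pool.Agent.J2N.E0b

/-!
# [J2N-E3]
-/

set_option autoImplicit false

open NumberField IsDedekindDomain
open scoped Classical ComplexConjugate

namespace J2N

open CM27 JZ
open CU (eE)
open J2L (Cub LC)

variable {D : Eis} {M : Type} [Field M] [NumberField M] [Algebra CF.KK M]

private theorem e3_le_conj (C : Cub D) (I : Ideal (𝓞 CF.KK)) :
    ‖conj (kI C I)‖ ≤ (Ideal.absNorm I : ℝ) ^ (0 : ℝ) := by
  have h := kI_le C I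
  rwa [Complex.norm_conj]

/-- [E3] as `n3_zeta` -/
theorem zeta_M (c : Cy D M) (C : Cub D) (hD : D ≠ 0) {σ : ℝ} (hσ : 1 < σ) :
    dedekindZeta M σ = dedekindZeta CF.KK σ * (LC C σ * conj (LC C σ)) := by
  have hs' : (0 : ℝ) + 1 < (σ : ℂ).re := by simpa using hσ
  obtain ⟨-, h1, -⟩ := TR.lseries_idA CF.KK (TR.oneI CF.KK) 0 le_rfl (TR.a7c_one_le CF.KK) hs'
  obtain ⟨-, h2, h3⟩ := TR.lseries_idA CF.KK (kI C) 0 le_rfl (kI_le C) hs'
  obtain ⟨-, h4, h5⟩ := TR.lseries_idA CF.KK (fun I => conj (kI C I)) 0 le_rfl (e3_le_conj C) hs'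
  have e1 : (kh C : Ideal (𝓞 CF.KK) → ℂ) = kI C := rfl
  have e2 : (kc C : Ideal (𝓞 CF.KK) → ℂ) = fun I => conj (kI C I) := rfl
  have hid := idA_M c C hD
  rw [e1, e2] at hid
  rw [← TR.a7c_dz, ← TR.a7c_dz, hid,
    ArithmeticFunction.LSeries_mul' h1 (ArithmeticFunction.LSeriesSummable_mul h2 h4),
    ArithmeticFunction.LSeries_mul' h2 h4, h3, h5, LC_ideals C hσ, LC_ideals_conj C hσ]

end J2N
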