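import Pool.Agent.J2N.B4

/-!
# [J2N-F1]
-/

set_option autoImplicit false

open NumberField IsDedekindDomain Filter Topology
open scoped Classical ComplexConjugate

namespace J2N

open CM27 JZ
open CU (eE)
open JT (KM cD)
open J2L (Cub LC)

variable {D : Eis}

/-- [F1] `(2π)³ R h / (w √|d|)` -/
theorem residue_KM (hc : ¬ ∃ x : Eis, x ^ 3 = D) : dedekindZeta_residue (KM D) =
    8 * Real.pi ^ 3 * Units.regulator (KM D) * classNumber (KM D) /
      (Units.torsionOrder (KM D) * √|((discr (KM D) : ℤ) : ℝ)|) := by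
  have hf := finrank_KM hc
  have c1 : InfinitePlace.nrRealPlaces (KM D) = 0 := IsTotallyComplex.nrRealPlaces_eq_zero (KM D)
  have c2 : InfinitePlace.nrComplexPlaces (KM D) = 3 := by
    have := InfinitePlace.card_add_two_mul_card_eq_rank (KM D)
    omega
  rw [dedekindZeta_residue_def, c1, c2]
  have e1 : (2 : ℝ) ^ 0 * (2 * Real.pi) ^ 3 * Units.regulator (KM D) * (classNumber (KM D) : ℝ) =
      8 * Real.pi ^ 3 * Units.regulator (KM D) * (classNumber (KM D) : ℝ) := by ring
  rw [e1]

end J2N
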