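import Pool.Agent.J2N.F1
import Pool.Agent.J2N.E3

/-!
# [J2N-F2]
-/

set_option autoImplicit false

open NumberField IsDedekindDomain Filter Topology
open scoped Classical ComplexConjugate

namespace J2N

open CM27 JZ
open CU (eE)
open JT (KM cD)
open J2L (Cub LC)

variable {D : Eis}

/-- [F2] `|L₁|² = Res ζ_M / Res ζ_K`, `Res ζ_K = π / (3 √3)` (`JL.residue_KK`). -/
theorem L1_sq (hc : ¬ ∃ x : Eis, x ^ 3 = D) (C : Cub D) {L : ℂ} (hL : Tendsto (LC C) (𝓝[>] 1) (𝓝 L)) :
    ‖L‖ ^ 2 = 24 * √3 * Real.pi ^ 2 * Units.regulator (KM D) * classNumber (KM D) /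
      (Units.torsionOrder (KM D) * √|((discr (KM D) : ℤ) : ℝ)|) := by
  have hD : D ≠ 0 := by
    rintro rfl
    exact hc ⟨0, by ring⟩
  obtain ⟨c, -, -⟩ := exists_Cy hc
  have hM := tendsto_sub_one_mul_dedekindZeta_nhdsGT (KM D)
  have hK := tendsto_sub_one_mul_dedekindZeta_nhdsGT CF.KK
  have hne : ((dedekindZeta_residue CF.KK : ℝ) : ℂ) ≠ 0 := by
    exact_mod_cast dedekindZeta_residue_ne_zero CF.KK
  have hdiv := hM.div hK hne
  have hval : ((dedekindZeta_residue (KM D) : ℝ) : ℂ) / ((dedekindZeta_residue CF.KK : ℝ) : ℂ) =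
      ((24 * √3 * Real.pi ^ 2 * Units.regulator (KM D) * classNumber (KM D) /
      (Units.torsionOrder (KM D) * √|((discr (KM D) : ℤ) : ℝ)|) : ℝ) : ℂ) := by
    rw [← Complex.ofReal_div]
    congr 1
    rw [JL.residue_KK, residue_KM hc]
    have h3 : (0 : ℝ) < √3 := by positivity
    have hpi := Real.pi_pos
    have hT : (Units.torsionOrder (KM D) : ℝ) ≠ 0 := by
      exact_mod_cast Units.torsionOrder_ne_zero (KM D)
    set R := Units.regulator (KM D)
    set H := (classNumber (KM D) : ℝ)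
    set S := √|((discr (KM D) : ℤ) : ℝ)|
    set W := (Units.torsionOrder (KM D) : ℝ)
    by_cases hS : S = 0
    · rw [hS]
      simp
    · field_simp
      ring
  rw [hval] at hdiv
  have hc1 : Tendsto (fun σ : ℝ => LC C σ * conj (LC C σ)) (𝓝[>] 1)
      (𝓝 ((24 * √3 * Real.pi ^ 2 * Units.regulator (KM D) * classNumber (KM D) /
      (Units.torsionOrder (KM D) * √|((discr (KM D) : ℤ) : ℝ)|) : ℝ) : ℂ)) := by
    refine hdiv.congr' ?_
    have hev := hK.eventually_ne hne
    filter_upwards [hev, self_mem_nhdsWithin] with s hs1 hs2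
    show (s - 1) * dedekindZeta (KM D) s / ((s - 1) * dedekindZeta CF.KK s) = LC C s * conj (LC C s)
    rw [zeta_M c C hD hs2, ← mul_assoc, mul_div_cancel_left₀ _ hs1]
  have hc2 : Tendsto (fun σ : ℝ => LC C σ * conj (LC C σ)) (𝓝[>] 1) (𝓝 (L * conj L)) :=
    hL.mul ((Complex.continuous_conj.tendsto L).comp hL)
  have h := tendsto_nhds_unique hc2 hc1
  rw [Complex.mul_conj, Complex.normSq_eq_norm_sq] at h
  exact_mod_cast h

end J2N
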