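import Pool.Agent.J2N.A

/-!
# [J2N-G1]
-/

set_option autoImplicit false

open NumberField IsDedekindDomain
open scoped Classical ComplexConjugate

namespace J2N

open CM27 JZ
open CU (la eE)
open JT (KM cD)
open J2L (Cub LC)

variable {D : Eis} {M : Type} [Field M] [NumberField M] [Algebra CF.KK M]

theorem g1_zw_cube (i : ZMod 3) : CUL.zw i ^ 3 = 1 := by
  unfold CUL.zw
  rw [← pow_mul, mul_comm, pow_mul, CUL.w3, one_pow]

theorem g1_odd {a : Eis} (h : ¬ (2 : Eis) ∣ a) : Odd a.norm := by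
  by_contra h1
  exact h (b7_even_dvd a h1)

theorem g1_norm_two_mul (m : Eis) : (2 * m : Eis).norm = 4 * m.norm := by
  rw [norm_eq, norm_eq]
  have h3 : (2 : Eis).re = 2 := rfl
  have h4 : (2 : Eis).im = 0 := rfl
  simp only [QuadraticAlgebra.re_mul, QuadraticAlgebra.im_mul, h3, h4]
  ring

/-- [G1] the conductor of a cubic character is not divisible by `4`. PROOF. `4 ∣ g`, `g = 2 m`: `C.prim 2 m`: `u` coprime to `g`, `u = 1 + m t`, `kp u ≠ 1`,
`u² = 1 + 2 m t + m² t² ≡ 1 mod g` (`2 ∣ m`, so `g = 2 m ∣ m²`), `kp u ^ 2 = 1`, `kp u ^ 3 = 1`: `kp u = 1`. Then `g = 2 g'`, `g'` odd: `N(g) = 4 N(g')`, `N(g')` odd. -/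
theorem norm_g_two (C : Cub D) : (C.g.norm.natAbs).factorization 2 = if (2 : Eis) ∣ C.g then 2 else 0 := by
  by_cases h2 : (2 : Eis) ∣ C.g
  · rw [if_pos h2]
    obtain ⟨m, hm⟩ := h2
    have hm2 : ¬ (2 : Eis) ∣ m := by
      rintro ⟨m', hm'⟩
      obtain ⟨u, hu, ⟨t, ht⟩, hk⟩ := C.prim 2 m Q3.prime_two hm.symm
      have hu1 : u = 1 + m * t := by rw [← ht]; ring
      have h4 : C.g ∣ u * u - 1 := by
        refine ⟨t + m' * t ^ 2, ?_⟩
        rw [hu1, hm]
        have : m * m = 2 * m * m' := by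
          calc m * m = m * (2 * m') := by rw [← hm']
            _ = 2 * m * m' := by ring
        linear_combination (t ^ 2) * this
      have h5 : C.kp u * C.kp u = 1 := by
        rw [← C.kp_mul, C.kp_per _ _ h4, C.kp_unit 1 isUnit_one]
      obtain ⟨i, hi⟩ := C.kp_cube u hu
      apply hk
      have h6 : C.kp u ^ 3 = 1 := by rw [hi, g1_zw_cube]
      calc C.kp u = C.kp u * (C.kp u * C.kp u) := by rw [h5, mul_one]
        _ = C.kp u ^ 3 := by ring
        _ = 1 := h6
    have hodd := g1_odd hm2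
    rw [hm, g1_norm_two_mul]
    have h7 : (4 * m.norm).natAbs = 2 ^ 2 * m.norm.natAbs := by
      rw [Int.natAbs_mul]; rfl
    have h8 : ¬ 2 ∣ m.norm.natAbs := by
      intro h9
      have h10 : (2 : ℤ) ∣ m.norm := by exact_mod_cast Int.natCast_dvd.2 h9
      obtain ⟨k, hk⟩ := hodd
      omega
    have h9 : m.norm.natAbs ≠ 0 := by
      intro h; rw [h] at h8; exact h8 (dvd_zero _)
    rw [h7, Nat.factorization_mul (by norm_num) h9, Finsupp.add_apply, Nat.Prime.factorization_pow Nat.prime_two,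
      Finsupp.single_eq_same, Nat.factorization_eq_zero_of_not_dvd h8]
  · rw [if_neg h2]
    have hodd := g1_odd h2
    apply Nat.factorization_eq_zero_of_not_dvd
    intro h9
    have h10 : (2 : ℤ) ∣ C.g.norm := by exact_mod_cast Int.natCast_dvd.2 h9
    obtain ⟨k, hk⟩ := hodd
    omega

end J2N
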