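import Pool.Agent.J2N.C6b

/-!
# [J2N-G2]
-/

set_option autoImplicit false

open NumberField IsDedekindDomain
open scoped Classical ComplexConjugate

namespace J2N

open CM27 JZ
open CU (la eE)
open JT (KM cD)
open J2L (Cub LC)

variable {D : Eis} {M : Type} [Field M] [NumberField M] [Algebra CF.KK M]

theorem g2_norm_odd {d : Eis} (hd : ¬ (2 : Eis) ∣ d) : d.norm.natAbs % 2 = 1 := by
  have h1 : d.norm = d.re * d.re - d.re * d.im + d.im * d.im := by
    rw [QuadraticAlgebra.norm_def]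
    ring
  have h2 : ¬ (d.re % 2 = 0 ∧ d.im % 2 = 0) := by
    rintro ⟨h3, h4⟩
    apply hd
    refine ⟨⟨d.re / 2, d.im / 2⟩, ?_⟩
    rw [two_mul]
    ext
    · rw [QuadraticAlgebra.re_add]
      change d.re = d.re / 2 + d.re / 2
      omega
    · rw [QuadraticAlgebra.im_add]
      change d.im = d.im / 2 + d.im / 2
      omega
  have h3 : d.norm % 2 = 1 := by
    rw [h1]
    rcases Int.emod_two_eq_zero_or_one d.re with h4 | h4 <;>
    rcases Int.emod_two_eq_zero_or_one d.im with h5 | h5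
    · exact absurd ⟨h4, h5⟩ h2
    all_goals (simp [Int.add_emod, Int.sub_emod, Int.mul_emod, h4, h5])
  omega

theorem g2_om : (eE CU.om : 𝓞 CF.KK) ≠ 1 := by
  intro h
  rw [← map_one eE] at h
  have h1 := eE.injective h
  exact absurd (congrArg QuadraticAlgebra.re h1) (by decide)

/-- [G2] PROOF. `|d_M| = |d_K|^3 N(different)` (`NumberField.natAbs_discr_eq_absNorm_differentIdeal_mul_natAbs_discr_pow` or the model JGL/N1 `n1_discr`; `discr KK = -3`:
`JL.discr_KK`). `s'` with `s'³ = d`, `2 ∤ d` (`exists_root`), `M = KK(s')`, `3 s'²` is in the different (`aeval_derivative_mem_differentIdeal`), so `N(different)` divides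
`N(3 s'²)`, an odd number. -/
theorem discr_odd (c : Cy D M) {d : Eis} {m : ℕ} (hD : D = 2 ^ (3 * m) * d) (hd : ¬ (2 : Eis) ∣ d) :
    (discr M).natAbs.factorization 2 = 0 := by
  have h20 : (2 : Eis) ≠ 0 := by
    intro h
    exact absurd (congrArg QuadraticAlgebra.re h) (by decide)
  obtain ⟨t, -, ht, hσ⟩ := exists_root c h20 hD
  have hd0 : d ≠ 0 := by
    rintro rfl
    exact hd (dvd_zero _)
  have ht0 : t ≠ 0 := by
    rintro rfl
    rw [zero_pow (by norm_num)] at ht
    have h1 : eE d = 0 := by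
      apply FaithfulSMul.algebraMap_injective (𝓞 CF.KK) (𝓞 M)
      rw [← ht, map_zero]
    exact hd0 ((map_eq_zero_iff eE eE.injective).1 h1)
  -- `t` generates `M`
  have hgen : Algebra.adjoin CF.KK {algebraMap (𝓞 M) M t} = ⊤ := by
    have hp : Nat.Prime (Module.finrank CF.KK M) := by
      rw [c.deg]
      norm_num
    have := Subalgebra.isSimpleOrder_of_finrank_prime CF.KK M hp
    rcases eq_bot_or_eq_top (Algebra.adjoin CF.KK {algebraMap (𝓞 M) M t}) with h | h
    · exfalso
      have h1 : algebraMap (𝓞 M) M t ∈ (⊥ : Subalgebra CF.KK M) := by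
        rw [← h]
        exact Algebra.subset_adjoin rfl
      obtain ⟨x, hx⟩ := Algebra.mem_bot.1 h1
      have h2 : c.σ (algebraMap (𝓞 M) M t) = algebraMap (𝓞 M) M t := by
        rw [← hx, AlgEquiv.commutes]
      have h3 := congrArg (fun z : 𝓞 M => (z : M)) hσ
      beta_reduce at h3
      rw [c.so_coe] at h3
      have h4 : algebraMap (𝓞 CF.KK) (𝓞 M) (eE CU.om) * t = 1 * t := by
        apply RingOfIntegers.ext
        rw [← h3, one_mul]
        exact h2
      have h5 := mul_right_cancel₀ ht0 h4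
      rw [← map_one (algebraMap (𝓞 CF.KK) (𝓞 M))] at h5
      exact g2_om (FaithfulSMul.algebraMap_injective (𝓞 CF.KK) (𝓞 M) h5)
    · exact h
  have hint : IsIntegral (𝓞 CF.KK) t := Algebra.IsIntegral.isIntegral t
  have h1 := aeval_derivative_mem_differentIdeal (𝓞 CF.KK) CF.KK M t hgen
  obtain ⟨q, hq⟩ := minpoly.isIntegrallyClosed_dvd hint
    (p := Polynomial.X ^ 3 - Polynomial.C (eE d)) (by
      rw [map_sub, map_pow, Polynomial.aeval_X, Polynomial.aeval_C, ht, sub_self])
  have h2 : 3 * t ^ 2 ∈ differentIdeal (𝓞 CF.KK) (𝓞 M) := by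
    have h3 := congrArg (fun p => Polynomial.aeval t (Polynomial.derivative p)) hq
    beta_reduce at h3
    rw [Polynomial.derivative_mul, map_add, map_mul, map_mul, minpoly.aeval, zero_mul, add_zero,
      Polynomial.derivative_sub, Polynomial.derivative_X_pow, Polynomial.derivative_C, sub_zero,
      map_mul, map_pow, Polynomial.aeval_X, Polynomial.aeval_C] at h3
    have h4 : (algebraMap (𝓞 CF.KK) (𝓞 M)) ((3 : ℕ) : 𝓞 CF.KK) = 3 := by
      rw [map_natCast]
      norm_num
    rw [h4] at h3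
    norm_num at h3
    rw [h3]
    exact Ideal.mul_mem_right _ _ h1
  have h3 : Ideal.absNorm (differentIdeal (𝓞 CF.KK) (𝓞 M)) ∣ Ideal.absNorm (Ideal.span {3 * t ^ 2}) := by
    apply Ideal.absNorm_dvd_absNorm_of_le
    rw [Ideal.span_singleton_le_iff_mem]
    exact h2
  have h4 : Ideal.absNorm (Ideal.span {3 * t ^ 2}) ^ 3 = ((27 * d ^ 2).norm.natAbs) ^ 3 := by
    have h5 : Ideal.span {3 * t ^ 2} ^ 3 = (Ideal.span {eE (27 * d ^ 2)}).map (algebraMap (𝓞 CF.KK) (𝓞 M)) := by
      rw [Ideal.span_singleton_pow, Ideal.map_span, Set.image_singleton]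
      congr 2
      rw [map_mul, map_mul, map_pow, map_pow, map_ofNat, map_ofNat, ← ht]
      ring
    have h6 := Ideal.absNorm_algebraMap (R := 𝓞 CF.KK) (𝓞 M) (Ideal.span {eE (27 * d ^ 2)})
    rw [← h5, map_pow, CUL.l6_absNorm] at h6
    have h7 : Module.finrank (𝓞 CF.KK) (𝓞 M) = 3 := by
      rw [← IsFractionRing.finrank_eq (𝓞 CF.KK) CF.KK (𝓞 M) M, c.deg]
    rw [h7] at h6
    exact h6
  have h5 : Ideal.absNorm (Ideal.span {3 * t ^ 2}) = (27 * d ^ 2).norm.natAbs :=
    Nat.pow_left_injective (n := 3) (by norm_num) h4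
  have h6 : ¬ 2 ∣ Ideal.absNorm (differentIdeal (𝓞 CF.KK) (𝓞 M)) := by
    intro h
    have h7 := h.trans h3
    have h27 : (27 : Eis).norm = 729 := by decide
    rw [h5, map_mul, map_pow, h27, Int.natAbs_mul, Int.natAbs_pow] at h7
    have h8 := g2_norm_odd hd
    rcases (Nat.Prime.dvd_mul Nat.prime_two).1 h7 with h9 | h9
    · revert h9
      decide
    · have := Nat.Prime.dvd_of_dvd_pow Nat.prime_two h9
      omega
  have h7 := NumberField.natAbs_discr_eq_absNorm_differentIdeal_mul_natAbs_discr_pow CF.KK (𝓞 CF.KK) M (𝓞 M)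
  rw [c.deg, JL.n1_discr_KK] at h7
  apply Nat.factorization_eq_zero_of_not_dvd
  rw [h7]
  intro h
  rcases (Nat.Prime.dvd_mul Nat.prime_two).1 h with h9 | h9
  · exact h6 h9
  · revert h9
    decide

end J2N
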