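import Pool.Agent.J2N.G3a
import Pool.Agent.J2N.C6a

/-!
# [J2N-G3]
-/

set_option autoImplicit false

open NumberField IsDedekindDomain
open scoped Classical ComplexConjugate

namespace J2N

open CM27 JZ
open CU (la eE)
open JT (KM cD)
open J2L (Cub LC)

variable {D : Eis} {M : Type} [Field M] [NumberField M] [Algebra CF.KK M]

/-- The minimal polynomial of a generator `t`, `t³ = b`. -/
private theorem g3_minpoly (c : Cy D M) {t : 𝓞 M} {b : 𝓞 CF.KK}
    (ht : t ^ 3 = algebraMap (𝓞 CF.KK) (𝓞 M) b) (hgen : Algebra.adjoin CF.KK {(t : M)} = ⊤) :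
    minpoly (𝓞 CF.KK) t = Polynomial.X ^ 3 - Polynomial.C b := by
  have hint : IsIntegral (𝓞 CF.KK) t := by
    refine ⟨Polynomial.X ^ 3 - Polynomial.C b, by monicity!, ?_⟩
    rw [Polynomial.eval₂_sub, Polynomial.eval₂_X_pow, Polynomial.eval₂_C, ht, sub_self]
  have hmonic : (Polynomial.X ^ 3 - Polynomial.C b : Polynomial (𝓞 CF.KK)).Monic := by monicity!
  have hdeg : (Polynomial.X ^ 3 - Polynomial.C b : Polynomial (𝓞 CF.KK)).natDegree = 3 := by
    compute_degree!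
  have hdvd : minpoly (𝓞 CF.KK) t ∣ (Polynomial.X ^ 3 - Polynomial.C b) := by
    apply minpoly.isIntegrallyClosed_dvd hint
    rw [map_sub, map_pow, Polynomial.aeval_X, Polynomial.aeval_C, ht, sub_self]
  have hintK : IsIntegral CF.KK (t : M) := Algebra.IsIntegral.isIntegral _
  have hfr : (minpoly CF.KK (t : M)).natDegree = 3 := by
    rw [← c.deg]
    have h1 := (Algebra.adjoin.powerBasis hintK).finrank
    rw [Algebra.adjoin.powerBasis_dim] at h1
    rw [← h1, hgen]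
    exact (Subalgebra.topEquiv (R := CF.KK) (A := M)).toLinearEquiv.finrank_eq
  have hmap : minpoly CF.KK (t : M) = (minpoly (𝓞 CF.KK) t).map (algebraMap (𝓞 CF.KK) CF.KK) :=
    minpoly.isIntegrallyClosed_eq_field_fractions CF.KK M hint
  have h3 : (minpoly (𝓞 CF.KK) t).natDegree = 3 := by
    rw [hmap, (minpoly.monic hint).natDegree_map] at hfr
    exact hfr
  exact (Polynomial.eq_of_monic_of_dvd_of_natDegree_le (minpoly.monic hint) hmonic hdvd
    (by rw [hdeg, h3])).symm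

private theorem g3_deriv (c : Cy D M) {t : 𝓞 M} {b : 𝓞 CF.KK}
    (ht : t ^ 3 = algebraMap (𝓞 CF.KK) (𝓞 M) b) (hgen : Algebra.adjoin CF.KK {(t : M)} = ⊤) :
    3 * t ^ 2 ∈ differentIdeal (𝓞 CF.KK) (𝓞 M) := by
  have h := aeval_derivative_mem_differentIdeal (𝓞 CF.KK) CF.KK M t hgen
  rw [g3_minpoly c ht hgen, Polynomial.derivative_sub, Polynomial.derivative_X_pow,
    Polynomial.derivative_C, sub_zero, map_mul, map_pow, Polynomial.aeval_X,
    Polynomial.aeval_C] at h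
  have h2 : algebraMap (𝓞 CF.KK) (𝓞 M) ((3 : ℕ) : 𝓞 CF.KK) = 3 := by
    rw [map_natCast]
    norm_num
  rw [h2] at h
  exact h

omit [Algebra CF.KK M] in
/-- if `2` is a unit modulo `J`, the norm of `J` is odd -/
private theorem g3_odd {J : Ideal (𝓞 M)} (hJ : J ≠ ⊥) (h : IsCoprime J (Ideal.span {(2 : 𝓞 M)})) :
    ¬ 2 ∣ Ideal.absNorm J := by
  intro h2
  have hfin : Finite (𝓞 M ⧸ J) := Ideal.finiteQuotientOfFreeOfNeBot J hJ
  have hcard : Ideal.absNorm J = Nat.card (𝓞 M ⧸ J) := by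
    rw [Ideal.absNorm_apply, Submodule.cardQuot_apply]
  rw [hcard] at h2
  have : Fact (Nat.Prime 2) := ⟨Nat.prime_two⟩
  obtain ⟨y, hy⟩ := exists_prime_addOrderOf_dvd_card' (G := 𝓞 M ⧸ J) 2 h2
  have hy0 : (2 : ℕ) • y = 0 := by
    rw [← hy]
    exact addOrderOf_nsmul_eq_zero y
  have hyne : y ≠ 0 := by
    intro h0
    rw [h0, addOrderOf_zero] at hy
    omega
  obtain ⟨a, ha, b, hb, hab⟩ := Submodule.mem_sup.1
    (show (1 : 𝓞 M) ∈ J ⊔ Ideal.span {(2 : 𝓞 M)} by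
      rw [(Ideal.isCoprime_iff_sup_eq).1 h]
      exact Submodule.mem_top)
  obtain ⟨d, hd⟩ := Ideal.mem_span_singleton.1 hb
  have h1 : (Ideal.Quotient.mk J d) * 2 = 1 := by
    have h3 : Ideal.Quotient.mk J (a + b) = 1 := by rw [hab, map_one]
    rw [map_add, Ideal.Quotient.eq_zero_iff_mem.2 ha, zero_add, hd, map_mul, mul_comm] at h3
    rw [← h3]
    congr 1
  apply hyne
  have h4 : (2 : 𝓞 M ⧸ J) * y = 0 := by
    rw [nsmul_eq_mul] at hy0
    exact_mod_cast hy0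
  calc y = (Ideal.Quotient.mk J d) * 2 * y := by rw [h1, one_mul]
    _ = (Ideal.Quotient.mk J d) * (2 * y) := by ring
    _ = 0 := by rw [h4, mul_zero]

/-- [G3] PROOF. `2 𝓞 = P³` (`ram_of`), `N P = 4`. `P²` divides the different (`pow_sub_one_dvd_differentIdeal`), `3 t²` is in the different (`t` from `exists_t`,
`t ∈ P`, `t ∉ P²` because `t³ = 2 d'`): the exponent of `P` in the different is `2`, `N(P²) = 16`, and no other prime of `M` lies over `2`: `v₂(N(different)) = 4`. -/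
theorem discr_ram (c : Cy D M) {d : Eis} {n : ℕ} (hD : D = 2 ^ n * d) (hd : ¬ (2 : Eis) ∣ d) (h3 : ¬ 3 ∣ n) :
    (discr M).natAbs.factorization 2 = 4 := by
  obtain ⟨t, d', hd', ht, hgen⟩ := exists_t c hD hd h3
  have hp2 : Prime (2 : Eis) := Q3.prime_two
  have hpe : Prime (eE 2 : 𝓞 CF.KK) := (MulEquiv.prime_iff eE).2 hp2
  let v : HeightOneSpectrum (𝓞 CF.KK) :=
    ⟨Ideal.span {eE 2}, (Ideal.span_singleton_prime hpe.ne_zero).2 hpe, by
      intro h
      exact hpe.ne_zero (Ideal.span_singleton_eq_bot.1 h)⟩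
  obtain ⟨P, hOv, hN, hmap⟩ := ram_of c hp2 hD hd h3 (v := v) rfl
  have hPP : P.asIdeal.comap (algebraMap (𝓞 CF.KK) (𝓞 M)) = v.asIdeal := (hOv P).2 rfl
  have hPprime : Prime P.asIdeal := P.prime
  have hspan2 : Ideal.span {(2 : 𝓞 M)} = P.asIdeal ^ 3 := by
    rw [← hmap]
    change _ = Ideal.map _ (Ideal.span {eE 2})
    rw [Ideal.map_span, Set.image_singleton, map_ofNat, map_ofNat]
  -- `(t) = P T`, `P ∤ T`
  have hPd : ¬ P.asIdeal ∣ Ideal.span {algebraMap (𝓞 CF.KK) (𝓞 M) (eE d')} := by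
    intro h
    rw [Ideal.dvd_span_singleton] at h
    have h1 : eE d' ∈ P.asIdeal.comap (algebraMap (𝓞 CF.KK) (𝓞 M)) := h
    rw [hPP] at h1
    have h2 : eE 2 ∣ eE d' := Ideal.mem_span_singleton.1 h1
    exact hd' ((map_dvd_iff eE).1 h2)
  have ht3 : Ideal.span {t} ^ 3 = P.asIdeal ^ 3 *
      Ideal.span {algebraMap (𝓞 CF.KK) (𝓞 M) (eE d')} := by
    rw [Ideal.span_singleton_pow, ht, map_mul, map_mul, map_ofNat, map_ofNat, ← hspan2,
      Ideal.span_singleton_mul_span_singleton]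
  have hPt : P.asIdeal ∣ Ideal.span {t} := by
    apply hPprime.dvd_of_dvd_pow (n := 3)
    rw [ht3]
    exact (dvd_pow_self _ (by norm_num)).mul_right _
  obtain ⟨T, hT⟩ := hPt
  have hT3 : T ^ 3 = Ideal.span {algebraMap (𝓞 CF.KK) (𝓞 M) (eE d')} := by
    rw [hT, mul_pow] at ht3
    exact mul_left_cancel₀ (pow_ne_zero 3 hPprime.ne_zero) ht3
  have hPT : ¬ P.asIdeal ∣ T := by
    intro h
    exact hPd (hT3 ▸ h.trans (dvd_pow_self T (by norm_num)))
  have hP3 : ¬ P.asIdeal ∣ Ideal.span {(3 : 𝓞 M)} := by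
    intro h
    rw [Ideal.dvd_span_singleton] at h
    have h2 : (2 : 𝓞 M) ∈ P.asIdeal := by
      have h4 : Ideal.span {(2 : 𝓞 M)} ≤ P.asIdeal := by
        rw [hspan2]
        exact Ideal.pow_le_self (by norm_num)
      exact h4 (Ideal.mem_span_singleton_self _)
    have h1 : (1 : 𝓞 M) ∈ P.asIdeal := by
      have h5 := P.asIdeal.sub_mem h h2
      have h6 : (3 : 𝓞 M) - 2 = 1 := by norm_num
      rwa [h6] at h5
    exact P.isPrime.ne_top ((Ideal.eq_top_iff_one _).2 h1)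
  -- `P²` divides the different
  have hmax : v.asIdeal.IsMaximal := v.isMaximal
  have hP2 : P.asIdeal ^ 2 ∣ differentIdeal (𝓞 CF.KK) (𝓞 M) := by
    have h1 := pow_sub_one_dvd_differentIdeal (A := 𝓞 CF.KK) (B := 𝓞 M) (p := v.asIdeal) P.asIdeal 3
      v.ne_bot (by rw [hmap])
    exact h1
  obtain ⟨J, hJ⟩ := hP2
  have hmem := g3_deriv c ht hgen
  rw [← Ideal.dvd_span_singleton, hJ] at hmem
  have hJd : J ∣ Ideal.span {(3 : 𝓞 M)} * T ^ 2 := by
    have h1 : Ideal.span {3 * t ^ 2} = P.asIdeal ^ 2 * (Ideal.span {(3 : 𝓞 M)} * T ^ 2) := by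
      rw [← Ideal.span_singleton_mul_span_singleton, ← Ideal.span_singleton_pow, hT]
      ring
    rw [h1] at hmem
    exact (mul_dvd_mul_iff_left (pow_ne_zero 2 hPprime.ne_zero)).1 hmem
  have hPJ : ¬ P.asIdeal ∣ J := by
    intro h
    rcases hPprime.dvd_or_dvd (h.trans hJd) with h | h
    · exact hP3 h
    · exact hPT (hPprime.dvd_of_dvd_pow h)
  have hdne : differentIdeal (𝓞 CF.KK) (𝓞 M) ≠ ⊥ := differentIdeal_ne_bot
  have hJne : J ≠ ⊥ := by
    rintro rfl
    exact hdne (by rw [hJ, Ideal.mul_bot])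
  have hcop : IsCoprime J (Ideal.span {(2 : 𝓞 M)}) := by
    rw [hspan2]
    refine IsCoprime.pow_right (IsCoprime.symm ?_)
    rw [Ideal.isCoprime_iff_sup_eq]
    have hm : P.asIdeal.IsMaximal := P.isMaximal
    refine hm.out.2 (P.asIdeal ⊔ J) (lt_of_le_of_ne le_sup_left fun h => hPJ ?_)
    rw [Ideal.dvd_iff_le, h]
    exact le_sup_right
  have hJodd : ¬ 2 ∣ Ideal.absNorm J := g3_odd hJne hcop
  have hNv : Ideal.absNorm v.asIdeal = 4 := by
    change Ideal.absNorm (Ideal.span {eE 2}) = 4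
    rw [CUL.l6_absNorm]
    rfl
  have hND : Ideal.absNorm (differentIdeal (𝓞 CF.KK) (𝓞 M)) = 16 * Ideal.absNorm J := by
    rw [hJ, map_mul, map_pow, hN, hNv]
    norm_num
  have h1 := NumberField.natAbs_discr_eq_absNorm_differentIdeal_mul_natAbs_discr_pow CF.KK (𝓞 CF.KK) M (𝓞 M)
  rw [JL.discr_KK, c.deg, hND] at h1
  rw [h1]
  have hJ0 : Ideal.absNorm J ≠ 0 := by
    rw [Ne, Ideal.absNorm_eq_zero_iff]
    exact hJne
  have hf : (Ideal.absNorm J).factorization 2 = 0 := Nat.factorization_eq_zero_of_not_dvd hJodd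
  have e16 : (16 : ℕ) = 2 ^ 4 := by norm_num
  rw [Nat.factorization_mul (mul_ne_zero (by norm_num) hJ0) (by norm_num),
    Nat.factorization_mul (by norm_num) hJ0, e16, Nat.factorization_pow, Nat.factorization_pow]
  simp only [Finsupp.add_apply, Finsupp.smul_apply, hf, smul_eq_mul,
    Nat.Prime.factorization_self Nat.prime_two]
  have h33 : (3 : ℕ).factorization 2 = 0 := Nat.factorization_eq_zero_of_not_dvd (by norm_num)
  rw [h33]

end J2N
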