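import Pool.Agent.J2N.C6b

/-!
# [J2N-G3a]
-/

set_option autoImplicit false

open NumberField IsDedekindDomain
open scoped Classical ComplexConjugate

namespace J2N

open CM27 JZ
open CU (la eE)
open JT (KM cD)
open J2L (Cub LC)

variable {D : Eis} {M : Type} [Field M] [NumberField M] [Algebra CF.KK M]

theorem g3a_inj {a b : Eis} (h : algebraMap (𝓞 M) M (algebraMap (𝓞 CF.KK) (𝓞 M) (eE a)) =
    algebraMap (𝓞 M) M (algebraMap (𝓞 CF.KK) (𝓞 M) (eE b))) : a = b :=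
  eE.injective (FaithfulSMul.algebraMap_injective (𝓞 CF.KK) (𝓞 M) (RingOfIntegers.coe_injective h))

theorem g3a_top (c : Cy D M) {t ζ : M} (ht : t ≠ 0) (hζ : ζ ≠ 1) (h : c.σ t = ζ * t) :
    Algebra.adjoin CF.KK {t} = ⊤ := by
  haveI : FiniteDimensional CF.KK M := Module.finite_of_finrank_pos (by rw [c.deg]; norm_num)
  have hs : IsSimpleOrder (IntermediateField CF.KK M) :=
    IntermediateField.isSimpleOrder_of_finrank_prime _ _ (by rw [c.deg]; exact Nat.prime_three)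
  have halg : IsAlgebraic CF.KK t := Algebra.IsAlgebraic.isAlgebraic t
  rcases hs.eq_bot_or_eq_top (IntermediateField.adjoin CF.KK {t}) with h1 | h1
  · exfalso
    have h2 : t ∈ IntermediateField.adjoin CF.KK {t} := IntermediateField.mem_adjoin_simple_self _ _
    rw [h1, IntermediateField.mem_bot] at h2
    obtain ⟨k, hk⟩ := h2
    have h3 : c.σ t = t := by rw [← hk]; exact c.σ.commutes k
    rw [h3] at h
    apply hζ
    apply mul_right_cancel₀ ht
    rw [one_mul, ← h]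
  · rw [← IntermediateField.adjoin_simple_toSubalgebra_of_isAlgebraic halg, h1]
    rfl

theorem g3a_om_ne : (CU.om : Eis) ≠ 1 := by decide

theorem g3a_om2_ne : (CU.om ^ 2 : Eis) ≠ 1 := by decide

/-- [G3a] a root `t ∈ 𝓞 M`, `t³ = 2 d'`, `2 ∤ d'`, `M = KK(t)`: `n = 3 m + 1`: `t = s / 2^m`; `n = 3 m + 2`: `t = s² / 2^(2 m + 1)`. -/
theorem exists_t (c : Cy D M) {d : Eis} {n : ℕ} (hD : D = 2 ^ n * d) (hd : ¬ (2 : Eis) ∣ d) (h3 : ¬ 3 ∣ n) :
    ∃ (t : 𝓞 M) (d' : Eis), ¬ (2 : Eis) ∣ d' ∧ t ^ 3 = algebraMap (𝓞 CF.KK) (𝓞 M) (eE (2 * d')) ∧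
      Algebra.adjoin CF.KK {(t : M)} = ⊤ := by
  have hd0 : d ≠ 0 := by rintro rfl; exact hd (dvd_zero _)
  have h20 : (2 : Eis) ≠ 0 := Q3.prime_two.ne_zero
  have := CM27.eis_isDomain
  set e : Eis → 𝓞 M := fun a => algebraMap (𝓞 CF.KK) (𝓞 M) (eE a) with he
  have e_mul : ∀ a b, e (a * b) = e a * e b := fun a b => by simp only [he, map_mul]
  have e_pow : ∀ a (n : ℕ), e (a ^ n) = e a ^ n := fun a n => by simp only [he, map_pow]
  have e_zero : e 0 = 0 := by simp only [he, map_zero]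
  have e_one : e 1 = 1 := by simp only [he, map_one]
  have e_two : e 2 = 2 := by simp only [he, map_ofNat]
  have e_four : e 4 = 4 := by simp only [he, map_ofNat]
  set ι : 𝓞 M →+* M := algebraMap (𝓞 M) M with hι
  have e_ne : ∀ a : Eis, a ≠ 0 → ι (e a) ≠ 0 := by
    intro a ha h1
    apply ha
    apply g3a_inj (M := M)
    change ι (e a) = ι (e 0)
    rw [h1, e_zero, map_zero]
  have e_ne1 : ∀ a : Eis, a ≠ 1 → ι (e a) ≠ 1 := by
    intro a ha h1
    apply ha
    apply g3a_inj (M := M)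
    change ι (e a) = ι (e 1)
    rw [h1, e_one, map_one]
  have hn : n % 3 = 1 ∨ n % 3 = 2 := by omega
  rcases hn with hn | hn
  · obtain ⟨m, rfl⟩ : ∃ m, n = 3 * m + 1 := ⟨n / 3, by omega⟩
    obtain ⟨s', -, hs3, hso⟩ := exists_root c (p := 2) (d := 2 * d) (m := m) h20 (by rw [hD]; ring)
    have hs4 : ι s' ^ 3 = ι (e (2 * d)) := by
      rw [← map_pow]; exact congrArg ι hs3
    have hs0 : ι s' ≠ 0 := by
      intro h1
      apply e_ne (2 * d) (mul_ne_zero h20 hd0)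
      rw [← hs4, h1]
      exact zero_pow (by norm_num)
    refine ⟨s', d, hd, hs3, ?_⟩
    apply g3a_top c hs0 (e_ne1 _ g3a_om_ne)
    have h5 : ι (c.so s') = ι (e CU.om) * ι s' := by rw [← map_mul]; exact congrArg ι hso
    exact h5
  · obtain ⟨m, rfl⟩ : ∃ m, n = 3 * m + 2 := ⟨n / 3, by omega⟩
    obtain ⟨s', -, hs3, hso⟩ := exists_root c (p := 2) (d := 4 * d) (m := m) h20 (by rw [hD]; ring)
    have h40 : (4 : Eis) ≠ 0 := by
      have : (4 : Eis) = 2 * 2 := by norm_num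
      rw [this]; exact mul_ne_zero h20 h20
    have hs4 : ι s' ^ 3 = 4 * ι (e d) := by
      have h5 : ι (s' ^ 3) = ι (e (4 * d)) := congrArg ι hs3
      rw [map_pow, e_mul, map_mul, e_four, map_ofNat] at h5
      exact h5
    have hs0 : ι s' ≠ 0 := by
      intro h1
      rw [h1, zero_pow (by norm_num)] at hs4
      exact mul_ne_zero (by norm_num) (e_ne d hd0) hs4.symm
    have ht3 : (ι s' ^ 2 / 2) ^ 3 = 2 * ι (e d) ^ 2 := by
      have : (ι s' ^ 2 / 2) ^ 3 = (ι s' ^ 3) ^ 2 / 8 := by ring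
      rw [this, hs4]; ring
    have h7 : ι (2 * e d ^ 2) = 2 * ι (e d) ^ 2 := by rw [map_mul, map_pow, map_ofNat]
    have hint : IsIntegral ℤ (ι s' ^ 2 / 2) := by
      apply IsIntegral.of_pow (n := 3) (by norm_num)
      rw [ht3, ← h7]
      exact RingOfIntegers.isIntegral_coe _
    have hd2 : ¬ (2 : Eis) ∣ d ^ 2 := fun h1 => hd (Q3.prime_two.dvd_of_dvd_pow h1)
    have hσs : c.σ (ι s') = ι (e CU.om) * ι s' := by
      have h5 : ι (c.so s') = ι (e CU.om) * ι s' := by rw [← map_mul]; exact congrArg ι hso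
      exact h5
    refine ⟨⟨ι s' ^ 2 / 2, hint⟩, d ^ 2, hd2, ?_, ?_⟩
    · apply RingOfIntegers.coe_injective
      change (ι s' ^ 2 / 2) ^ 3 = ι (e (2 * d ^ 2))
      rw [e_mul, e_pow, e_two, h7, ht3]
    · apply g3a_top c (ζ := ι (e (CU.om ^ 2))) _ (e_ne1 _ g3a_om2_ne)
      · change c.σ (ι s' ^ 2 / 2) = _ * (ι s' ^ 2 / 2)
        rw [map_div₀, map_pow, hσs, map_ofNat, e_pow, map_pow]
        ring
      · exact div_ne_zero (pow_ne_zero _ hs0) two_ne_zero

end J2N
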