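import Pool.Agent.J2N.G1
import Pool.Agent.J2N.G2
import Pool.Agent.J2N.G3
import Pool.Agent.J2N.C8b

/-!
# [J2N-G4]
-/

set_option autoImplicit false

open NumberField IsDedekindDomain
open scoped Classical ComplexConjugate

namespace J2N

open CM27 JZ
open CU (la eE)
open JT (KM cD)
open J2L (Cub LC)

variable {D : Eis} {M : Type} [Field M] [NumberField M] [Algebra CF.KK M]

private theorem g4_fac (hD : D ≠ 0) : ∃ (n : ℕ) (d : Eis), D = 2 ^ n * d ∧ ¬ (2 : Eis) ∣ d := by
  have hpid : IsPrincipalIdealRing Eis := eis_pid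
  have hdom : IsDomain Eis := eis_isDomain
  have h2 : ¬ IsUnit (2 : Eis) := by
    intro h
    obtain ⟨u, hu⟩ := h.exists_right_inv
    have h1 : (1 : Eis).re = (2 * u).re := by rw [hu]
    have h3 : (2 * u).re = 2 * u.re := by
      rw [two_mul]
      show u.re + u.re = _
      ring
    rw [h3] at h1
    have h4 : (1 : Eis).re = 1 := rfl
    omega
  obtain ⟨d, h, h'⟩ := (FiniteMultiplicity.of_not_isUnit h2 hD).exists_eq_pow_mul_and_not_dvd
  exact ⟨_, d, h, h'⟩

/-- [G4] -/
theorem discr_two (c : Cy D M) (C : Cub D) (hD : D ≠ 0) :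
    (discr M).natAbs.factorization 2 = 2 * (C.g.norm.natAbs).factorization 2 := by
  obtain ⟨n, d, hn, hd⟩ := g4_fac hD
  rw [norm_g_two C]
  by_cases h3 : 3 ∣ n
  · obtain ⟨m, rfl⟩ := h3
    rw [discr_odd c hn hd, if_neg]
    intro h
    exact (two_dvd_g C hn hd).1 h (dvd_mul_right 3 m)
  · rw [discr_ram c hn hd h3, if_pos ((two_dvd_g C hn hd).2 h3)]

end J2N
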