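import Pool.Agent.J2N.B4

/-!
# [J2N-H1]
-/

set_option autoImplicit false

open NumberField IsDedekindDomain
open scoped Classical ComplexConjugate

namespace J2N

open CM27 JZ
open CU (eE)
open JT (KM cD)

variable {D : Eis}

/-- `log |σ^i x|` -/
noncomputable def lg (c : Cy D (KM D)) (i : ℕ) (x : KM D) : ℝ := Real.log ‖(((c.σ ^ i) x : KM D) : ℂ)‖

private theorem h1_norm_unit {u : Eis} (hu : IsUnit u) : ‖emb u‖ = 1 := by
  have h3 : u.norm = 1 := (eis_isUnit_iff u).1 hu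
  have h4 : ‖emb u‖ ^ 2 = 1 := by
    rw [norm_emb_sq, h3]
    norm_num
  nlinarith [norm_nonneg (emb u)]

private theorem h1_sigma_ne {M : Type} [Field M] [NumberField M] [Algebra CF.KK M]
    (c : Cy D M) (hs : (c.s : M) ≠ 0) : c.σ ≠ 1 := by
  intro h
  have h1 := c.hσ
  rw [h, AlgEquiv.one_apply] at h1
  have h2 : algebraMap (𝓞 CF.KK) (𝓞 M) (eE CU.om) = 1 := by
    apply RingOfIntegers.ext
    have h3 : ((algebraMap (𝓞 CF.KK) (𝓞 M) (eE CU.om) : 𝓞 M) : M) * (c.s : M) = 1 * (c.s : M) := by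
      rw [one_mul]
      exact h1.symm
    have h4 := mul_right_cancel₀ hs h3
    rw [h4]
    rfl
  have hinj : Function.Injective (algebraMap (𝓞 CF.KK) (𝓞 M)) := FaithfulSMul.algebraMap_injective _ _
  have h5 : eE CU.om = 1 := hinj (by rw [h2, map_one])
  have h6 : CU.om = 1 := eE.injective (by rw [h5, map_one])
  have h7 := congrArg QuadraticAlgebra.re h6
  have h8 : (0 : ℤ) = 1 := h7
  omega

private theorem h1_prod {M : Type} [Field M] [NumberField M] [Algebra CF.KK M]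
    (c : Cy D M) (hs : (c.s : M) ≠ 0) (x : M) :
    algebraMap CF.KK M (Algebra.norm CF.KK x) = (c.σ ^ 0) x * (c.σ ^ 1) x * (c.σ ^ 2) x := by
  have hgal : IsGalois CF.KK M := c.gal
  have hcard : Nat.card (M ≃ₐ[CF.KK] M) = 3 := by
    rw [IsGalois.card_aut_eq_finrank, c.deg]
  have : Fact (Nat.Prime 3) := ⟨Nat.prime_three⟩
  have hz : ∀ g : (M ≃ₐ[CF.KK] M), g ∈ Subgroup.zpowers c.σ := fun g =>
    mem_zpowers_of_prime_card hcard (h1_sigma_ne c hs)
  have hord : orderOf c.σ = 3 := by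
    rw [orderOf_eq_card_of_forall_mem_zpowers hz, hcard]
  rw [Algebra.norm_eq_prod_automorphisms, ← IsCyclic.image_range_orderOf hz, hord,
    Finset.prod_image]
  · rw [Finset.prod_range_succ, Finset.prod_range_succ, Finset.prod_range_succ, Finset.prod_range_zero,
      one_mul]
  · intro i hi j hj h
    rw [Finset.mem_coe, Finset.mem_range] at hi hj
    exact pow_injOn_Iio_orderOf (by rw [hord]; exact hi) (by rw [hord]; exact hj) h

/-- [H1] the product formula: the three infinite places of `KM D` are `|σ^i x|`, `i = 0, 1, 2` (each of multiplicity two); they are different: `Units.rank = 2`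
(`rank_KM`) gives three places, `Gal(M/KK)` acts transitively on the places over the place of `KK` (`InfinitePlace.exists_smul_eq_of_comap_eq`, `KK` has one place). -/
theorem lg_sum (hc : ¬ ∃ x : Eis, x ^ 3 = D) (c : Cy D (KM D)) (u : (𝓞 (KM D))ˣ) :
    lg c 0 ((u : 𝓞 (KM D)) : KM D) + lg c 1 ((u : 𝓞 (KM D)) : KM D) + lg c 2 ((u : 𝓞 (KM D)) : KM D) = 0 := by
  have hs : (c.s : KM D) ≠ 0 := by
    intro h
    have h1 : c.s = 0 := RingOfIntegers.ext h
    have h2 := c.hs
    rw [h1, zero_pow (by norm_num)] at h2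
    have hinj : Function.Injective (algebraMap (𝓞 CF.KK) (𝓞 (KM D))) :=
      FaithfulSMul.algebraMap_injective _ _
    have h3 : eE D = 0 := hinj (by rw [← h2, map_zero])
    have h4 : D = 0 := eE.injective (by rw [h3, map_zero])
    exact hc ⟨0, by rw [h4]; norm_num⟩
  set x : KM D := ((u : 𝓞 (KM D)) : KM D) with hx
  have hx0 : x ≠ 0 := by
    intro h
    exact u.ne_zero (RingOfIntegers.ext h)
  have hne : ∀ i : ℕ, ‖(((c.σ ^ i) x : KM D) : ℂ)‖ ≠ 0 := by
    intro i h
    rw [norm_eq_zero] at h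
    have h1 : (c.σ ^ i) x = 0 := by exact_mod_cast h
    exact hx0 ((map_eq_zero (c.σ ^ i)).1 h1)
  unfold lg
  rw [← Real.log_mul (hne 0) (hne 1), ← Real.log_mul (mul_ne_zero (hne 0) (hne 1)) (hne 2),
    ← norm_mul, ← norm_mul]
  have h1 := h1_prod c hs x
  have h2 : ((algebraMap CF.KK (KM D) (Algebra.norm CF.KK x) : KM D) : ℂ) =
      (((c.σ ^ 0) x : KM D) : ℂ) * (((c.σ ^ 1) x : KM D) : ℂ) * (((c.σ ^ 2) x : KM D) : ℂ) := by
    rw [h1]
    rfl
  rw [← h2]
  -- the norm is a unit of `𝓞 KK`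
  have hu : IsUnit (RingOfIntegers.norm CF.KK (u : 𝓞 (KM D))) := u.isUnit.map _
  obtain ⟨a, ha⟩ := eE.surjective (RingOfIntegers.norm CF.KK (u : 𝓞 (KM D)))
  rw [← ha] at hu
  have hau : IsUnit a := (MulEquiv.isUnit_map (eE : Eis ≃* 𝓞 CF.KK)).1 hu
  have h3 : ((algebraMap CF.KK (KM D) (Algebra.norm CF.KK x) : KM D) : ℂ) = emb a := by
    have h4 : (((algebraMap CF.KK (KM D) (Algebra.norm CF.KK x) : KM D)) : ℂ) =
        ((Algebra.norm CF.KK x : CF.KK) : ℂ) := rfl
    rw [h4, ← CU.eE_coe, ha]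
    rfl
  rw [h3, h1_norm_unit hau, Real.log_one]

end J2N
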