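import Pool.Agent.J2N.H1

/-!
# [J2N-H2]
-/

set_option autoImplicit false

open NumberField IsDedekindDomain
open scoped Classical ComplexConjugate

namespace J2N

open CM27 JZ
open CU (eE)
open JT (KM cD)

variable {D : Eis}

theorem h2_coe (D : Eis) (x : CF.KK) : ((algebraMap CF.KK (KM D) x : KM D) : ℂ) = (x : ℂ) := by
  have h : algebraMap CF.KK (KM D) x = IntermediateField.inclusion (CF.KK_le (KM D) (w_mem_KM D)) x := by
    with_reducible_and_instances rfl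
  rw [h]
  exact IntermediateField.coe_inclusion _ x

/-- the embedding `x ↦ σ^i x` -/
noncomputable def h2_phi (c : Cy D (KM D)) (i : ℕ) : KM D →+* ℂ :=
  (algebraMap (KM D) ℂ).comp ((c.σ ^ i : KM D ≃ₐ[CF.KK] KM D) : KM D →+* KM D)

theorem h2_phi_apply (c : Cy D (KM D)) (i : ℕ) (x : KM D) : h2_phi c i x = (((c.σ ^ i) x : KM D) : ℂ) := rfl

theorem h2_phi_KK (c : Cy D (KM D)) (i : ℕ) (x : CF.KK) : h2_phi c i (algebraMap CF.KK (KM D) x) = (x : ℂ) := by
  rw [h2_phi_apply, AlgEquiv.commutes, h2_coe]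

theorem h2_s_ne (hc : ¬ ∃ x : Eis, x ^ 3 = D) (c : Cy D (KM D)) : (c.s : KM D) ≠ 0 := by
  intro h
  have h1 : c.s = 0 := RingOfIntegers.ext h
  have h2 := c.hs
  rw [h1, zero_pow (by norm_num)] at h2
  have h3 : eE D = 0 := by
    apply FaithfulSMul.algebraMap_injective (𝓞 CF.KK) (𝓞 (KM D))
    rw [← h2, map_zero]
  have h4 : D = 0 := (map_eq_zero_iff eE eE.injective).1 h3
  exact hc ⟨0, by rw [h4]; ring⟩

theorem h2_om_coe : (((eE CU.om : 𝓞 CF.KK) : CF.KK) : ℂ) = w := by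
  rw [CU.eE_coe, CUL.emb_om]

theorem h2_phi_s (c : Cy D (KM D)) (i : ℕ) : h2_phi c i (c.s : KM D) = w ^ i * ((c.s : KM D) : ℂ) := by
  induction i with
  | zero =>
    rw [h2_phi_apply, pow_zero, pow_zero, one_mul]
    rfl
  | succ n ih =>
    rw [h2_phi_apply] at ih ⊢
    have h1 : (c.σ ^ (n + 1)) (c.s : KM D) = (c.σ ^ n) (c.σ (c.s : KM D)) := by
      rw [pow_succ]
      rfl
    rw [h1, c.hσ, map_mul]
    have h2 : (c.σ ^ n) ((algebraMap (𝓞 CF.KK) (𝓞 (KM D)) (eE CU.om) : 𝓞 (KM D)) : KM D) =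
        algebraMap CF.KK (KM D) ((eE CU.om : 𝓞 CF.KK) : CF.KK) := by
      have h3 : ((algebraMap (𝓞 CF.KK) (𝓞 (KM D)) (eE CU.om) : 𝓞 (KM D)) : KM D) =
        algebraMap CF.KK (KM D) ((eE CU.om : 𝓞 CF.KK) : CF.KK) := rfl
      rw [h3, AlgEquiv.commutes]
    rw [h2]
    push_cast
    rw [h2_coe, h2_om_coe, ih]
    ring

/-- the infinite place `|σ^i x|` -/
noncomputable def h2_pl (c : Cy D (KM D)) (i : ℕ) : InfinitePlace (KM D) := InfinitePlace.mk (h2_phi c i)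

theorem h2_w_ne : conj w ≠ w := by
  intro h
  have h1 := congrArg Complex.im h
  rw [Complex.conj_im] at h1
  have h2 : w.im = √3 / 2 := rfl
  have h3 : (0 : ℝ) < √3 := by positivity
  linarith

theorem h2_pl_ne (hc : ¬ ∃ x : Eis, x ^ 3 = D) (c : Cy D (KM D)) {i j : ℕ} (h : w ^ i ≠ w ^ j) :
    h2_pl c i ≠ h2_pl c j := by
  intro he
  rcases InfinitePlace.mk_eq_iff.1 he with h1 | h1
  · have h2 := congrArg (fun f : KM D →+* ℂ => f (c.s : KM D)) h1
    beta_reduce at h2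
    rw [h2_phi_s, h2_phi_s] at h2
    have h3 : ((c.s : KM D) : ℂ) ≠ 0 := by
      intro h4
      exact h2_s_ne hc c (Subtype.ext h4)
    exact h (mul_right_cancel₀ h3 h2)
  · have h2 := congrArg (fun f : KM D →+* ℂ => f (algebraMap CF.KK (KM D) ((eE CU.om : 𝓞 CF.KK) : CF.KK))) h1
    beta_reduce at h2
    rw [ComplexEmbedding.conjugate_coe_eq, h2_phi_KK, h2_phi_KK, h2_om_coe] at h2
    exact h2_w_ne h2

theorem h2_w1 : w ^ 1 ≠ w ^ 2 ∧ w ^ 0 ≠ w ^ 1 ∧ w ^ 0 ≠ w ^ 2 := by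
  have h1 : w ≠ 1 := by
    intro h
    have := congrArg Complex.re h
    have h2 : w.re = -1 / 2 := rfl
    rw [h2] at this
    norm_num at this
  have h0 : w ≠ 0 := by
    intro h
    have := CUL.w3
    rw [h] at this
    norm_num at this
  refine ⟨?_, ?_, ?_⟩
  · intro h
    apply h1
    have h3 : w * (w - 1) = 0 := by linear_combination -h
    exact sub_eq_zero.1 ((mul_eq_zero.1 h3).resolve_left h0)
  · intro h
    apply h1
    linear_combination -h
  · intro h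
    apply h1
    have := CUL.w3
    linear_combination this + w * h

/-- [H2] PROOF. `Units.regOfFamily_eq_det` with the places of `H1` for the family `u, σ u`: `|det [[2 l₀, 2 l₁], [2 l₁, 2 l₂]]|`, and `Units.regOfFamily_div_regulator`.
`l₀ l₂ - l₁² = - (l₀² + l₀ l₁ + l₁²)`. -/
theorem index_eq (hc : ¬ ∃ x : Eis, x ^ 3 = D) (c : Cy D (KM D)) (u : (𝓞 (KM D))ˣ) :
    ((Subgroup.closure {u, c.su u} ⊔ Units.torsion (KM D)).index : ℝ) * Units.regulator (KM D) =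
      4 * (lg c 0 ((u : 𝓞 (KM D)) : KM D) ^ 2 + lg c 0 ((u : 𝓞 (KM D)) : KM D) * lg c 1 ((u : 𝓞 (KM D)) : KM D) +
        lg c 1 ((u : 𝓞 (KM D)) : KM D) ^ 2) := by
  have hr := rank_KM hc
  have n12 := h2_pl_ne hc c h2_w1.1
  have n01 := h2_pl_ne hc c h2_w1.2.1
  have n02 := h2_pl_ne hc c h2_w1.2.2
  have hcard : Fintype.card (InfinitePlace (KM D)) = 3 := by
    have h1 := hr
    unfold Units.rank at h1
    omega
  let e1 : Fin 2 → {v : InfinitePlace (KM D) // v ≠ h2_pl c 2} := ![⟨h2_pl c 0, n02⟩, ⟨h2_pl c 1, n12⟩]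
  have he1 : Function.Bijective e1 := by
    rw [Fintype.bijective_iff_injective_and_card]
    constructor
    · intro i j hij
      fin_cases i <;> fin_cases j
      · rfl
      · exact absurd (Subtype.ext_iff.1 hij) n01
      · exact absurd (Subtype.ext_iff.1 hij) n01.symm
      · rfl
    · rw [Fintype.card_fin, Fintype.card_subtype_compl, hcard]
      simp
  let eR : Fin (Units.rank (KM D)) ≃ Fin 2 := finCongr hr
  let e : {v : InfinitePlace (KM D) // v ≠ h2_pl c 2} ≃ Fin (Units.rank (KM D)) :=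
    (Equiv.ofBijective e1 he1).symm.trans eR.symm
  let v : Fin (Units.rank (KM D)) → (𝓞 (KM D))ˣ := fun i => ![u, c.su u] (eR i)
  have hv : Set.range v = {u, c.su u} := by
    have : v = ![u, c.su u] ∘ eR := rfl
    rw [this, Set.range_comp, Equiv.range_eq_univ, Set.image_univ, Matrix.range_cons, Matrix.range_cons,
      Matrix.range_empty, Set.union_empty]
    rfl
  have h1 := Units.regOfFamily_eq_det v (h2_pl c 2) e
  have h2 := Units.regOfFamily_div_regulator v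
  rw [hv] at h2
  have hreg : Units.regulator (KM D) ≠ 0 := Units.regulator_ne_zero (KM D)
  rw [← h2, div_mul_cancel₀ _ hreg, h1, ← Matrix.det_reindex_self (Equiv.ofBijective e1 he1).symm,
    Matrix.det_fin_two]
  have hE : ∀ i j : Fin 2, (Matrix.reindex (Equiv.ofBijective e1 he1).symm (Equiv.ofBijective e1 he1).symm
      (Matrix.of fun i w : {w // w ≠ h2_pl c 2} ↦
        (InfinitePlace.mult w.val : ℝ) * Real.log (w.val (v (e i) : KM D)))) i j =
      2 * Real.log ((e1 j).val ((((![u, c.su u] i : (𝓞 (KM D))ˣ) : 𝓞 (KM D)) : KM D))) := by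
    intro i j
    rw [Matrix.reindex_apply, Matrix.submatrix_apply, Matrix.of_apply, IsTotallyComplex.mult_eq]
    simp only [Equiv.symm_symm, Equiv.ofBijective_apply, v, e, eR, Equiv.trans_apply,
      Equiv.apply_symm_apply]
    have h3 : (Equiv.ofBijective e1 he1).symm (e1 i) = i := by
      rw [Equiv.symm_apply_eq]
      rfl
    rw [h3]
    norm_num
  rw [hE, hE, hE, hE]
  have hp0 : ∀ x : KM D, (e1 0).val x = ‖(((c.σ ^ 0) x : KM D) : ℂ)‖ := fun x => rfl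
  have hp1 : ∀ x : KM D, (e1 1).val x = ‖(((c.σ ^ 1) x : KM D) : ℂ)‖ := fun x => rfl
  rw [hp0, hp1, hp0, hp1]
  have hsum := lg_sum hc c u
  have hs0 : (((c.su u : (𝓞 (KM D))ˣ) : 𝓞 (KM D)) : KM D) = c.σ ((u : 𝓞 (KM D)) : KM D) := c.su_coe u
  have hc1 : (c.σ ^ 0) (c.σ ((u : 𝓞 (KM D)) : KM D)) = (c.σ ^ 1) ((u : 𝓞 (KM D)) : KM D) := by
    rw [pow_zero, pow_one]
    rfl
  have hc2 : (c.σ ^ 1) (c.σ ((u : 𝓞 (KM D)) : KM D)) = (c.σ ^ 2) ((u : 𝓞 (KM D)) : KM D) := by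
    rw [pow_one, pow_two]
    rfl
  simp only [Matrix.cons_val_zero, Matrix.cons_val_one, hs0, hc1, hc2]
  change |2 * lg c 0 ((u : 𝓞 (KM D)) : KM D) * (2 * lg c 2 ((u : 𝓞 (KM D)) : KM D)) -
    2 * lg c 1 ((u : 𝓞 (KM D)) : KM D) * (2 * lg c 1 ((u : 𝓞 (KM D)) : KM D))| = _
  have hl2 : lg c 2 ((u : 𝓞 (KM D)) : KM D) =
      - lg c 0 ((u : 𝓞 (KM D)) : KM D) - lg c 1 ((u : 𝓞 (KM D)) : KM D) := by linarith
  rw [hl2]
  generalize lg c 0 ((u : 𝓞 (KM D)) : KM D) = a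
  generalize lg c 1 ((u : 𝓞 (KM D)) : KM D) = b
  have : 2 * a * (2 * (-a - b)) - 2 * b * (2 * b) = -(4 * (a ^ 2 + a * b + b ^ 2)) := by ring
  rw [this, abs_neg, abs_of_nonneg]
  nlinarith [sq_nonneg (a + b), sq_nonneg a, sq_nonneg b]

end J2N
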