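import Pool.Agent.J2N.F2
import Pool.Agent.J2N.G4
import Pool.Agent.J2N.H2
import Pool.Agent.J2N.B5

/-!
# [J2N-Z1]
-/

set_option autoImplicit false

open NumberField IsDedekindDomain Filter Topology
open scoped Classical ComplexConjugate

namespace J2N

open CM27 JZ
open CU (eE)
open JT (KM cD)
open J2L (Cub LC IsU)

variable {D : Eis}

private theorem z1_arith {I w m d A N h : ℕ} (e : I ^ 2 * w ^ 2 * d = 108 * A ^ 2 * N ^ 2 * h ^ 2) (hw : w = 2 * m) (hm : Odd m)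
    (hd : d ≠ 0) (hdN : d.factorization 2 = 2 * N.factorization 2) (hA : Odd A) (hN : N ≠ 0) (hh : h ≠ 0) :
    I ≠ 0 ∧ (Odd I ↔ Odd h) := by
  have hA0 : A ≠ 0 := by rintro rfl; simp at hA
  have hm0 : m ≠ 0 := by rintro rfl; simp at hm
  have hI : I ≠ 0 := by
    rintro rfl
    have h1 : 108 * A ^ 2 * N ^ 2 * h ^ 2 ≠ 0 := by positivity
    apply h1
    rw [← e]
    simp
  refine ⟨hI, ?_⟩
  have hodd : ∀ n : ℕ, n ≠ 0 → (Odd n ↔ n.factorization 2 = 0) := by
    intro n hn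
    rw [← Nat.not_even_iff_odd, even_iff_two_dvd, Nat.factorization_eq_zero_iff]
    constructor
    · intro h1
      exact Or.inr (Or.inl h1)
    · rintro (h1 | h1 | h1)
      · exact absurd Nat.prime_two h1
      · exact h1
      · exact absurd h1 hn
  have fA := (hodd A hA0).1 hA
  have fm := (hodd m hm0).1 hm
  have f2 : (2 : ℕ).factorization 2 = 1 := Nat.Prime.factorization_self Nat.prime_two
  have f27 : (27 : ℕ).factorization 2 = 0 := (hodd 27 (by norm_num)).1 (by decide)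
  have e' : I ^ 2 * (2 * m) ^ 2 * d = 2 ^ 2 * 27 * A ^ 2 * N ^ 2 * h ^ 2 := by
    rw [← hw, e]; norm_num
  have h2 : (I ^ 2 * (2 * m) ^ 2 * d).factorization 2 = (2 ^ 2 * 27 * A ^ 2 * N ^ 2 * h ^ 2).factorization 2 := by rw [e']
  rw [Nat.factorization_mul (by positivity) hd, Nat.factorization_mul (by positivity) (by positivity),
    Nat.factorization_mul (by positivity) (by positivity), Nat.factorization_mul (by positivity) (by positivity),
    Nat.factorization_mul (by positivity) (by positivity), Nat.factorization_mul (by positivity) (by positivity),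
    Nat.factorization_pow, Nat.factorization_pow, Nat.factorization_pow, Nat.factorization_pow, Nat.factorization_pow,
    Nat.factorization_pow, Nat.factorization_mul (by norm_num) hm0] at h2
  simp only [Finsupp.add_apply, Finsupp.smul_apply, smul_eq_mul, hdN, fA, fm, f2, f27] at h2
  rw [hodd I hI, hodd h hh]
  omega

/-- [Z1] the index of `⟨e, σe⟩` has the `2`-adic valuation of the class number. PROOF. `index · R = 4 Lm` (`index_eq`), `16 π² Lm = A N(g) |L₁|²`, `L1_sq`: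
`index · w · √|d| = A N(g) · 6 √3 · h`; squares: `index² w² |d| = 108 A² N(g)² h²` (integers). `v₂(w) = 1` (`torsion_KM`), `v₂(d) = 2 v₂(N g)` (`discr_two`), `A` odd:
`v₂(index) = v₂(h)`. -/
theorem index_two (hc : ¬ ∃ x : Eis, x ^ 3 = D) (C : Cub D) (c : Cy D (KM D)) (u : (𝓞 (KM D))ˣ) {L : ℂ}
    (hL : Tendsto (LC C) (𝓝[>] 1) (𝓝 L)) {A : ℕ} (hA : Odd A)
    (hK : 16 * Real.pi ^ 2 * (lg c 0 ((u : 𝓞 (KM D)) : KM D) ^ 2 + lg c 0 ((u : 𝓞 (KM D)) : KM D) * lg c 1 ((u : 𝓞 (KM D)) : KM D) +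
      lg c 1 ((u : 𝓞 (KM D)) : KM D) ^ 2) = A * (C.g.norm : ℝ) * ‖L‖ ^ 2) :
    (Subgroup.closure {u, c.su u} ⊔ Units.torsion (KM D)).index ≠ 0 ∧
      (Odd (Subgroup.closure {u, c.su u} ⊔ Units.torsion (KM D)).index ↔ Odd (classNumber (KM D))) := by
  have hD : D ≠ 0 := by
    rintro rfl
    exact hc ⟨0, by ring⟩
  obtain ⟨m, hm, hw⟩ := torsion_KM hc
  have h1 := index_eq hc c u
  have h2 := L1_sq hc C hL
  have h3 := discr_two c C hD
  have hR : 0 < Units.regulator (KM D) := Units.regulator_pos _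
  have hd0 : discr (KM D) ≠ 0 := discr_ne_zero _
  have hh : classNumber (KM D) ≠ 0 := classNumber_ne_zero _
  have hN0 : C.g.norm.natAbs ≠ 0 := by
    intro h0
    have h4 := CU.norm_emb C.g
    rw [h0, Nat.cast_zero] at h4
    have h5 : emb C.g = 0 := norm_eq_zero.1 (pow_eq_zero_iff (by norm_num : (2 : ℕ) ≠ 0) |>.1 h4)
    exact C.hg (emb_injective (by rw [h5, map_zero]))
  have hNc : ((C.g.norm : ℤ) : ℝ) = (C.g.norm.natAbs : ℝ) := by
    have h4 : ((C.g.norm.natAbs : ℕ) : ℤ) = C.g.norm := Int.natAbs_of_nonneg (norm_nonneg' _)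
    rw [← h4, Int.cast_natCast, Int.natAbs_natCast]
  have hdc : |((discr (KM D) : ℤ) : ℝ)| = ((discr (KM D)).natAbs : ℝ) := by
    rw [Nat.cast_natAbs, Int.cast_abs]
  have hdn : (discr (KM D)).natAbs ≠ 0 := Int.natAbs_ne_zero.2 hd0
  have hw0 : Units.torsionOrder (KM D) ≠ 0 := by
    rw [hw]
    have : m ≠ 0 := by rintro rfl; simp at hm
    omega
  refine z1_arith (w := Units.torsionOrder (KM D)) (m := m) (d := (discr (KM D)).natAbs) (A := A) (N := C.g.norm.natAbs) ?_ hw hm hdn h3 hA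
    hN0 hh
  generalize (Subgroup.closure {u, c.su u} ⊔ Units.torsion (KM D)).index = I at h1 ⊢
  generalize lg c 0 ((u : 𝓞 (KM D)) : KM D) ^ 2 + lg c 0 ((u : 𝓞 (KM D)) : KM D) * lg c 1 ((u : 𝓞 (KM D)) : KM D) +
        lg c 1 ((u : 𝓞 (KM D)) : KM D) ^ 2 = Lm at h1 hK
  rw [h2, hNc, hdc] at hK
  generalize Units.regulator (KM D) = R at h1 hK hR
  generalize (discr (KM D)).natAbs = d at hK hdn ⊢
  generalize Units.torsionOrder (KM D) = ww at hK hw0 ⊢
  generalize classNumber (KM D) = hn at hK ⊢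
  generalize C.g.norm.natAbs = N at hK ⊢
  have hwr : (ww : ℝ) ≠ 0 := Nat.cast_ne_zero.2 hw0
  have hdr : (0 : ℝ) < (d : ℝ) := by
    have := Nat.pos_of_ne_zero hdn
    exact_mod_cast this
  have hsd : √(d : ℝ) ≠ 0 := (Real.sqrt_pos.2 hdr).ne'
  have hpi : Real.pi ≠ 0 := Real.pi_ne_zero
  have hs3 : √(3 : ℝ) ^ 2 = 3 := Real.sq_sqrt (by norm_num)
  have hsd2 : √(d : ℝ) ^ 2 = d := Real.sq_sqrt hdr.le
  have e1 : (I : ℝ) * ww * √(d : ℝ) = 6 * √3 * A * N * hn := by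
    have h5 : Lm = I * R / 4 := by rw [h1]; ring
    rw [h5] at hK
    have h6 : (16 * Real.pi ^ 2 * (I * R / 4)) * (ww * √(d : ℝ)) = A * N * (24 * √3 * Real.pi ^ 2 * R * hn) := by
      rw [hK]
      field_simp
    have h7 : (4 * Real.pi ^ 2 * R) * (I * ww * √(d : ℝ)) = (4 * Real.pi ^ 2 * R) * (6 * √3 * A * N * hn) := by
      linear_combination h6
    exact mul_left_cancel₀ (by positivity) h7
  have e2 : ((I ^ 2 * ww ^ 2 * d : ℕ) : ℝ) = ((108 * A ^ 2 * N ^ 2 * hn ^ 2 : ℕ) : ℝ) := by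
    push_cast
    calc (I : ℝ) ^ 2 * ww ^ 2 * d = (I * ww * √(d : ℝ)) ^ 2 := by rw [mul_pow, mul_pow, hsd2]
      _ = (6 * √3 * A * N * hn) ^ 2 := by rw [e1]
      _ = 36 * √3 ^ 2 * A ^ 2 * N ^ 2 * hn ^ 2 := by ring
      _ = 108 * A ^ 2 * N ^ 2 * hn ^ 2 := by rw [hs3]; ring
  exact_mod_cast e2

end J2N
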